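import Mathlib

/-!
Y570/LS (helper570, MP_0430e4_lc): alternating sums of products of a kernel.
-/

set_option autoImplicit false
set_option linter.unusedSectionVars false

namespace Pool.Agent.Y570.LS

open Finset

section

variable {X : Type} [Fintype X] [DecidableEq X]

/-- the product over `S × T` -/
def gg (g : X → X → ℝ) (S T : Finset X) : ℝ := ∏ s ∈ S, ∏ t ∈ T, g s t

/-- the product over `S × {t}` -/
def gs (g : X → X → ℝ) (S : Finset X) (t : X) : ℝ := ∏ s ∈ S, g s t

/-- the alternating sum over the subsets of `J` and `L` -/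
def CC (g : X → X → ℝ) (J L : Finset X) : ℝ :=
  ∑ S ∈ J.powerset, (-1) ^ (J \ S).card * ∏ t ∈ L, (gs g S t - 1)

lemma CC_eq (g : X → X → ℝ) (J L : Finset X) :
    CC g J L = ∑ S ∈ J.powerset, ∑ T ∈ L.powerset,
      (-1) ^ (J \ S).card * (-1) ^ (L \ T).card * gg g S T := by
  unfold CC
  refine Finset.sum_congr rfl fun S _ => ?_
  have h1 : ∏ t ∈ L, (gs g S t - 1) = ∑ T ∈ L.powerset, (-1) ^ (L \ T).card * gg g S T := by
    simp_rw [sub_eq_add_neg]
    rw [Finset.prod_add]
    refine Finset.sum_congr rfl fun T _ => ?_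
    rw [Finset.prod_const, mul_comm]
    congr 1
    unfold gs gg
    rw [Finset.prod_comm]
  rw [h1, Finset.mul_sum]
  refine Finset.sum_congr rfl fun T _ => ?_
  ring

lemma CC_empty_left (g : X → X → ℝ) (L : Finset X) : CC g ∅ L = if L = ∅ then 1 else 0 := by
  unfold CC gs
  rw [Finset.powerset_empty, Finset.sum_singleton, Finset.sdiff_empty, Finset.card_empty,
    pow_zero, one_mul]
  simp only [prod_empty, sub_self]
  by_cases h : L = ∅
  · rw [if_pos h, h, Finset.prod_empty]
  · rw [if_neg h]
    obtain ⟨x, hx⟩ := Finset.nonempty_iff_ne_empty.2 h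
    exact Finset.prod_eq_zero hx rfl

lemma alt_sum (J : Finset X) :
    ∑ S ∈ J.powerset, (-1 : ℝ) ^ (J \ S).card = if J = ∅ then 1 else 0 := by
  have h1 := Finset.prod_add (fun _ : X => (1 : ℝ)) (fun _ => -1) J
  simp only [Finset.prod_const_one, one_mul, Finset.prod_const] at h1
  rw [← h1]
  by_cases h : J = ∅
  · rw [if_pos h, h]
    simp
  · rw [if_neg h]
    have : J.card ≠ 0 := by
      rwa [Ne, Finset.card_eq_zero]
    norm_num [this]

lemma CC_empty_right (g : X → X → ℝ) (J : Finset X) : CC g J ∅ = if J = ∅ then 1 else 0 := by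
  unfold CC
  simp only [prod_empty, mul_one]
  exact alt_sum J

/-- the recursion -/
lemma CC_insert (g : X → X → ℝ) {J : Finset X} {a : X} (ha : a ∉ J) (L : Finset X) :
    CC g (insert a J) L = ∑ R ∈ L.powerset, (∏ t ∈ R, (g a t - 1)) * (∏ t ∈ L \ R, g a t) *
      CC g J (L \ R) - CC g J L := by
  have h0 : CC g (insert a J) L = ∑ S ∈ J.powerset,
      ((-1) ^ (J \ S).card * ∏ t ∈ L, (g a t * gs g S t - 1)) - CC g J L := by
    unfold CC
    rw [Finset.sum_powerset_insert ha, add_comm, sub_eq_add_neg, ← Finset.sum_neg_distrib]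
    congr 1
    · refine Finset.sum_congr rfl fun S hS => ?_
      have hS' := Finset.mem_powerset.1 hS
      have haS : a ∉ S := fun h => ha (hS' h)
      have e1 : insert a J \ insert a S = J \ S := by
        ext x
        simp only [mem_sdiff, mem_insert, not_or]
        constructor
        · rintro ⟨h1 | h1, h2, h3⟩
          · exact absurd h1 h2
          · exact ⟨h1, h3⟩
        · rintro ⟨h1, h2⟩
          exact ⟨Or.inr h1, fun h => ha (h ▸ h1), h2⟩
      rw [e1]
      congr 1
      refine Finset.prod_congr rfl fun t _ => ?_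
      unfold gs
      rw [Finset.prod_insert haS]
    · refine Finset.sum_congr rfl fun S hS => ?_
      have hS' := Finset.mem_powerset.1 hS
      have haS : a ∉ S := fun h => ha (hS' h)
      have e1 : (insert a J \ S).card = (J \ S).card + 1 := by
        rw [Finset.insert_sdiff_of_notMem _ haS, Finset.card_insert_of_notMem]
        simp [ha]
      rw [e1, pow_succ]
      ring
  rw [h0]
  congr 1
  have h1 : ∀ S : Finset X, ∏ t ∈ L, (g a t * gs g S t - 1) = ∑ R ∈ L.powerset,
      (∏ t ∈ R, (g a t - 1)) * ((∏ t ∈ L \ R, g a t) * ∏ t ∈ L \ R, (gs g S t - 1)) := by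
    intro S
    have e1 : ∀ t ∈ L, g a t * gs g S t - 1 = (g a t - 1) + g a t * (gs g S t - 1) := by
      intro t _
      ring
    rw [Finset.prod_congr rfl e1, Finset.prod_add]
    refine Finset.sum_congr rfl fun R _ => ?_
    rw [Finset.prod_mul_distrib]
  simp_rw [h1, Finset.mul_sum]
  rw [Finset.sum_comm]
  refine Finset.sum_congr rfl fun R _ => ?_
  unfold CC
  rw [Finset.mul_sum]
  refine Finset.sum_congr rfl fun S _ => ?_
  ring

/-- the sum over the larger sets -/
def up (φ : Finset X → ℝ) (J : Finset X) : ℝ := ∑ S ∈ univ.filter (fun S => J ⊆ S), φ S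

lemma alt_sum' (J : Finset X) :
    ∑ S ∈ J.powerset, (-1 : ℝ) ^ S.card = if J = ∅ then 1 else 0 := by
  have h1 := Finset.prod_add (fun _ : X => (-1 : ℝ)) (fun _ => 1) J
  simp only [Finset.prod_const_one, mul_one, Finset.prod_const] at h1
  rw [← h1]
  by_cases h : J = ∅
  · rw [if_pos h, h]
    simp
  · rw [if_neg h]
    have : J.card ≠ 0 := by
      rwa [Ne, Finset.card_eq_zero]
    norm_num [this]

lemma alt_between (S T : Finset X) :
    ∑ J ∈ univ.filter (fun J => S ⊆ J ∧ J ⊆ T), (-1 : ℝ) ^ (J \ S).card =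
      if S = T then 1 else 0 := by
  by_cases hST : S ⊆ T
  · have h1 : ∑ J ∈ univ.filter (fun J => S ⊆ J ∧ J ⊆ T), (-1 : ℝ) ^ (J \ S).card =
        ∑ A ∈ (T \ S).powerset, (-1 : ℝ) ^ A.card := by
      refine Finset.sum_nbij' (fun J => J \ S) (fun A => S ∪ A) ?_ ?_ ?_ ?_ ?_
      · intro J hJ
        obtain ⟨-, h2, h3⟩ := Finset.mem_filter.1 hJ
        exact Finset.mem_powerset.2 (Finset.sdiff_subset_sdiff h3 (Finset.Subset.refl S))
      · intro A hA
        have hA' := Finset.mem_powerset.1 hA
        refine Finset.mem_filter.2 ⟨Finset.mem_univ _, Finset.subset_union_left, ?_⟩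
        exact Finset.union_subset hST (hA'.trans Finset.sdiff_subset)
      · intro J hJ
        obtain ⟨-, h2, h3⟩ := Finset.mem_filter.1 hJ
        exact Finset.union_sdiff_of_subset h2
      · intro A hA
        have hA' := Finset.mem_powerset.1 hA
        refine Finset.union_sdiff_cancel_left ?_
        exact (Finset.disjoint_sdiff).mono_right hA'
      · intro J _
        rfl
    rw [h1, alt_sum']
    by_cases h : S = T
    · rw [if_pos h, if_pos (by rw [h, Finset.sdiff_self])]
    · rw [if_neg h, if_neg]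
      intro h2
      exact h (Finset.Subset.antisymm hST (Finset.sdiff_eq_empty_iff_subset.1 h2))
  · rw [if_neg (fun h : S = T => hST (h ▸ Finset.Subset.refl _)), Finset.filter_false_of_mem,
      Finset.sum_empty]
    rintro J - ⟨h1, h2⟩
    exact hST (h1.trans h2)

lemma up_inv (φ : Finset X → ℝ) (S : Finset X) :
    ∑ J ∈ univ.filter (fun J => S ⊆ J), (-1) ^ (J \ S).card * up φ J = φ S := by
  unfold up
  simp_rw [Finset.mul_sum]
  have h1 : ∑ J ∈ univ.filter (fun J => S ⊆ J), ∑ T ∈ univ.filter (fun T => J ⊆ T),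
      (-1) ^ (J \ S).card * φ T = ∑ T : Finset X, (∑ J ∈ univ.filter (fun J => S ⊆ J ∧ J ⊆ T),
      (-1) ^ (J \ S).card) * φ T := by
    simp_rw [Finset.sum_filter, Finset.sum_mul]
    have e1 : ∀ J : Finset X, (if S ⊆ J then ∑ T : Finset X,
        (if J ⊆ T then (-1) ^ (J \ S).card * φ T else 0) else 0) =
        ∑ T : Finset X, (if S ⊆ J ∧ J ⊆ T then (-1) ^ (J \ S).card else 0) * φ T := by
      intro J
      by_cases h : S ⊆ J
      · rw [if_pos h]
        refine Finset.sum_congr rfl fun T _ => ?_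
        by_cases h2 : J ⊆ T
        · rw [if_pos h2, if_pos ⟨h, h2⟩]
        · rw [if_neg h2, if_neg fun h3 => h2 h3.2, zero_mul]
      · rw [if_neg h]
        symm
        refine Finset.sum_eq_zero fun T _ => ?_
        rw [if_neg fun h3 => h h3.1, zero_mul]
    rw [Finset.sum_congr rfl fun J _ => e1 J, Finset.sum_comm]
  rw [h1]
  simp_rw [alt_between]
  simp

/-- the change of basis -/
lemma form_up (g : X → X → ℝ) (φ ψ : Finset X → ℝ) :
    ∑ S, ∑ T, φ S * ψ T * gg g S T = ∑ J, ∑ L, up φ J * up ψ L * CC g J L := by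
  have h1 : ∀ S T : Finset X, φ S * ψ T * gg g S T =
      ∑ J, ∑ L, (if S ⊆ J then (-1) ^ (J \ S).card * up φ J else 0) *
        (if T ⊆ L then (-1) ^ (L \ T).card * up ψ L else 0) * gg g S T := by
    intro S T
    rw [← up_inv φ S, ← up_inv ψ T, Finset.sum_filter, Finset.sum_filter, Finset.sum_mul_sum,
      Finset.sum_mul]
    refine Finset.sum_congr rfl fun J _ => ?_
    rw [Finset.sum_mul]
  rw [Finset.sum_congr rfl fun S _ => Finset.sum_congr rfl fun T _ => h1 S T]
  have h2 : ∀ J L : Finset X, up φ J * up ψ L * CC g J L =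
      ∑ S, ∑ T, (if S ⊆ J then (-1) ^ (J \ S).card * up φ J else 0) *
        (if T ⊆ L then (-1) ^ (L \ T).card * up ψ L else 0) * gg g S T := by
    intro J L
    rw [CC_eq]
    have e1 : J.powerset = univ.filter (fun S => S ⊆ J) := by
      ext S
      simp
    have e2 : L.powerset = univ.filter (fun S => S ⊆ L) := by
      ext S
      simp
    rw [e1, e2, Finset.sum_filter, Finset.mul_sum]
    refine Finset.sum_congr rfl fun S _ => ?_
    by_cases hS : S ⊆ J
    · rw [if_pos hS, Finset.sum_filter, Finset.mul_sum]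
      refine Finset.sum_congr rfl fun T _ => ?_
      by_cases hT : T ⊆ L
      · rw [if_pos hT, if_pos hT, if_pos hS]
        ring
      · rw [if_neg hT, if_neg hT]
        ring
    · rw [if_neg hS, mul_zero]
      symm
      refine Finset.sum_eq_zero fun T _ => ?_
      rw [if_neg hS]
      ring
  rw [Finset.sum_congr rfl fun J _ => Finset.sum_congr rfl fun L _ => h2 J L]
  have h3 : ∀ F : Finset X → Finset X → Finset X → Finset X → ℝ,
      ∑ S, ∑ T, ∑ J, ∑ L, F S T J L = ∑ J, ∑ L, ∑ S, ∑ T, F S T J L := by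
    intro F
    rw [Finset.sum_congr rfl fun S _ => Finset.sum_comm (f := fun T J => ∑ L, F S T J L)]
    rw [Finset.sum_comm]
    refine Finset.sum_congr rfl fun J _ => ?_
    rw [Finset.sum_congr rfl fun S _ => Finset.sum_comm (f := fun T L => F S T J L)]
    rw [Finset.sum_comm]
  exact h3 _

end

end Pool.Agent.Y570.LS
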