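import Mathlib
import Pool.Agent.Y570.LS.Base

/-!
Y570/LS (helper570, MP_0430e4_lc): norms of the alternating sums.
-/

set_option autoImplicit false
set_option linter.unusedSectionVars false

namespace Pool.Agent.Y570.LS

open Finset

section

variable {X : Type} [Fintype X] [DecidableEq X]

lemma peel (u : ℕ) (Ψ : X → Finset X → ℝ) :
    ∑ J ∈ powersetCard (u + 1) univ, ∑ a ∈ J, Ψ a (J.erase a) =
      ∑ a, ∑ J ∈ powersetCard u univ, if a ∈ J then 0 else Ψ a J := by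
  have h1 : ∀ a : X, ∑ J ∈ powersetCard u univ, (if a ∈ J then 0 else Ψ a J) =
      ∑ J ∈ (powersetCard u univ).filter (fun J => a ∉ J), Ψ a J := by
    intro a
    rw [Finset.sum_filter]
    refine Finset.sum_congr rfl fun J _ => ?_
    by_cases h : a ∈ J
    · rw [if_pos h, if_neg (not_not.2 h)]
    · rw [if_neg h, if_pos h]
  rw [Finset.sum_sigma', Finset.sum_congr rfl (fun a _ => h1 a), Finset.sum_sigma']
  refine Finset.sum_nbij' (fun p => ⟨p.2, p.1.erase p.2⟩) (fun p => ⟨insert p.1 p.2, p.1⟩)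
    ?_ ?_ ?_ ?_ ?_
  · rintro ⟨J, a⟩ h
    obtain ⟨h2, h3⟩ := Finset.mem_sigma.1 h
    have h4 := (Finset.mem_powersetCard.1 h2).2
    refine Finset.mem_sigma.2 ⟨Finset.mem_univ _, Finset.mem_filter.2
      ⟨Finset.mem_powersetCard.2 ⟨Finset.subset_univ _, ?_⟩, Finset.notMem_erase _ _⟩⟩
    rw [Finset.card_erase_of_mem h3, h4]
    rfl
  · rintro ⟨a, J⟩ h
    obtain ⟨-, h3⟩ := Finset.mem_sigma.1 h
    obtain ⟨h4, h5⟩ := Finset.mem_filter.1 h3
    refine Finset.mem_sigma.2 ⟨Finset.mem_powersetCard.2 ⟨Finset.subset_univ _, ?_⟩,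
      Finset.mem_insert_self _ _⟩
    rw [Finset.card_insert_of_notMem h5, (Finset.mem_powersetCard.1 h4).2]
  · rintro ⟨J, a⟩ h
    obtain ⟨h2, h3⟩ := Finset.mem_sigma.1 h
    simp only
    rw [Finset.insert_erase h3]
  · rintro ⟨a, J⟩ h
    obtain ⟨-, h3⟩ := Finset.mem_sigma.1 h
    obtain ⟨h4, h5⟩ := Finset.mem_filter.1 h3
    simp only
    rw [Finset.erase_insert h5]
  · rintro ⟨J, a⟩ _
    rfl

lemma peel' (u : ℕ) (Φ : Finset X → ℝ) :
    ((u : ℝ) + 1) * ∑ J ∈ powersetCard (u + 1) univ, Φ J =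
      ∑ a, ∑ J ∈ powersetCard u univ, if a ∈ J then 0 else Φ (insert a J) := by
  rw [← peel u (fun a J => Φ (insert a J)), Finset.mul_sum]
  refine Finset.sum_congr rfl fun J hJ => ?_
  have h1 : ∑ a ∈ J, Φ (insert a (J.erase a)) = ∑ _a ∈ J, Φ J :=
    Finset.sum_congr rfl fun a ha => by rw [Finset.insert_erase ha]
  rw [h1, Finset.sum_const, (Finset.mem_powersetCard.1 hJ).2, nsmul_eq_mul]
  push_cast
  ring

lemma split (w r : ℕ) (hr : r ≤ w) (Ψ : Finset X → Finset X → ℝ) :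
    ∑ L ∈ powersetCard w univ, ∑ R ∈ powersetCard r L, Ψ R (L \ R) =
      ∑ R ∈ powersetCard r univ, ∑ M ∈ powersetCard (w - r) univ,
        if Disjoint R M then Ψ R M else 0 := by
  have h1 : ∀ R : Finset X, ∑ M ∈ powersetCard (w - r) univ,
      (if Disjoint R M then Ψ R M else 0) =
      ∑ M ∈ (powersetCard (w - r) univ).filter (fun M => Disjoint R M), Ψ R M := by
    intro R
    rw [Finset.sum_filter]
  rw [Finset.sum_sigma', Finset.sum_congr rfl (fun a _ => h1 a), Finset.sum_sigma']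
  refine Finset.sum_nbij' (fun p => ⟨p.2, p.1 \ p.2⟩) (fun p => ⟨p.1 ∪ p.2, p.1⟩)
    ?_ ?_ ?_ ?_ ?_
  · rintro ⟨L, R⟩ h
    obtain ⟨h2, h3⟩ := Finset.mem_sigma.1 h
    have h4 := (Finset.mem_powersetCard.1 h2).2
    obtain ⟨h5, h6⟩ := Finset.mem_powersetCard.1 h3
    simp only at h4 h5 h6
    refine Finset.mem_sigma.2 ⟨Finset.mem_powersetCard.2 ⟨Finset.subset_univ _, h6⟩,
      Finset.mem_filter.2 ⟨Finset.mem_powersetCard.2 ⟨Finset.subset_univ _, ?_⟩,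
      Finset.disjoint_sdiff⟩⟩
    rw [Finset.card_sdiff_of_subset h5, h4, h6]
  · rintro ⟨R, M⟩ h
    obtain ⟨h2, h3⟩ := Finset.mem_sigma.1 h
    obtain ⟨h4, h5⟩ := Finset.mem_filter.1 h3
    have h6 := (Finset.mem_powersetCard.1 h2).2
    have h7 := (Finset.mem_powersetCard.1 h4).2
    simp only at h5 h6 h7
    refine Finset.mem_sigma.2 ⟨Finset.mem_powersetCard.2 ⟨Finset.subset_univ _, ?_⟩,
      Finset.mem_powersetCard.2 ⟨Finset.subset_union_left, h6⟩⟩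
    rw [Finset.card_union_of_disjoint h5, h6, h7]
    omega
  · rintro ⟨L, R⟩ h
    obtain ⟨h2, h3⟩ := Finset.mem_sigma.1 h
    obtain ⟨h5, h6⟩ := Finset.mem_powersetCard.1 h3
    simp only at h5 ⊢
    rw [Finset.union_sdiff_of_subset h5]
  · rintro ⟨R, M⟩ h
    obtain ⟨h2, h3⟩ := Finset.mem_sigma.1 h
    obtain ⟨h4, h5⟩ := Finset.mem_filter.1 h3
    simp only at h5 ⊢
    rw [Finset.union_sdiff_cancel_left h5]
  · rintro ⟨L, R⟩ _
    rfl

/-- the spectral bound, for vector valued functions -/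
lemma spec_vec {Λ : ℝ} (hΛ : 0 ≤ Λ) {E : X → X → ℝ}
    (hE : ∀ h : X → ℝ, ∑ a, (∑ c, E a c * h c) ^ 2 ≤ Λ ^ 2 * ∑ c, h c ^ 2)
    {ι κ : Type} (s : Finset ι) (t : Finset κ) (M : ι → κ → ℝ) (N : ℝ) (hN : 0 ≤ N)
    (hM : ∀ (f : ι → ℝ) (h : κ → ℝ), |∑ i ∈ s, ∑ k ∈ t, f i * h k * M i k| ≤
      N * (√(∑ i ∈ s, f i ^ 2) * √(∑ k ∈ t, h k ^ 2)))
    (F : X → ι → ℝ) (H : X → κ → ℝ) :
    |∑ a, ∑ c, E a c * ∑ i ∈ s, ∑ k ∈ t, F a i * H c k * M i k| ≤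
      Λ * N * (√(∑ a, ∑ i ∈ s, F a i ^ 2) * √(∑ c, ∑ k ∈ t, H c k ^ 2)) := by
  have h1 : ∀ a, ∑ c, E a c * ∑ i ∈ s, ∑ k ∈ t, F a i * H c k * M i k =
      ∑ i ∈ s, ∑ k ∈ t, F a i * (∑ c, E a c * H c k) * M i k := by
    intro a
    simp_rw [Finset.mul_sum, Finset.sum_mul]
    rw [Finset.sum_comm]
    refine Finset.sum_congr rfl fun i _ => ?_
    rw [Finset.sum_comm]
    refine Finset.sum_congr rfl fun k _ => ?_
    refine Finset.sum_congr rfl fun c _ => ?_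
    ring
  simp_rw [h1]
  have h2 : ∑ a, ∑ k ∈ t, (∑ c, E a c * H c k) ^ 2 ≤ Λ ^ 2 * ∑ c, ∑ k ∈ t, H c k ^ 2 := by
    rw [Finset.sum_comm, Finset.sum_comm (s := univ) (t := t), Finset.mul_sum]
    exact Finset.sum_le_sum fun k _ => hE _
  calc |∑ a, ∑ i ∈ s, ∑ k ∈ t, F a i * (∑ c, E a c * H c k) * M i k|
      ≤ ∑ a, |∑ i ∈ s, ∑ k ∈ t, F a i * (∑ c, E a c * H c k) * M i k| :=
        Finset.abs_sum_le_sum_abs _ _
    _ ≤ ∑ a, N * (√(∑ i ∈ s, F a i ^ 2) * √(∑ k ∈ t, (∑ c, E a c * H c k) ^ 2)) :=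
        Finset.sum_le_sum fun a _ => hM _ _
    _ = N * ∑ a, √(∑ i ∈ s, F a i ^ 2) * √(∑ k ∈ t, (∑ c, E a c * H c k) ^ 2) := by
        rw [Finset.mul_sum]
    _ ≤ N * (√(∑ a, ∑ i ∈ s, F a i ^ 2) * √(∑ a, ∑ k ∈ t, (∑ c, E a c * H c k) ^ 2)) :=
        mul_le_mul_of_nonneg_left (Real.sum_sqrt_mul_sqrt_le _
          (fun a => Finset.sum_nonneg fun i _ => sq_nonneg _)
          (fun a => Finset.sum_nonneg fun i _ => sq_nonneg _)) hN
    _ ≤ N * (√(∑ a, ∑ i ∈ s, F a i ^ 2) * (Λ * √(∑ c, ∑ k ∈ t, H c k ^ 2))) := by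
        refine mul_le_mul_of_nonneg_left (mul_le_mul_of_nonneg_left ?_ (Real.sqrt_nonneg _)) hN
        refine (Real.sqrt_le_sqrt h2).trans ?_
        rw [Real.sqrt_mul (sq_nonneg _), Real.sqrt_sq hΛ]
    _ = Λ * N * (√(∑ a, ∑ i ∈ s, F a i ^ 2) * √(∑ c, ∑ k ∈ t, H c k ^ 2)) := by ring

lemma esym_le (x : X → ℝ) (hx : ∀ c, 0 ≤ x c) (r : ℕ) :
    ∑ R ∈ powersetCard r univ, ∏ c ∈ R, x c ≤ (∑ c, x c) ^ r := by
  have hS : 0 ≤ ∑ c, x c := Finset.sum_nonneg fun c _ => hx c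
  induction r with
  | zero => simp
  | succ r ih =>
    have h0 : ∀ q : ℕ, 0 ≤ ∑ R ∈ powersetCard q (univ : Finset X), ∏ c ∈ R, x c := fun q =>
      Finset.sum_nonneg fun R _ => Finset.prod_nonneg fun c _ => hx c
    have h1 := peel' r (fun R : Finset X => ∏ c ∈ R, x c)
    have h2 : ∑ a, ∑ J ∈ powersetCard r univ, (if a ∈ J then 0 else ∏ c ∈ insert a J, x c) ≤
        ∑ a, ∑ J ∈ powersetCard r univ, x a * ∏ c ∈ J, x c := by
      refine Finset.sum_le_sum fun a _ => Finset.sum_le_sum fun J _ => ?_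
      by_cases h : a ∈ J
      · rw [if_pos h]
        exact mul_nonneg (hx a) (Finset.prod_nonneg fun c _ => hx c)
      · rw [if_neg h, Finset.prod_insert h]
    have h3 : ∑ a, ∑ J ∈ powersetCard r univ, x a * ∏ c ∈ J, x c =
        (∑ c, x c) * ∑ R ∈ powersetCard r univ, ∏ c ∈ R, x c := by
      rw [Finset.sum_mul_sum]
    have h4 : (∑ c, x c) * ∑ R ∈ powersetCard r univ, ∏ c ∈ R, x c ≤ (∑ c, x c) ^ (r + 1) := by
      rw [pow_succ']
      exact mul_le_mul_of_nonneg_left ih hS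
    have h5 : ∑ R ∈ powersetCard (r + 1) (univ : Finset X), ∏ c ∈ R, x c ≤
        ((r : ℝ) + 1) * ∑ R ∈ powersetCard (r + 1) (univ : Finset X), ∏ c ∈ R, x c := by
      have hr : (0 : ℝ) ≤ r := Nat.cast_nonneg r
      have := mul_nonneg hr (h0 (r + 1))
      linarith
    linarith

end

end Pool.Agent.Y570.LS
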