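import Mathlib
import Pool.Agent.Y570.LS.Norm

/-!
Y570/LS (helper570, MP_0430e4_lc): the induction for the norms of the alternating sums.
-/

set_option autoImplicit false
set_option linter.unusedSectionVars false

namespace Pool.Agent.Y570.LS

open Finset

section

variable {X : Type} [Fintype X] [DecidableEq X]

/-- kernels close to the constant kernel: the spectral norm of `g - 1` is at most `Λ` and the
norm of the rows and columns is at most `σ` -/
structure KK (g : X → X → ℝ) (K Λ σ : ℝ) : Prop where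
  K1 : 1 ≤ K
  hΛ : 0 ≤ Λ
  hσ : 0 ≤ σ
  nonneg : ∀ x y, 0 ≤ g x y
  le : ∀ x y, g x y ≤ K
  row : ∀ a, ∑ c, (g a c - 1) ^ 2 ≤ σ ^ 2
  col : ∀ c, ∑ a, (g a c - 1) ^ 2 ≤ σ ^ 2
  spec : ∀ h : X → ℝ, ∑ a, (∑ c, (g a c - 1) * h c) ^ 2 ≤ Λ ^ 2 * ∑ c, h c ^ 2

/-- the sum of the squares -/
def n2 (u : ℕ) (f : Finset X → ℝ) : ℝ := ∑ J ∈ powersetCard u univ, f J ^ 2

lemma n2_nonneg (u : ℕ) (f : Finset X → ℝ) : 0 ≤ n2 u f :=
  Finset.sum_nonneg fun _ _ => sq_nonneg _

/-- the form on the sets of size `u` and `w` has norm at most `N` -/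
def BB (g : X → X → ℝ) (u w : ℕ) (N : ℝ) : Prop := ∀ f h : Finset X → ℝ,
  |∑ J ∈ powersetCard u univ, ∑ L ∈ powersetCard w univ, f J * h L * CC g J L| ≤
    N * (√(n2 u f) * √(n2 w h))

variable {g : X → X → ℝ} {K Λ σ : ℝ}

/-- the product of a row -/
def pg (g : X → X → ℝ) (a : X) (L : Finset X) : ℝ := ∏ t ∈ L, g a t

/-- the product of `g - 1` -/
def pe (g : X → X → ℝ) (a : X) (L : Finset X) : ℝ := ∏ t ∈ L, (g a t - 1)

lemma pg_nonneg (hk : KK g K Λ σ) (a : X) (L : Finset X) : 0 ≤ pg g a L :=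
  Finset.prod_nonneg fun t _ => hk.nonneg a t

lemma pg_le (hk : KK g K Λ σ) (a : X) (L : Finset X) : pg g a L ≤ K ^ L.card := by
  unfold pg
  calc ∏ t ∈ L, g a t ≤ ∏ _t ∈ L, K :=
        Finset.prod_le_prod (fun t _ => hk.nonneg a t) fun t _ => hk.le a t
    _ = K ^ L.card := by rw [Finset.prod_const]

lemma pg_sub (hk : KK g K Λ σ) (a : X) (L : Finset X) :
    |pg g a L - 1| ≤ K ^ L.card * ∑ t ∈ L, |g a t - 1| := by
  have hK := hk.K1
  have hK0 : 0 ≤ K := by linarith
  induction L using Finset.induction_on with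
  | empty => simp [pg]
  | insert x L hx ih =>
    have e1 : pg g a (insert x L) - 1 = pg g a L * (g a x - 1) + (pg g a L - 1) := by
      unfold pg
      rw [Finset.prod_insert hx]
      ring
    rw [e1, Finset.card_insert_of_notMem hx, Finset.sum_insert hx]
    have h1 := pg_le hk a L
    have h2 := pg_nonneg hk a L
    have h3 : (0 : ℝ) ≤ ∑ t ∈ L, |g a t - 1| := Finset.sum_nonneg fun t _ => abs_nonneg _
    have h4 := abs_nonneg (g a x - 1)
    have h5 : (0 : ℝ) ≤ K ^ L.card := pow_nonneg hK0 _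
    have h6 : K ^ L.card ≤ K ^ (L.card + 1) := pow_le_pow_right₀ hK (Nat.le_succ _)
    calc |pg g a L * (g a x - 1) + (pg g a L - 1)|
        ≤ |pg g a L * (g a x - 1)| + |pg g a L - 1| := abs_add_le _ _
      _ ≤ K ^ L.card * |g a x - 1| + K ^ L.card * ∑ t ∈ L, |g a t - 1| := by
          rw [abs_mul, abs_of_nonneg h2]
          exact add_le_add (mul_le_mul_of_nonneg_right h1 h4) ih
      _ = K ^ L.card * (|g a x - 1| + ∑ t ∈ L, |g a t - 1|) := by ring
      _ ≤ K ^ (L.card + 1) * (|g a x - 1| + ∑ t ∈ L, |g a t - 1|) :=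
          mul_le_mul_of_nonneg_right h6 (by linarith)

lemma pg_col (hk : KK g K Λ σ) (L : Finset X) :
    ∑ a, (pg g a L - 1) ^ 2 ≤ (K ^ L.card * L.card * σ) ^ 2 := by
  have h1 : ∀ a, (pg g a L - 1) ^ 2 ≤ (K ^ L.card) ^ 2 * (L.card * ∑ t ∈ L, (g a t - 1) ^ 2) := by
    intro a
    have e1 := pg_sub hk a L
    have e2 : (pg g a L - 1) ^ 2 ≤ (K ^ L.card * ∑ t ∈ L, |g a t - 1|) ^ 2 := by
      rw [← sq_abs (pg g a L - 1)]
      exact pow_le_pow_left₀ (abs_nonneg _) e1 2
    refine e2.trans ?_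
    rw [mul_pow]
    refine mul_le_mul_of_nonneg_left ?_ (sq_nonneg _)
    have e3 := sq_sum_le_card_mul_sum_sq (s := L) (f := fun t => |g a t - 1|)
    simpa only [sq_abs] using e3
  calc ∑ a, (pg g a L - 1) ^ 2
      ≤ ∑ a, (K ^ L.card) ^ 2 * (L.card * ∑ t ∈ L, (g a t - 1) ^ 2) :=
        Finset.sum_le_sum fun a _ => h1 a
    _ = (K ^ L.card) ^ 2 * (L.card * ∑ t ∈ L, ∑ a, (g a t - 1) ^ 2) := by
        rw [← Finset.mul_sum, ← Finset.mul_sum, Finset.sum_comm]
    _ ≤ (K ^ L.card) ^ 2 * (L.card * ∑ _t ∈ L, σ ^ 2) := by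
        refine mul_le_mul_of_nonneg_left (mul_le_mul_of_nonneg_left ?_ (Nat.cast_nonneg _))
          (sq_nonneg _)
        exact Finset.sum_le_sum fun t _ => hk.col t
    _ = (K ^ L.card * L.card * σ) ^ 2 := by
        rw [Finset.sum_const, nsmul_eq_mul]
        ring

lemma pe_row (hk : KK g K Λ σ) (a : X) (r : ℕ) :
    ∑ R ∈ powersetCard r univ, pe g a R ^ 2 ≤ (σ ^ r) ^ 2 := by
  have h1 := esym_le (fun c => (g a c - 1) ^ 2) (fun c => sq_nonneg _) r
  have h2 : ∀ R : Finset X, pe g a R ^ 2 = ∏ c ∈ R, (g a c - 1) ^ 2 := by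
    intro R
    unfold pe
    rw [Finset.prod_pow]
  simp_rw [h2]
  refine h1.trans ?_
  rw [← pow_mul, mul_comm r 2, pow_mul]
  exact pow_le_pow_left₀ (Finset.sum_nonneg fun c _ => sq_nonneg _) (hk.row a) r

/-- the function of the link of `a` -/
def fa (f : Finset X → ℝ) (a : X) (J : Finset X) : ℝ := if a ∈ J then 0 else f (insert a J)

/-- the function of the link of `R` -/
def hR (h : Finset X → ℝ) (R M : Finset X) : ℝ := if Disjoint R M then h (R ∪ M) else 0

lemma fa_sum (f : Finset X → ℝ) (u : ℕ) :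
    ∑ a, n2 u (fa f a) = ((u : ℝ) + 1) * n2 (u + 1) f := by
  unfold n2
  rw [peel' u (fun J => f J ^ 2)]
  refine Finset.sum_congr rfl fun a _ => Finset.sum_congr rfl fun J _ => ?_
  unfold fa
  by_cases h : a ∈ J
  · rw [if_pos h, if_pos h]
    ring
  · rw [if_neg h, if_neg h]

lemma hR_sum (h : Finset X → ℝ) (w r : ℕ) (hr : r ≤ w) :
    ∑ R ∈ powersetCard r univ, n2 (w - r) (hR h R) ≤ 2 ^ w * n2 w h := by
  have h1 := split w r hr (fun R M => h (R ∪ M) ^ 2)
  have h2 : ∑ R ∈ powersetCard r univ, n2 (w - r) (hR h R) =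
      ∑ R ∈ powersetCard r univ, ∑ M ∈ powersetCard (w - r) univ,
        if Disjoint R M then h (R ∪ M) ^ 2 else 0 := by
    refine Finset.sum_congr rfl fun R _ => Finset.sum_congr rfl fun M _ => ?_
    unfold hR
    by_cases hd : Disjoint R M
    · rw [if_pos hd, if_pos hd]
    · rw [if_neg hd, if_neg hd]
      ring
  rw [h2, ← h1]
  unfold n2
  rw [Finset.mul_sum]
  refine Finset.sum_le_sum fun L hL => ?_
  have hc := (Finset.mem_powersetCard.1 hL).2
  calc ∑ R ∈ powersetCard r L, h (R ∪ L \ R) ^ 2 = ∑ _R ∈ powersetCard r L, h L ^ 2 := by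
        refine Finset.sum_congr rfl fun R hR => ?_
        rw [Finset.union_sdiff_of_subset (Finset.mem_powersetCard.1 hR).1]
    _ = (w.choose r : ℝ) * h L ^ 2 := by
        rw [Finset.sum_const, Finset.card_powersetCard, hc, nsmul_eq_mul]
    _ ≤ 2 ^ w * h L ^ 2 := by
        refine mul_le_mul_of_nonneg_right ?_ (sq_nonneg _)
        have := Nat.choose_le_two_pow w r
        exact_mod_cast this

/-- the first part of the recursion -/
lemma partB (hk : KK g K Λ σ) (u w r : ℕ) (hr : r ≤ w) (N : ℝ) (hN0 : 0 ≤ N)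
    (hN : BB g u (w - r) N) (f h : Finset X → ℝ) :
    |∑ a, ∑ R ∈ powersetCard r univ, pe g a R * ∑ J ∈ powersetCard u univ,
      ∑ M ∈ powersetCard (w - r) univ, fa f a J * (hR h R M * (pg g a M - 1)) * CC g J M| ≤
    N * (K ^ w * (w - r : ℕ) * σ ^ (r + 1)) * (√((u : ℝ) + 1) * √(n2 (u + 1) f)) *
      (2 ^ w * √(n2 w h)) := by
  have hK0 : 0 ≤ K := by linarith [hk.K1]
  have hσ := hk.hσ
  obtain ⟨A, hA⟩ : ∃ A : X → ℝ, A = fun a => n2 u (fa f a) := ⟨_, rfl⟩
  obtain ⟨B, hB⟩ : ∃ B : X → Finset X → ℝ,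
      B = fun a R => n2 (w - r) (fun M => hR h R M * (pg g a M - 1)) := ⟨_, rfl⟩
  have hA0 : ∀ a, 0 ≤ A a := fun a => by rw [hA]; exact n2_nonneg _ _
  have hB0 : ∀ a R, 0 ≤ B a R := fun a R => by rw [hB]; exact n2_nonneg _ _
  have h1 : |∑ a, ∑ R ∈ powersetCard r univ, pe g a R * ∑ J ∈ powersetCard u univ,
      ∑ M ∈ powersetCard (w - r) univ, fa f a J * (hR h R M * (pg g a M - 1)) * CC g J M| ≤
      N * ∑ a, ∑ R ∈ powersetCard r univ, √(pe g a R ^ 2 * A a) * √(B a R) := by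
    refine (Finset.abs_sum_le_sum_abs _ _).trans ?_
    rw [Finset.mul_sum]
    refine Finset.sum_le_sum fun a _ => ?_
    refine (Finset.abs_sum_le_sum_abs _ _).trans ?_
    rw [Finset.mul_sum]
    refine Finset.sum_le_sum fun R _ => ?_
    rw [abs_mul]
    have e1 := hN (fa f a) (fun M => hR h R M * (pg g a M - 1))
    have e2 : √(pe g a R ^ 2 * A a) = |pe g a R| * √(A a) := by
      rw [Real.sqrt_mul (sq_nonneg _), Real.sqrt_sq_eq_abs]
    rw [e2, hA, hB]
    calc |pe g a R| * |∑ J ∈ powersetCard u univ,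
          ∑ M ∈ powersetCard (w - r) univ, fa f a J * (hR h R M * (pg g a M - 1)) * CC g J M|
        ≤ |pe g a R| * (N * (√(n2 u (fa f a)) *
          √(n2 (w - r) fun M => hR h R M * (pg g a M - 1)))) :=
          mul_le_mul_of_nonneg_left e1 (abs_nonneg _)
      _ = _ := by ring
  have h2 : ∑ a, ∑ R ∈ powersetCard r univ, √(pe g a R ^ 2 * A a) * √(B a R) ≤
      √(∑ a, ∑ R ∈ powersetCard r univ, pe g a R ^ 2 * A a) *
        √(∑ a, ∑ R ∈ powersetCard r univ, B a R) := by
    rw [← Finset.sum_product', ← Finset.sum_product', ← Finset.sum_product']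
    exact Real.sum_sqrt_mul_sqrt_le _ (fun p => mul_nonneg (sq_nonneg _) (hA0 _))
      (fun p => hB0 _ _)
  have h3 : ∑ a, ∑ R ∈ powersetCard r univ, pe g a R ^ 2 * A a ≤
      (σ ^ r) ^ 2 * (((u : ℝ) + 1) * n2 (u + 1) f) := by
    rw [← fa_sum, Finset.mul_sum]
    refine Finset.sum_le_sum fun a _ => ?_
    rw [← Finset.sum_mul, hA]
    exact mul_le_mul_of_nonneg_right (pe_row hk a r) (n2_nonneg _ _)
  have h4 : ∑ a, ∑ R ∈ powersetCard r univ, B a R ≤
      (K ^ w * (w - r : ℕ) * σ) ^ 2 * ((2 ^ w) ^ 2 * n2 w h) := by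
    rw [Finset.sum_comm]
    have e1 : ∀ R ∈ powersetCard r (univ : Finset X), ∑ a, B a R ≤
        (K ^ w * (w - r : ℕ) * σ) ^ 2 * n2 (w - r) (hR h R) := by
      intro R _
      rw [hB]
      unfold n2
      rw [Finset.sum_comm, Finset.mul_sum]
      refine Finset.sum_le_sum fun M hM => ?_
      have hc := (Finset.mem_powersetCard.1 hM).2
      simp_rw [mul_pow]
      rw [← Finset.mul_sum, mul_comm (hR h R M ^ 2)]
      refine mul_le_mul_of_nonneg_right ?_ (sq_nonneg _)
      refine (pg_col hk M).trans ?_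
      rw [hc, ← mul_pow, ← mul_pow]
      refine pow_le_pow_left₀ (by positivity) ?_ 2
      refine mul_le_mul_of_nonneg_right (mul_le_mul_of_nonneg_right ?_ (Nat.cast_nonneg _)) hσ
      exact pow_le_pow_right₀ hk.K1 (Nat.sub_le w r)
    refine (Finset.sum_le_sum e1).trans ?_
    rw [← Finset.mul_sum]
    refine mul_le_mul_of_nonneg_left ?_ (sq_nonneg _)
    refine (hR_sum h w r hr).trans ?_
    refine mul_le_mul_of_nonneg_right ?_ (n2_nonneg _ _)
    have : (1 : ℝ) ≤ 2 ^ w := one_le_pow₀ (by norm_num)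
    nlinarith
  have h5 : √(∑ a, ∑ R ∈ powersetCard r univ, pe g a R ^ 2 * A a) ≤
      σ ^ r * (√((u : ℝ) + 1) * √(n2 (u + 1) f)) := by
    refine (Real.sqrt_le_sqrt h3).trans ?_
    rw [Real.sqrt_mul (sq_nonneg _), Real.sqrt_sq (pow_nonneg hσ _),
      Real.sqrt_mul (by positivity)]
  have h6 : √(∑ a, ∑ R ∈ powersetCard r univ, B a R) ≤
      (K ^ w * (w - r : ℕ) * σ) * (2 ^ w * √(n2 w h)) := by
    refine (Real.sqrt_le_sqrt h4).trans ?_
    rw [Real.sqrt_mul (sq_nonneg _), Real.sqrt_sq (by positivity),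
      Real.sqrt_mul (sq_nonneg _), Real.sqrt_sq (by positivity)]
  have h7 := mul_le_mul h5 h6 (Real.sqrt_nonneg _) (by positivity)
  calc _ ≤ N * ∑ a, ∑ R ∈ powersetCard r univ, √(pe g a R ^ 2 * A a) * √(B a R) := h1
    _ ≤ N * (σ ^ r * (√((u : ℝ) + 1) * √(n2 (u + 1) f)) *
        ((K ^ w * (w - r : ℕ) * σ) * (2 ^ w * √(n2 w h)))) :=
        mul_le_mul_of_nonneg_left (h2.trans h7) hN0
    _ = _ := by ring

/-- the second part of the recursion -/
lemma partA (hk : KK g K Λ σ) (u w r : ℕ) (hr : r + 1 ≤ w) (N : ℝ) (hN0 : 0 ≤ N)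
    (hN : BB g u (w - (r + 1)) N) (f h : Finset X → ℝ) :
    |∑ a, ∑ R ∈ powersetCard (r + 1) univ, pe g a R * ∑ J ∈ powersetCard u univ,
      ∑ M ∈ powersetCard (w - (r + 1)) univ, fa f a J * hR h R M * CC g J M| ≤
    N * (Λ * σ ^ r) * (√((u : ℝ) + 1) * √(n2 (u + 1) f)) * (2 ^ w * √(n2 w h)) := by
  have hσ := hk.hσ
  have hΛ := hk.hΛ
  obtain ⟨F, hF⟩ : ∃ F : Finset X → X → Finset X → ℝ, F = fun R a J => pe g a R * fa f a J :=
    ⟨_, rfl⟩
  obtain ⟨H, hH⟩ : ∃ H : Finset X → X → Finset X → ℝ,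
      H = fun R c M => if c ∈ R then 0 else hR h (insert c R) M := ⟨_, rfl⟩
  obtain ⟨Φ, hΦ⟩ : ∃ Φ : Finset X → ℝ, Φ = fun R => ∑ a, pe g a R * ∑ J ∈ powersetCard u univ,
      ∑ M ∈ powersetCard (w - (r + 1)) univ, fa f a J * hR h R M * CC g J M := ⟨_, rfl⟩
  have h0 : ∑ a, ∑ R ∈ powersetCard (r + 1) univ, pe g a R * ∑ J ∈ powersetCard u univ,
      ∑ M ∈ powersetCard (w - (r + 1)) univ, fa f a J * hR h R M * CC g J M =
      ∑ R ∈ powersetCard (r + 1) univ, Φ R := by
    rw [Finset.sum_comm, hΦ]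
  have h1 : ((r : ℝ) + 1) * ∑ R ∈ powersetCard (r + 1) univ, Φ R =
      ∑ R ∈ powersetCard r univ, ∑ a, ∑ c, (g a c - 1) * ∑ J ∈ powersetCard u univ,
      ∑ M ∈ powersetCard (w - (r + 1)) univ, F R a J * H R c M * CC g J M := by
    rw [peel' r Φ, Finset.sum_comm]
    refine Finset.sum_congr rfl fun R _ => ?_
    rw [Finset.sum_comm (s := (univ : Finset X))]
    refine Finset.sum_congr rfl fun c _ => ?_
    by_cases hc : c ∈ R
    · rw [if_pos hc]
      symm
      refine Finset.sum_eq_zero fun a _ => ?_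
      have : ∀ J M : Finset X, F R a J * H R c M * CC g J M = 0 := by
        intro J M
        rw [hH]
        simp only
        rw [if_pos hc]
        ring
      simp [this]
    · rw [if_neg hc, hΦ]
      refine Finset.sum_congr rfl fun a _ => ?_
      have e1 : pe g a (insert c R) = (g a c - 1) * pe g a R := by
        unfold pe
        rw [Finset.prod_insert hc]
      rw [e1, mul_assoc]
      congr 1
      rw [Finset.mul_sum]
      refine Finset.sum_congr rfl fun J _ => ?_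
      rw [Finset.mul_sum]
      refine Finset.sum_congr rfl fun M _ => ?_
      rw [hF, hH]
      simp only
      rw [if_neg hc]
      ring
  have h2 : ∀ R ∈ powersetCard r (univ : Finset X),
      |∑ a, ∑ c, (g a c - 1) * ∑ J ∈ powersetCard u univ,
      ∑ M ∈ powersetCard (w - (r + 1)) univ, F R a J * H R c M * CC g J M| ≤
      Λ * N * (√(∑ a, ∑ J ∈ powersetCard u univ, F R a J ^ 2) *
        √(∑ c, ∑ M ∈ powersetCard (w - (r + 1)) univ, H R c M ^ 2)) := by
    intro R _
    exact spec_vec hΛ hk.spec (powersetCard u univ) (powersetCard (w - (r + 1)) univ)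
      (fun J M => CC g J M) N hN0 hN (F R) (H R)
  have h3 : ∑ R ∈ powersetCard r univ, ∑ a, ∑ J ∈ powersetCard u univ, F R a J ^ 2 ≤
      (σ ^ r) ^ 2 * (((u : ℝ) + 1) * n2 (u + 1) f) := by
    rw [← fa_sum, Finset.mul_sum, Finset.sum_comm]
    refine Finset.sum_le_sum fun a _ => ?_
    have e1 : ∑ R ∈ powersetCard r univ, ∑ J ∈ powersetCard u univ, F R a J ^ 2 =
        (∑ R ∈ powersetCard r univ, pe g a R ^ 2) * n2 u (fa f a) := by
      unfold n2
      rw [Finset.sum_mul_sum]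
      refine Finset.sum_congr rfl fun R _ => Finset.sum_congr rfl fun J _ => ?_
      rw [hF]
      ring
    rw [e1]
    exact mul_le_mul_of_nonneg_right (pe_row hk a r) (n2_nonneg _ _)
  have h4 : ∑ R ∈ powersetCard r univ, ∑ c, ∑ M ∈ powersetCard (w - (r + 1)) univ, H R c M ^ 2 ≤
      ((r : ℝ) + 1) * (2 ^ w * n2 w h) := by
    have e1 := peel' r (fun R : Finset X => n2 (w - (r + 1)) (hR h R))
    have e2 : ∑ R ∈ powersetCard r univ, ∑ c, ∑ M ∈ powersetCard (w - (r + 1)) univ,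
        H R c M ^ 2 = ∑ a, ∑ J ∈ powersetCard r univ,
          if a ∈ J then 0 else n2 (w - (r + 1)) (hR h (insert a J)) := by
      rw [Finset.sum_comm]
      refine Finset.sum_congr rfl fun c _ => Finset.sum_congr rfl fun R _ => ?_
      rw [hH]
      by_cases hc : c ∈ R
      · simp [hc]
      · simp only [hc, if_false]
        rfl
    rw [e2, ← e1]
    exact mul_le_mul_of_nonneg_left (hR_sum h w (r + 1) hr) (by positivity)
  have h5 : ((r : ℝ) + 1) * |∑ R ∈ powersetCard (r + 1) univ, Φ R| ≤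
      Λ * N * (σ ^ r * (√((u : ℝ) + 1) * √(n2 (u + 1) f)) *
        (√((r : ℝ) + 1) * (√(2 ^ w) * √(n2 w h)))) := by
    have e1 : ((r : ℝ) + 1) * |∑ R ∈ powersetCard (r + 1) univ, Φ R| =
        |((r : ℝ) + 1) * ∑ R ∈ powersetCard (r + 1) univ, Φ R| := by
      rw [abs_mul, abs_of_nonneg (by positivity : (0 : ℝ) ≤ (r : ℝ) + 1)]
    rw [e1, h1]
    refine (Finset.abs_sum_le_sum_abs _ _).trans ((Finset.sum_le_sum h2).trans ?_)
    rw [← Finset.mul_sum]
    refine mul_le_mul_of_nonneg_left ?_ (mul_nonneg hΛ hN0)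
    refine (Real.sum_sqrt_mul_sqrt_le _
      (fun R => Finset.sum_nonneg fun a _ => Finset.sum_nonneg fun J _ => sq_nonneg _)
      (fun R => Finset.sum_nonneg fun a _ => Finset.sum_nonneg fun J _ => sq_nonneg _)).trans ?_
    refine mul_le_mul ?_ ?_ (Real.sqrt_nonneg _) (by positivity)
    · refine (Real.sqrt_le_sqrt h3).trans ?_
      rw [Real.sqrt_mul (sq_nonneg _), Real.sqrt_sq (pow_nonneg hσ _),
        Real.sqrt_mul (by positivity)]
    · refine (Real.sqrt_le_sqrt h4).trans ?_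
      rw [Real.sqrt_mul (by positivity), Real.sqrt_mul (by positivity)]
  have h6 : √((r : ℝ) + 1) ≤ (r : ℝ) + 1 := by
    rw [Real.sqrt_le_left (by positivity)]
    have : (0 : ℝ) ≤ r := Nat.cast_nonneg r
    nlinarith
  have h7 : √((2 : ℝ) ^ w) ≤ 2 ^ w := by
    rw [Real.sqrt_le_left (by positivity)]
    have : (1 : ℝ) ≤ 2 ^ w := one_le_pow₀ (by norm_num)
    nlinarith
  rw [h0]
  have h8 : Λ * N * (σ ^ r * (√((u : ℝ) + 1) * √(n2 (u + 1) f)) *
        (√((r : ℝ) + 1) * (√(2 ^ w) * √(n2 w h)))) ≤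
      ((r : ℝ) + 1) * (N * (Λ * σ ^ r) * (√((u : ℝ) + 1) * √(n2 (u + 1) f)) *
        (2 ^ w * √(n2 w h))) := by
    calc Λ * N * (σ ^ r * (√((u : ℝ) + 1) * √(n2 (u + 1) f)) *
        (√((r : ℝ) + 1) * (√(2 ^ w) * √(n2 w h))))
        ≤ Λ * N * (σ ^ r * (√((u : ℝ) + 1) * √(n2 (u + 1) f)) *
        (((r : ℝ) + 1) * (2 ^ w * √(n2 w h)))) := by
          refine mul_le_mul_of_nonneg_left ?_ (mul_nonneg hΛ hN0)
          refine mul_le_mul_of_nonneg_left ?_ (by positivity)
          refine mul_le_mul h6 ?_ (by positivity) (by positivity)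
          exact mul_le_mul_of_nonneg_right h7 (Real.sqrt_nonneg _)
      _ = _ := by ring
  have h9 : (0 : ℝ) < (r : ℝ) + 1 := by positivity
  exact le_of_mul_le_mul_left (h5.trans h8) h9

/-- the bound of the induction -/
noncomputable def NB (K Λ σ : ℝ) (w : ℕ) (N : ℕ → ℝ) : ℝ :=
  2 ^ w * ∑ r ∈ range (w + 1), (N (w - r) * (K ^ w * (w - r : ℕ) * σ ^ (r + 1)) +
    if r = 0 then 0 else N (w - r) * (Λ * σ ^ (r - 1)))

/-- the recursion, for the forms -/
lemma form_rec (u w : ℕ) (f h : Finset X → ℝ) :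
    ((u : ℝ) + 1) * ∑ J ∈ powersetCard (u + 1) univ, ∑ L ∈ powersetCard w univ,
      f J * h L * CC g J L =
    ∑ r ∈ range (w + 1), (∑ a, ∑ R ∈ powersetCard r univ, pe g a R * ∑ J ∈ powersetCard u univ,
      ∑ M ∈ powersetCard (w - r) univ, fa f a J * (hR h R M * (pg g a M - 1)) * CC g J M +
    if r = 0 then 0 else ∑ a, ∑ R ∈ powersetCard r univ, pe g a R * ∑ J ∈ powersetCard u univ,
      ∑ M ∈ powersetCard (w - r) univ, fa f a J * hR h R M * CC g J M) := by
  rw [peel' u (fun J => ∑ L ∈ powersetCard w univ, f J * h L * CC g J L)]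
  have h1 : ∀ (a : X) (J : Finset X), (if a ∈ J then 0 else
      ∑ L ∈ powersetCard w univ, f (insert a J) * h L * CC g (insert a J) L) =
      ∑ r ∈ range (w + 1), ∑ R ∈ powersetCard r univ, ∑ M ∈ powersetCard (w - r) univ,
        fa f a J * hR h R M * pe g a R * (pg g a M - if r = 0 then 1 else 0) * CC g J M := by
    intro a J
    by_cases ha : a ∈ J
    · rw [if_pos ha]
      symm
      refine Finset.sum_eq_zero fun r _ => Finset.sum_eq_zero fun R _ =>
        Finset.sum_eq_zero fun M _ => ?_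
      unfold fa
      rw [if_pos ha]
      ring
    · rw [if_neg ha]
      have e1 : ∀ L ∈ powersetCard w (univ : Finset X), f (insert a J) * h L *
          CC g (insert a J) L = ∑ r ∈ range (w + 1), ∑ R ∈ powersetCard r L,
          fa f a J * h (R ∪ L \ R) * pe g a R * (pg g a (L \ R) - if r = 0 then 1 else 0) *
            CC g J (L \ R) := by
        intro L hL
        have hc := (Finset.mem_powersetCard.1 hL).2
        have e2 : CC g J L = ∑ R ∈ L.powerset, (if R = ∅ then 1 else 0) * pe g a R *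
            CC g J (L \ R) := by
          rw [Finset.sum_eq_single_of_mem ∅ (Finset.empty_mem_powerset L)]
          · simp [pe]
          · intro R _ hR
            rw [if_neg hR]
            ring
        have e3 : CC g (insert a J) L = ∑ R ∈ L.powerset, pe g a R *
            (pg g a (L \ R) - if R = ∅ then 1 else 0) * CC g J (L \ R) := by
          rw [CC_insert g ha]
          conv_lhs => rw [e2]
          rw [← Finset.sum_sub_distrib]
          refine Finset.sum_congr rfl fun R _ => ?_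
          unfold pe pg
          ring
        rw [e3, Finset.sum_powerset, hc, Finset.mul_sum]
        refine Finset.sum_congr rfl fun r _ => ?_
        rw [Finset.mul_sum]
        refine Finset.sum_congr rfl fun R hR => ?_
        obtain ⟨h5, h6⟩ := Finset.mem_powersetCard.1 hR
        have e4 : (R = ∅) ↔ (r = 0) := by
          rw [← Finset.card_eq_zero, h6]
        rw [Finset.union_sdiff_of_subset h5]
        unfold fa
        rw [if_neg ha]
        simp only [e4]
        ring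
      rw [Finset.sum_congr rfl e1, Finset.sum_comm]
      refine Finset.sum_congr rfl fun r hr => ?_
      have hr' : r ≤ w := by
        have := Finset.mem_range.1 hr
        omega
      rw [split w r hr' (fun R M => fa f a J * h (R ∪ M) * pe g a R *
        (pg g a M - if r = 0 then 1 else 0) * CC g J M)]
      refine Finset.sum_congr rfl fun R _ => Finset.sum_congr rfl fun M _ => ?_
      unfold hR
      by_cases hd : Disjoint R M
      · rw [if_pos hd, if_pos hd]
      · rw [if_neg hd, if_neg hd]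
        ring
  rw [Finset.sum_congr rfl fun a _ => Finset.sum_congr rfl fun J _ => h1 a J]
  have h2 : ∀ a : X, ∑ J ∈ powersetCard u univ, ∑ r ∈ range (w + 1),
      ∑ R ∈ powersetCard r univ, ∑ M ∈ powersetCard (w - r) univ,
        fa f a J * hR h R M * pe g a R * (pg g a M - if r = 0 then 1 else 0) * CC g J M =
      ∑ r ∈ range (w + 1), ∑ R ∈ powersetCard r univ, pe g a R * ∑ J ∈ powersetCard u univ,
        ∑ M ∈ powersetCard (w - r) univ,
          fa f a J * hR h R M * (pg g a M - if r = 0 then 1 else 0) * CC g J M := by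
    intro a
    rw [Finset.sum_comm]
    refine Finset.sum_congr rfl fun r _ => ?_
    rw [Finset.sum_comm]
    refine Finset.sum_congr rfl fun R _ => ?_
    rw [Finset.mul_sum]
    refine Finset.sum_congr rfl fun J _ => ?_
    rw [Finset.mul_sum]
    refine Finset.sum_congr rfl fun M _ => ?_
    ring
  rw [Finset.sum_congr rfl fun a _ => h2 a, Finset.sum_comm]
  refine Finset.sum_congr rfl fun r _ => ?_
  by_cases hr : r = 0
  · simp only [hr, if_true, add_zero]
    refine Finset.sum_congr rfl fun a _ => Finset.sum_congr rfl fun R _ => ?_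
    congr 1
    refine Finset.sum_congr rfl fun J _ => Finset.sum_congr rfl fun M _ => ?_
    ring
  · simp only [hr, if_false, sub_zero]
    rw [← Finset.sum_add_distrib]
    refine Finset.sum_congr rfl fun a _ => ?_
    rw [← Finset.sum_add_distrib]
    refine Finset.sum_congr rfl fun R _ => ?_
    rw [← mul_add]
    congr 1
    rw [← Finset.sum_add_distrib]
    refine Finset.sum_congr rfl fun J _ => ?_
    rw [← Finset.sum_add_distrib]
    refine Finset.sum_congr rfl fun M _ => ?_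
    ring

/-- the step of the induction -/
theorem step (hk : KK g K Λ σ) (u w : ℕ) (N : ℕ → ℝ) (hN0 : ∀ r, 0 ≤ N r)
    (hN : ∀ w' ≤ w, BB g u w' (N w')) : BB g (u + 1) w (NB K Λ σ w N) := by
  have hK0 : 0 ≤ K := by linarith [hk.K1]
  have hσ := hk.hσ
  have hΛ := hk.hΛ
  intro f h
  have hu : (0 : ℝ) < (u : ℝ) + 1 := by positivity
  have h1 := form_rec (g := g) u w f h
  obtain ⟨S, hS⟩ : ∃ S : ℝ, S = ∑ J ∈ powersetCard (u + 1) univ, ∑ L ∈ powersetCard w univ,
      f J * h L * CC g J L := ⟨_, rfl⟩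
  rw [← hS] at h1 ⊢
  have h2 : ((u : ℝ) + 1) * |S| ≤ NB K Λ σ w N *
      ((√((u : ℝ) + 1) * √(n2 (u + 1) f)) * √(n2 w h)) := by
    have e1 : ((u : ℝ) + 1) * |S| = |((u : ℝ) + 1) * S| := by
      rw [abs_mul, abs_of_pos hu]
    rw [e1, h1]
    refine (Finset.abs_sum_le_sum_abs _ _).trans ?_
    unfold NB
    rw [mul_assoc, Finset.sum_mul, Finset.mul_sum]
    refine Finset.sum_le_sum fun r hr => ?_
    have hr' : r ≤ w := by
      have := Finset.mem_range.1 hr
      omega
    have e2 := partB hk u w r hr' (N (w - r)) (hN0 _) (hN _ (Nat.sub_le w r)) f h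
    by_cases hr0 : r = 0
    · rw [if_pos hr0, if_pos hr0, add_zero, add_zero]
      refine e2.trans (le_of_eq ?_)
      ring
    · rw [if_neg hr0, if_neg hr0]
      obtain ⟨q, rfl⟩ : ∃ q, r = q + 1 := ⟨r - 1, by omega⟩
      have e3 := partA hk u w q hr' (N (w - (q + 1))) (hN0 _) (hN _ (Nat.sub_le w _)) f h
      refine (abs_add_le _ _).trans ((add_le_add e2 e3).trans (le_of_eq ?_))
      rw [Nat.add_sub_cancel]
      ring
  have h3 : √((u : ℝ) + 1) ≤ (u : ℝ) + 1 := by
    rw [Real.sqrt_le_left hu.le]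
    have : (0 : ℝ) ≤ u := Nat.cast_nonneg u
    nlinarith
  have hNB : 0 ≤ NB K Λ σ w N := by
    unfold NB
    refine mul_nonneg (by positivity) (Finset.sum_nonneg fun r _ => ?_)
    refine add_nonneg (mul_nonneg (hN0 _) (by positivity)) ?_
    by_cases hr0 : r = 0
    · rw [if_pos hr0]
    · rw [if_neg hr0]
      exact mul_nonneg (hN0 _) (by positivity)
  have h4 : NB K Λ σ w N * ((√((u : ℝ) + 1) * √(n2 (u + 1) f)) * √(n2 w h)) ≤
      ((u : ℝ) + 1) * (NB K Λ σ w N * (√(n2 (u + 1) f) * √(n2 w h))) := by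
    calc NB K Λ σ w N * ((√((u : ℝ) + 1) * √(n2 (u + 1) f)) * √(n2 w h))
        ≤ NB K Λ σ w N * ((((u : ℝ) + 1) * √(n2 (u + 1) f)) * √(n2 w h)) := by
          refine mul_le_mul_of_nonneg_left ?_ hNB
          exact mul_le_mul_of_nonneg_right (mul_le_mul_of_nonneg_right h3 (Real.sqrt_nonneg _))
            (Real.sqrt_nonneg _)
      _ = _ := by ring
  exact le_of_mul_le_mul_left (h2.trans h4) hu

end

end Pool.Agent.Y570.LS
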