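import Mathlib
import Pool.Agent.Y570.LS.Step

/-!
Y570/LS (helper570, MP_0430e4_lc): the norms of the alternating sums.
-/

set_option autoImplicit false
set_option linter.unusedSectionVars false

namespace Pool.Agent.Y570.LS

open Finset

section

variable {X : Type} [Fintype X] [DecidableEq X] {g : X → X → ℝ} {K Λ σ : ℝ}

lemma BB.mono {u w : ℕ} {N N' : ℝ} (h : BB g u w N) (hN : N ≤ N') : BB g u w N' :=
  fun f k => (h f k).trans (mul_le_mul_of_nonneg_right hN
    (mul_nonneg (Real.sqrt_nonneg _) (Real.sqrt_nonneg _)))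

lemma BB_zero (g : X → X → ℝ) : BB g 0 0 1 := by
  intro f h
  unfold n2
  rw [Finset.powersetCard_zero, Finset.sum_singleton, Finset.sum_singleton, Finset.sum_singleton,
    Finset.sum_singleton, CC_empty_left, if_pos rfl, mul_one, one_mul, Real.sqrt_sq_eq_abs,
    Real.sqrt_sq_eq_abs, abs_mul]

lemma BB_left (g : X → X → ℝ) {w : ℕ} (hw : 1 ≤ w) : BB g 0 w 0 := by
  intro f h
  rw [zero_mul, Finset.powersetCard_zero, Finset.sum_singleton]
  refine le_of_eq ?_
  rw [Finset.sum_eq_zero, abs_zero]
  intro L hL
  have hc := (Finset.mem_powersetCard.1 hL).2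
  have : L ≠ ∅ := by
    intro h0
    rw [h0, Finset.card_empty] at hc
    omega
  rw [CC_empty_left, if_neg this, mul_zero]

lemma BB_right (g : X → X → ℝ) {u : ℕ} (hu : 1 ≤ u) : BB g u 0 0 := by
  intro f h
  rw [zero_mul]
  refine le_of_eq ?_
  rw [Finset.sum_eq_zero, abs_zero]
  intro J hJ
  rw [Finset.powersetCard_zero, Finset.sum_singleton]
  have hc := (Finset.mem_powersetCard.1 hJ).2
  have : J ≠ ∅ := by
    intro h0
    rw [h0, Finset.card_empty] at hc
    omega
  rw [CC_empty_right, if_neg this, mul_zero]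

/-- the constant of a step -/
noncomputable def cc (K : ℝ) (t : ℕ) : ℝ := 2 ^ t * ((t + 1) * (K ^ t * t + 1))

lemma cc_pos (hK : 1 ≤ K) (t : ℕ) : 1 ≤ cc K t := by
  unfold cc
  have h1 : (1 : ℝ) ≤ 2 ^ t := one_le_pow₀ (by norm_num)
  have h2 : (0 : ℝ) ≤ t := Nat.cast_nonneg t
  have h3 : (0 : ℝ) ≤ K ^ t * t := by positivity
  have h4 : (1 : ℝ) ≤ (t + 1) * (K ^ t * t + 1) := by nlinarith
  nlinarith

/-- the bounds -/
noncomputable def Nuw (K Λ σ : ℝ) (t u w : ℕ) : ℝ :=
  if w = 0 then 0 else cc K t ^ u * Λ * σ ^ ((u - 1) + (w - 1))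

theorem BB_all (hk : KK g K Λ σ) (hs : Λ ≤ σ ^ 2) (t u : ℕ) :
    ∀ w ≤ t, BB g (u + 1) w (Nuw K Λ σ t (u + 1) w) := by
  have hK := hk.K1
  have hK0 : 0 ≤ K := by linarith
  have hσ := hk.hσ
  have hΛ := hk.hΛ
  have hc := cc_pos hK t
  have hc0 : 0 < cc K t := by linarith
  induction u with
  | zero =>
    intro w hw
    rcases Nat.eq_zero_or_pos w with h0 | h0
    · subst h0
      unfold Nuw
      rw [if_pos rfl]
      exact BB_right g le_rfl
    · have h1 := step hk 0 w (fun r => if r = 0 then 1 else 0)
        (fun r => by split_ifs <;> norm_num) (fun w' _ => by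
          by_cases h2 : w' = 0
          · rw [if_pos h2, h2]
            exact BB_zero g
          · rw [if_neg h2]
            exact BB_left g (Nat.pos_of_ne_zero h2))
      refine h1.mono ?_
      unfold NB Nuw
      rw [if_neg h0.ne', Finset.sum_eq_single_of_mem w (Finset.mem_range.2 (Nat.lt_succ_self w))]
      · beta_reduce
        rw [Nat.sub_self, if_pos rfl, if_neg h0.ne']
        have e1 : (2 : ℝ) ^ w ≤ cc K t := by
          unfold cc
          have e2 : (2 : ℝ) ^ w ≤ 2 ^ t := pow_le_pow_right₀ (by norm_num) hw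
          have h2 : (0 : ℝ) ≤ t := Nat.cast_nonneg t
          have h3 : (0 : ℝ) ≤ K ^ t * t := by positivity
          have h4 : (1 : ℝ) ≤ (t + 1) * (K ^ t * t + 1) := by nlinarith
          have h5 : (0 : ℝ) < 2 ^ t := by positivity
          nlinarith
        have e3 : 0 ≤ Λ * σ ^ (w - 1) := by positivity
        calc 2 ^ w * (1 * (K ^ w * ((0 : ℕ) : ℝ) * σ ^ (w + 1)) + 1 * (Λ * σ ^ (w - 1)))
            = 2 ^ w * (Λ * σ ^ (w - 1)) := by
              push_cast
              ring
          _ ≤ cc K t * (Λ * σ ^ (w - 1)) := mul_le_mul_of_nonneg_right e1 e3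
          _ = _ := by
              rw [zero_add, pow_one, Nat.sub_self, zero_add]
              ring
      · intro r hr hrw
        have := Finset.mem_range.1 hr
        have h3 : w - r ≠ 0 := by omega
        beta_reduce
        rw [if_neg h3]
        simp
  | succ u ih =>
    intro w hw
    rcases Nat.eq_zero_or_pos w with h0 | h0
    · subst h0
      unfold Nuw
      rw [if_pos rfl]
      exact BB_right g (by omega)
    · have h1 := step hk (u + 1) w (fun r => Nuw K Λ σ t (u + 1) r)
        (fun r => by
          unfold Nuw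
          split_ifs
          · exact le_rfl
          · positivity) (fun w' hw' => ih w' (hw'.trans hw))
      refine h1.mono ?_
      have e1 : ∀ r ∈ range (w + 1), (Nuw K Λ σ t (u + 1) (w - r) *
          (K ^ w * (w - r : ℕ) * σ ^ (r + 1)) +
          if r = 0 then 0 else Nuw K Λ σ t (u + 1) (w - r) * (Λ * σ ^ (r - 1))) ≤
          cc K t ^ (u + 1) * Λ * σ ^ ((u + 1) + (w - 1)) * (K ^ t * t + 1) := by
        intro r hr
        have hr' := Finset.mem_range.1 hr
        have hP : 0 ≤ cc K t ^ (u + 1) * Λ * σ ^ ((u + 1) + (w - 1)) := by positivity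
        by_cases h2 : w - r = 0
        · rw [h2]
          unfold Nuw
          rw [if_pos rfl, zero_mul, zero_add, zero_mul, ite_self]
          positivity
        · have hN : Nuw K Λ σ t (u + 1) (w - r) = cc K t ^ (u + 1) * Λ *
              σ ^ ((u + 1 - 1) + (w - r - 1)) := by
            unfold Nuw
            rw [if_neg h2]
          have hN0 : 0 ≤ Nuw K Λ σ t (u + 1) (w - r) := by
            rw [hN]
            positivity
          have e2 : Nuw K Λ σ t (u + 1) (w - r) * σ ^ (r + 1) =
              cc K t ^ (u + 1) * Λ * σ ^ ((u + 1) + (w - 1)) := by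
            rw [hN, mul_assoc, ← pow_add]
            congr 2
            omega
          have e3 : Nuw K Λ σ t (u + 1) (w - r) * (K ^ w * (w - r : ℕ) * σ ^ (r + 1)) ≤
              cc K t ^ (u + 1) * Λ * σ ^ ((u + 1) + (w - 1)) * (K ^ t * t) := by
            calc Nuw K Λ σ t (u + 1) (w - r) * (K ^ w * (w - r : ℕ) * σ ^ (r + 1))
                = (Nuw K Λ σ t (u + 1) (w - r) * σ ^ (r + 1)) * (K ^ w * (w - r : ℕ)) := by ring
              _ = cc K t ^ (u + 1) * Λ * σ ^ ((u + 1) + (w - 1)) * (K ^ w * (w - r : ℕ)) := by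
                  rw [e2]
              _ ≤ _ := by
                  refine mul_le_mul_of_nonneg_left ?_ hP
                  refine mul_le_mul (pow_le_pow_right₀ hK hw) ?_ (Nat.cast_nonneg _)
                    (by positivity)
                  have : w - r ≤ t := by omega
                  exact_mod_cast this
          have e4 : (if r = 0 then 0 else Nuw K Λ σ t (u + 1) (w - r) * (Λ * σ ^ (r - 1))) ≤
              cc K t ^ (u + 1) * Λ * σ ^ ((u + 1) + (w - 1)) := by
            by_cases h3 : r = 0
            · rw [if_pos h3]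
              exact hP
            · rw [if_neg h3, ← e2]
              refine mul_le_mul_of_nonneg_left ?_ hN0
              obtain ⟨q, rfl⟩ : ∃ q, r = q + 1 := ⟨r - 1, by omega⟩
              rw [Nat.add_sub_cancel]
              calc Λ * σ ^ q ≤ σ ^ 2 * σ ^ q := mul_le_mul_of_nonneg_right hs (by positivity)
                _ = σ ^ (q + 1 + 1) := by ring
          calc _ ≤ cc K t ^ (u + 1) * Λ * σ ^ ((u + 1) + (w - 1)) * (K ^ t * t) +
                cc K t ^ (u + 1) * Λ * σ ^ ((u + 1) + (w - 1)) := add_le_add e3 e4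
            _ = _ := by ring
      unfold NB
      calc 2 ^ w * ∑ r ∈ range (w + 1), (Nuw K Λ σ t (u + 1) (w - r) *
            (K ^ w * (w - r : ℕ) * σ ^ (r + 1)) +
            if r = 0 then 0 else Nuw K Λ σ t (u + 1) (w - r) * (Λ * σ ^ (r - 1)))
          ≤ 2 ^ w * ∑ _r ∈ range (w + 1),
            cc K t ^ (u + 1) * Λ * σ ^ ((u + 1) + (w - 1)) * (K ^ t * t + 1) :=
            mul_le_mul_of_nonneg_left (Finset.sum_le_sum e1) (by positivity)
        _ = 2 ^ w * ((w + 1) * (K ^ t * t + 1)) *
            (cc K t ^ (u + 1) * Λ * σ ^ ((u + 1) + (w - 1))) := by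
            rw [Finset.sum_const, Finset.card_range, nsmul_eq_mul]
            push_cast
            ring
        _ ≤ cc K t * (cc K t ^ (u + 1) * Λ * σ ^ ((u + 1) + (w - 1))) := by
            refine mul_le_mul_of_nonneg_right ?_ (by positivity)
            unfold cc
            have e5 : (w : ℝ) ≤ t := by exact_mod_cast hw
            refine mul_le_mul (pow_le_pow_right₀ (by norm_num) hw) ?_ (by positivity)
              (by positivity)
            refine mul_le_mul_of_nonneg_right (by linarith) (by positivity)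
        _ = Nuw K Λ σ t (u + 1 + 1) w := by
            unfold Nuw
            rw [if_neg h0.ne', pow_succ (cc K t) (u + 1), Nat.add_sub_cancel]
            ring

end

end Pool.Agent.Y570.LS
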