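import Mathlib
import Pool.Agent.Y570.LS.Bound

/-!
Y570/LS (helper570, MP_0430e4_lc): the moment matrices of the product ansatz are positive
semidefinite.
-/

set_option autoImplicit false
set_option linter.unusedSectionVars false

namespace Pool.Agent.Y570.LS

open Finset

section

variable {X : Type} [Fintype X] [DecidableEq X] {g : X → X → ℝ} {K Λ σ ρ : ℝ}

/-- the product over the pairs -/
noncomputable def pr (g : X → X → ℝ) (S : Finset X) : ℝ := ∏ p ∈ S.offDiag, √(g p.1 p.2)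

/-- the pseudo-moments -/
noncomputable def yy (ρ : ℝ) (g : X → X → ℝ) (S : Finset X) : ℝ := ρ ^ S.card * pr g S

lemma pr_nonneg (g : X → X → ℝ) (S : Finset X) : 0 ≤ pr g S :=
  Finset.prod_nonneg fun _ _ => Real.sqrt_nonneg _

lemma pr_insert (hs : ∀ x y, g x y = g y x) (hn : ∀ x y, 0 ≤ g x y) {A : Finset X} {x : X}
    (hx : x ∉ A) : pr g (insert x A) = pr g A * ∏ s ∈ A, g x s := by
  classical
  unfold pr
  rw [Finset.offDiag_insert hx, Finset.prod_union, Finset.prod_union, mul_assoc]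
  · congr 1
    rw [Finset.prod_product, Finset.prod_singleton, Finset.prod_product_right,
      Finset.prod_singleton, ← Finset.prod_mul_distrib]
    refine Finset.prod_congr rfl fun s _ => ?_
    rw [hs s x]
    exact Real.mul_self_sqrt (hn x s)
  · rw [Finset.disjoint_left]
    rintro ⟨a, b⟩ h1 h2
    simp only [Finset.mem_offDiag, Finset.mem_product, Finset.mem_singleton] at h1 h2
    exact hx (h2.1 ▸ h1.1)
  · rw [Finset.disjoint_left]
    rintro ⟨a, b⟩ h1 h2
    simp only [Finset.mem_union, Finset.mem_offDiag, Finset.mem_product,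
      Finset.mem_singleton] at h1 h2
    rcases h1 with h1 | h1
    · exact hx (h2.2 ▸ h1.2.1)
    · exact hx (h2.2 ▸ h1.2)

lemma pr_union (hs : ∀ x y, g x y = g y x) (hn : ∀ x y, 0 ≤ g x y) {A B : Finset X}
    (hd : Disjoint A B) : pr g (A ∪ B) = pr g A * pr g B * gg g A B := by
  induction A using Finset.induction_on with
  | empty => simp [pr, gg]
  | insert x A hx ih =>
    have hd2 : Disjoint A B := Finset.disjoint_of_subset_left (Finset.subset_insert x A) hd
    have hxB : x ∉ B := Finset.disjoint_left.1 hd (Finset.mem_insert_self x A)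
    have hxAB : x ∉ A ∪ B := by
      rw [Finset.mem_union, not_or]
      exact ⟨hx, hxB⟩
    rw [Finset.insert_union, pr_insert hs hn hxAB, ih hd2, pr_insert hs hn hx,
      Finset.prod_union hd2]
    unfold gg
    rw [Finset.prod_insert hx]
    ring

lemma yy_nonneg (hρ : 0 ≤ ρ) (g : X → X → ℝ) (S : Finset X) : 0 ≤ yy ρ g S :=
  mul_nonneg (pow_nonneg hρ _) (pr_nonneg g S)

lemma gg_nonneg (hn : ∀ x y, 0 ≤ g x y) (A B : Finset X) : 0 ≤ gg g A B :=
  Finset.prod_nonneg fun _ _ => Finset.prod_nonneg fun _ _ => hn _ _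

lemma gg_union (g : X → X → ℝ) {A B : Finset X} (hd : Disjoint A B) (C : Finset X) :
    gg g (A ∪ B) C = gg g A C * gg g B C := by
  unfold gg
  rw [Finset.prod_union hd]

lemma yy_union (hs : ∀ x y, g x y = g y x) (hn : ∀ x y, 0 ≤ g x y) {A B : Finset X}
    (hd : Disjoint A B) : yy ρ g (A ∪ B) = yy ρ g A * yy ρ g B * gg g A B := by
  unfold yy
  rw [pr_union hs hn hd, Finset.card_union_of_disjoint hd, pow_add]
  ring

/-- pseudo-moments with the interaction `g`: the density of a point is at most `ρ`, up to the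
factor `B` for sets of size at most `t` -/
structure PM (g : X → X → ℝ) (Y : Finset X → ℝ) (ρ : ℝ) (t : ℕ) (B : ℝ) : Prop where
  nonneg : ∀ S, 0 ≤ Y S
  union : ∀ S T, Disjoint S T → Y (S ∪ T) = Y S * Y T * gg g S T
  growth : ∀ Z J : Finset X, Disjoint Z J → (Z ∪ J).card ≤ t →
    Y (Z ∪ J) ≤ B * ρ ^ J.card * Y Z

variable {Y : Finset X → ℝ} {t : ℕ} {B : ℝ}

lemma PM.triple (hY : PM g Y ρ t B) {Z S T : Finset X}
    (h1 : Disjoint Z S) (h2 : Disjoint Z T) (h3 : Disjoint S T) :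
    Y (Z ∪ S ∪ T) = (Y Z)⁻¹ * (Y (Z ∪ S) * Y (Z ∪ T) * gg g S T) := by
  have h4 : Disjoint (Z ∪ S) T := Finset.disjoint_union_left.2 ⟨h2, h3⟩
  rw [hY.union _ _ h4, gg_union g h1, hY.union _ _ h1, hY.union _ _ h2]
  by_cases h0 : Y Z = 0
  · rw [h0]
    ring
  · field_simp

/-- the partition by the intersection -/
lemma form_parts (hY : PM g Y ρ t B) (h0 : ∀ x, g x x = 0)
    (f F : Finset X → ℝ) (hF : F = fun S => f S * Y S) :
    ∑ S, ∑ T, f S * f T * Y (S ∪ T) =
      ∑ Z, (Y Z)⁻¹ * ∑ S, ∑ T, hR F Z S * hR F Z T * gg g S T := by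
  have h1 : ∀ Z : Finset X, (Y Z)⁻¹ * ∑ S, ∑ T, hR F Z S * hR F Z T * gg g S T =
      ∑ S, ∑ T, if Disjoint Z S ∧ Disjoint Z T ∧ Disjoint S T then
        (Y Z)⁻¹ * (F (Z ∪ S) * F (Z ∪ T) * gg g S T) else 0 := by
    intro Z
    rw [Finset.mul_sum]
    refine Finset.sum_congr rfl fun S _ => ?_
    rw [Finset.mul_sum]
    refine Finset.sum_congr rfl fun T _ => ?_
    unfold hR
    by_cases h2 : Disjoint Z S
    · by_cases h3 : Disjoint Z T
      · by_cases h4 : Disjoint S T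
        · rw [if_pos h2, if_pos h3, if_pos ⟨h2, h3, h4⟩]
        · rw [if_neg (show ¬(Disjoint Z S ∧ Disjoint Z T ∧ Disjoint S T) from fun h => h4 h.2.2)]
          obtain ⟨x, hx1, hx2⟩ := Finset.not_disjoint_iff.1 h4
          have : gg g S T = 0 := by
            unfold gg
            exact Finset.prod_eq_zero hx1 (Finset.prod_eq_zero hx2 (h0 x))
          rw [this]
          ring
      · rw [if_neg h3, if_neg (show ¬(Disjoint Z S ∧ Disjoint Z T ∧ Disjoint S T) from fun h => h3 h.2.1)]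
        ring
    · rw [if_neg h2, if_neg (show ¬(Disjoint Z S ∧ Disjoint Z T ∧ Disjoint S T) from fun h => h2 h.1)]
      ring
  rw [Finset.sum_congr rfl fun Z _ => h1 Z]
  have h5 : ∑ Z : Finset X, ∑ S : Finset X, ∑ T : Finset X,
      (if Disjoint Z S ∧ Disjoint Z T ∧ Disjoint S T then
        (Y Z)⁻¹ * (F (Z ∪ S) * F (Z ∪ T) * gg g S T) else 0) =
      ∑ p ∈ (univ : Finset (Finset X × Finset X × Finset X)).filter
        (fun p => Disjoint p.1 p.2.1 ∧ Disjoint p.1 p.2.2 ∧ Disjoint p.2.1 p.2.2),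
        (Y p.1)⁻¹ * (F (p.1 ∪ p.2.1) * F (p.1 ∪ p.2.2) * gg g p.2.1 p.2.2) := by
    rw [Finset.sum_filter, Fintype.sum_prod_type]
    refine Finset.sum_congr rfl fun Z _ => ?_
    rw [Fintype.sum_prod_type]
  rw [h5, ← Finset.sum_product', Finset.univ_product_univ]
  symm
  refine Finset.sum_nbij' (fun p => (p.1 ∪ p.2.1, p.1 ∪ p.2.2))
    (fun q => (q.1 ∩ q.2, q.1 \ q.2, q.2 \ q.1)) ?_ ?_ ?_ ?_ ?_
  · intro p _
    exact Finset.mem_univ _
  · intro q _
    refine Finset.mem_filter.2 ⟨Finset.mem_univ _, ?_, ?_, ?_⟩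
    · rw [Finset.disjoint_left]
      intro x hx1 hx2
      exact (Finset.mem_sdiff.1 hx2).2 (Finset.mem_inter.1 hx1).2
    · rw [Finset.disjoint_left]
      intro x hx1 hx2
      exact (Finset.mem_sdiff.1 hx2).2 (Finset.mem_inter.1 hx1).1
    · rw [Finset.disjoint_left]
      intro x hx1 hx2
      exact (Finset.mem_sdiff.1 hx2).2 (Finset.mem_sdiff.1 hx1).1
  · rintro ⟨Z, S, T⟩ hp
    obtain ⟨-, h2, h3, h4⟩ := Finset.mem_filter.1 hp
    simp only at h2 h3 h4 ⊢
    rw [Finset.disjoint_left] at h2 h3 h4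
    refine Prod.ext ?_ (Prod.ext ?_ ?_)
    · ext x
      simp only [mem_inter, mem_union]
      constructor
      · rintro ⟨h5 | h5, h6 | h6⟩
        · exact h5
        · exact h5
        · exact h6
        · exact absurd h6 (h4 h5)
      · intro h5
        exact ⟨Or.inl h5, Or.inl h5⟩
    · ext x
      simp only [mem_sdiff, mem_union, not_or]
      constructor
      · rintro ⟨h5 | h5, h6, h7⟩
        · exact absurd h5 h6
        · exact h5
      · intro h5
        exact ⟨Or.inr h5, fun h6 => h2 h6 h5, h4 h5⟩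
    · ext x
      simp only [mem_sdiff, mem_union, not_or]
      constructor
      · rintro ⟨h5 | h5, h6, h7⟩
        · exact absurd h5 h6
        · exact h5
      · intro h5
        exact ⟨Or.inr h5, fun h6 => h3 h6 h5, fun h6 => h4 h6 h5⟩
  · rintro ⟨S, T⟩ _
    refine Prod.ext ?_ ?_
    · ext x
      simp only [mem_inter, mem_union, mem_sdiff]
      tauto
    · ext x
      simp only [mem_inter, mem_union, mem_sdiff]
      tauto
  · rintro ⟨Z, S, T⟩ hp
    obtain ⟨-, h2, h3, h4⟩ := Finset.mem_filter.1 hp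
    simp only at h2 h3 h4 ⊢
    have e1 : Z ∪ S ∪ (Z ∪ T) = Z ∪ S ∪ T := by
      ext x
      simp only [mem_union]
      tauto
    rw [e1, hY.triple h2 h3 h4, hF]
    ring

lemma up_hR (F : Finset X → ℝ) (Z : Finset X) : up (hR F Z) = hR (up F) Z := by
  funext J
  by_cases hd : Disjoint Z J
  · unfold hR
    rw [if_pos hd]
    unfold up
    have h1 : ∑ S ∈ univ.filter (fun S => J ⊆ S), (if Disjoint Z S then F (Z ∪ S) else 0) =
        ∑ S ∈ univ.filter (fun S => J ⊆ S ∧ Disjoint Z S), F (Z ∪ S) := by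
      rw [Finset.sum_filter, Finset.sum_filter]
      refine Finset.sum_congr rfl fun S _ => ?_
      by_cases h2 : J ⊆ S
      · by_cases h3 : Disjoint Z S
        · rw [if_pos h2, if_pos h3, if_pos ⟨h2, h3⟩]
        · rw [if_pos h2, if_neg h3, if_neg fun h => h3 h.2]
      · rw [if_neg h2, if_neg fun h => h2 h.1]
    rw [h1]
    refine Finset.sum_nbij' (fun S => Z ∪ S) (fun S => S \ Z) ?_ ?_ ?_ ?_ ?_
    · intro S hS
      obtain ⟨-, h2, h3⟩ := Finset.mem_filter.1 hS
      exact Finset.mem_filter.2 ⟨Finset.mem_univ _, Finset.union_subset_union_right h2⟩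
    · intro S hS
      obtain ⟨-, h2⟩ := Finset.mem_filter.1 hS
      refine Finset.mem_filter.2 ⟨Finset.mem_univ _, ?_, Finset.disjoint_sdiff⟩
      intro x hx
      exact Finset.mem_sdiff.2 ⟨h2 (Finset.mem_union_right _ hx),
        fun h => Finset.disjoint_left.1 hd h hx⟩
    · intro S hS
      obtain ⟨-, h2, h3⟩ := Finset.mem_filter.1 hS
      exact Finset.union_sdiff_cancel_left h3
    · intro S hS
      obtain ⟨-, h2⟩ := Finset.mem_filter.1 hS
      exact Finset.union_sdiff_of_subset (Finset.subset_union_left.trans h2)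
    · intro S _
      rfl
  · unfold hR up
    rw [if_neg hd]
    refine Finset.sum_eq_zero fun S hS => ?_
    obtain ⟨-, h2⟩ := Finset.mem_filter.1 hS
    rw [if_neg]
    intro h3
    exact hd (Finset.disjoint_of_subset_right h2 h3)

/-- the partition by the sizes -/
lemma sum_card (t : ℕ) (φ : Finset X → ℝ) (h : ∀ J, t < J.card → φ J = 0) :
    ∑ J, φ J = ∑ u ∈ range (t + 1), ∑ J ∈ powersetCard u univ, φ J := by
  have h1 : ∑ J, φ J = ∑ J ∈ univ.filter (fun J : Finset X => J.card ≤ t), φ J := by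
    rw [Finset.sum_filter]
    refine Finset.sum_congr rfl fun J _ => ?_
    by_cases h2 : J.card ≤ t
    · rw [if_pos h2]
    · rw [if_neg h2, h J (by omega)]
  rw [h1, ← Finset.sum_fiberwise_of_maps_to (s := univ.filter (fun J : Finset X => J.card ≤ t))
    (t := range (t + 1)) (g := Finset.card) (fun J hJ => Finset.mem_range.2
      (Nat.lt_succ_of_le (Finset.mem_filter.1 hJ).2)) φ]
  refine Finset.sum_congr rfl fun u hu => ?_
  have h3 := Finset.mem_range.1 hu
  refine Finset.sum_congr ?_ fun _ _ => rfl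
  ext J
  simp only [mem_filter, mem_univ, true_and, mem_powersetCard, subset_univ]
  constructor
  · rintro ⟨_, h4⟩
    exact h4
  · intro h4
    exact ⟨by omega, h4⟩

/-- the form of a link -/
lemma form_link (hk : KK g K Λ σ) (hΛσ : Λ ≤ σ ^ 2) (hρ : 0 < ρ) (t : ℕ) (η : ℝ)
    (hη : ∀ u w : ℕ, 1 ≤ u → u ≤ t → 1 ≤ w → w ≤ t → Nuw K Λ σ t u w * √ρ ^ (u + w) ≤ η)
    (A : Finset X → ℝ) (hA : ∀ J, t < J.card → A J = 0) :
    |∑ J, ∑ L, A J * A L * CC g J L - A ∅ ^ 2| ≤
      η * (t * ∑ u ∈ range t, n2 (u + 1) A / ρ ^ (u + 1)) := by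
  have hs : 0 < √ρ := Real.sqrt_pos.2 hρ
  obtain ⟨S, hS⟩ : ∃ S : ℕ → ℕ → ℝ, S = fun u w => ∑ J ∈ powersetCard u univ,
      ∑ L ∈ powersetCard w univ, A J * A L * CC g J L := ⟨_, rfl⟩
  obtain ⟨x, hx⟩ : ∃ x : ℕ → ℝ, x = fun u => √(n2 u A) / √ρ ^ u := ⟨_, rfl⟩
  have hx0 : ∀ u, 0 ≤ x u := fun u => by
    rw [hx]
    exact div_nonneg (Real.sqrt_nonneg _) (pow_nonneg hs.le _)
  have h1 : ∑ J, ∑ L, A J * A L * CC g J L =
      ∑ u ∈ range (t + 1), ∑ w ∈ range (t + 1), S u w := by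
    rw [sum_card t (fun J => ∑ L, A J * A L * CC g J L)]
    · refine Finset.sum_congr rfl fun u _ => ?_
      rw [hS, Finset.sum_comm (s := range (t + 1))]
      refine Finset.sum_congr rfl fun J _ => ?_
      rw [sum_card t (fun L => A J * A L * CC g J L)]
      intro L hL
      rw [hA L hL]
      ring
    · intro J hJ
      refine Finset.sum_eq_zero fun L _ => ?_
      rw [hA J hJ]
      ring
  have h2 : S 0 0 = A ∅ ^ 2 := by
    rw [hS]
    simp only
    rw [Finset.powersetCard_zero, Finset.sum_singleton, Finset.sum_singleton, CC_empty_left,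
      if_pos rfl]
    ring
  have h3 : ∀ w, 1 ≤ w → S 0 w = 0 := by
    intro w hw
    have := BB_left g hw A A
    rw [zero_mul] at this
    rw [hS]
    exact abs_eq_zero.1 (le_antisymm this (abs_nonneg _))
  have h4 : ∀ u, 1 ≤ u → S u 0 = 0 := by
    intro w hw
    have := BB_right g hw A A
    rw [zero_mul] at this
    rw [hS]
    exact abs_eq_zero.1 (le_antisymm this (abs_nonneg _))
  have h5 : ∀ u w, u < t → w < t → |S (u + 1) (w + 1)| ≤ η * (x (u + 1) * x (w + 1)) := by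
    intro u w hu hw
    have e1 := BB_all hk hΛσ t u (w + 1) (by omega) A A
    have e2 := hη (u + 1) (w + 1) (by omega) (by omega) (by omega) (by omega)
    have e3 : √(n2 (u + 1) A) * √(n2 (w + 1) A) =
        √ρ ^ (u + 1 + (w + 1)) * (x (u + 1) * x (w + 1)) := by
      rw [hx, pow_add]
      have : √ρ ^ (u + 1) ≠ 0 := (pow_pos hs _).ne'
      have : √ρ ^ (w + 1) ≠ 0 := (pow_pos hs _).ne'
      field_simp
    rw [hS]
    calc _ ≤ _ := e1
      _ = (Nuw K Λ σ t (u + 1) (w + 1) * √ρ ^ (u + 1 + (w + 1))) *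
          (x (u + 1) * x (w + 1)) := by
          rw [e3]
          ring
      _ ≤ η * (x (u + 1) * x (w + 1)) :=
          mul_le_mul_of_nonneg_right e2 (mul_nonneg (hx0 _) (hx0 _))
  have h6 : ∑ u ∈ range (t + 1), ∑ w ∈ range (t + 1), S u w =
      A ∅ ^ 2 + ∑ u ∈ range t, ∑ w ∈ range t, S (u + 1) (w + 1) := by
    rw [Finset.sum_range_succ', Finset.sum_range_succ', h2,
      Finset.sum_eq_zero (fun w _ => h3 (w + 1) (by omega)), zero_add, add_comm]
    congr 1
    refine Finset.sum_congr rfl fun u _ => ?_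
    rw [Finset.sum_range_succ', h4 (u + 1) (by omega), add_zero]
  rcases Nat.eq_zero_or_pos t with h0 | h0
  · subst h0
    rw [h1, h6]
    simp
  have hη0 : 0 ≤ η := by
    refine le_trans ?_ (hη 1 1 le_rfl h0 le_rfl h0)
    have := hk.K1
    have := hk.hΛ
    have := hk.hσ
    have := cc_pos hk.K1 t
    unfold Nuw
    rw [if_neg one_ne_zero]
    positivity
  have h7 : |∑ u ∈ range t, ∑ w ∈ range t, S (u + 1) (w + 1)| ≤
      η * (t * ∑ u ∈ range t, n2 (u + 1) A / ρ ^ (u + 1)) := by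
    have e1 : |∑ u ∈ range t, ∑ w ∈ range t, S (u + 1) (w + 1)| ≤
        η * (∑ u ∈ range t, x (u + 1)) ^ 2 := by
      refine (Finset.abs_sum_le_sum_abs _ _).trans ?_
      rw [sq, Finset.sum_mul_sum, Finset.mul_sum]
      refine Finset.sum_le_sum fun u hu => ?_
      refine (Finset.abs_sum_le_sum_abs _ _).trans ?_
      rw [Finset.mul_sum]
      exact Finset.sum_le_sum fun w hw => h5 u w (Finset.mem_range.1 hu) (Finset.mem_range.1 hw)
    refine e1.trans (mul_le_mul_of_nonneg_left ?_ hη0)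
    have e2 := sq_sum_le_card_mul_sum_sq (s := range t) (f := fun u => x (u + 1))
    rw [Finset.card_range] at e2
    refine e2.trans (le_of_eq ?_)
    congr 1
    refine Finset.sum_congr rfl fun u _ => ?_
    rw [hx]
    simp only
    rw [div_pow, Real.sq_sqrt (n2_nonneg _ _), ← pow_mul, mul_comm (u + 1) 2, pow_mul,
      Real.sq_sqrt hρ.le]
  rw [h1, h6, add_sub_cancel_left]
  exact h7

lemma pr_le (hk : KK g K Λ σ) (J : Finset X) : pr g J ≤ K ^ (J.card * J.card) := by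
  have hK := hk.K1
  have hK0 : 0 ≤ K := by linarith
  unfold pr
  have h1 : ∏ p ∈ J.offDiag, √(g p.1 p.2) ≤ ∏ _p ∈ J.offDiag, K := by
    refine Finset.prod_le_prod (fun p _ => Real.sqrt_nonneg _) fun p _ => ?_
    rw [Real.sqrt_le_left hK0]
    have := hk.le p.1 p.2
    nlinarith
  refine h1.trans ?_
  rw [Finset.prod_const]
  refine pow_le_pow_right₀ hK ?_
  rw [Finset.offDiag_card]
  exact Nat.sub_le _ _

lemma gg_le (hk : KK g K Λ σ) (Z J : Finset X) : gg g Z J ≤ K ^ (Z.card * J.card) := by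
  unfold gg
  calc ∏ s ∈ Z, ∏ t ∈ J, g s t ≤ ∏ _s ∈ Z, K ^ J.card :=
        Finset.prod_le_prod (fun s _ => Finset.prod_nonneg fun t _ => hk.nonneg _ _)
          fun s _ => pg_le hk s J
    _ = K ^ (Z.card * J.card) := by
        rw [Finset.prod_const, ← pow_mul, mul_comm]

lemma pr_sub (hk : KK g K Λ σ) (hs : ∀ x y, g x y = g y x) {Z J : Finset X} {t : ℕ}
    (hd : Disjoint Z J) (ht : (Z ∪ J).card ≤ t) : pr g (Z ∪ J) ≤ K ^ (t ^ 2) * pr g Z := by
  have hK := hk.K1
  have hK0 : 0 ≤ K := by linarith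
  rw [pr_union hs hk.nonneg hd]
  have h1 : pr g J * gg g Z J ≤ K ^ (t ^ 2) := by
    calc pr g J * gg g Z J ≤ K ^ (J.card * J.card) * K ^ (Z.card * J.card) :=
          mul_le_mul (pr_le hk J) (gg_le hk Z J) (gg_nonneg hk.nonneg _ _) (by positivity)
      _ = K ^ (J.card * J.card + Z.card * J.card) := by rw [pow_add]
      _ ≤ K ^ (t ^ 2) := by
          refine pow_le_pow_right₀ hK ?_
          rw [Finset.card_union_of_disjoint hd] at ht
          have h2 : J.card ≤ t := by omega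
          calc J.card * J.card + Z.card * J.card = (Z.card + J.card) * J.card := by ring
            _ ≤ t * t := Nat.mul_le_mul ht h2
            _ = t ^ 2 := by ring
  calc pr g Z * pr g J * gg g Z J = (pr g J * gg g Z J) * pr g Z := by ring
    _ ≤ K ^ (t ^ 2) * pr g Z := mul_le_mul_of_nonneg_right h1 (pr_nonneg g Z)

/-- the sum over the pairs of disjoint sets -/
lemma sum_disj (t : ℕ) (Θ : Finset X → ℝ) (h0 : ∀ Y, 0 ≤ Θ Y) (hc : ∀ Y, t < Y.card → Θ Y = 0) :
    ∑ Z : Finset X, ∑ J : Finset X, (if Disjoint Z J then Θ (Z ∪ J) else 0) ≤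
      2 ^ t * ∑ Y, Θ Y := by
  have h1 : ∑ Z : Finset X, ∑ J : Finset X, (if Disjoint Z J then Θ (Z ∪ J) else 0) =
      ∑ Y : Finset X, ∑ _Z ∈ Y.powerset, Θ Y := by
    have e1 : ∑ Z : Finset X, ∑ J : Finset X, (if Disjoint Z J then Θ (Z ∪ J) else 0) =
        ∑ p ∈ (univ : Finset (Finset X × Finset X)).filter (fun p => Disjoint p.1 p.2),
          Θ (p.1 ∪ p.2) := by
      rw [Finset.sum_filter, Fintype.sum_prod_type]
    rw [e1, Finset.sum_sigma']
    refine Finset.sum_nbij' (fun p => ⟨p.1 ∪ p.2, p.1⟩) (fun q => (q.2, q.1 \ q.2))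
      ?_ ?_ ?_ ?_ ?_
    · rintro ⟨Z, J⟩ _
      exact Finset.mem_sigma.2 ⟨Finset.mem_univ _,
        Finset.mem_powerset.2 Finset.subset_union_left⟩
    · rintro ⟨Y, Z⟩ _
      exact Finset.mem_filter.2 ⟨Finset.mem_univ _, Finset.disjoint_sdiff⟩
    · rintro ⟨Z, J⟩ hp
      obtain ⟨-, h2⟩ := Finset.mem_filter.1 hp
      simp only at h2 ⊢
      rw [Finset.union_sdiff_cancel_left h2]
    · rintro ⟨Y, Z⟩ hq
      obtain ⟨-, h2⟩ := Finset.mem_sigma.1 hq
      simp only at h2 ⊢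
      rw [Finset.union_sdiff_of_subset (Finset.mem_powerset.1 h2)]
    · rintro ⟨Z, J⟩ _
      rfl
  rw [h1, Finset.mul_sum]
  refine Finset.sum_le_sum fun Y _ => ?_
  rw [Finset.sum_const, Finset.card_powerset, nsmul_eq_mul]
  by_cases h2 : Y.card ≤ t
  · refine mul_le_mul_of_nonneg_right ?_ (h0 Y)
    push_cast
    exact pow_le_pow_right₀ (by norm_num) h2
  · rw [hc Y (by omega)]
    simp

/-- the main part of the form -/
noncomputable def MM (Y : Finset X → ℝ) (f : Finset X → ℝ) : ℝ :=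
  ∑ Z, (Y Z)⁻¹ * up (fun S => f S * Y S) Z ^ 2

lemma MM_nonneg (hY : PM g Y ρ t B) (f : Finset X → ℝ) : 0 ≤ MM Y f :=
  Finset.sum_nonneg fun Z _ => mul_nonneg (inv_nonneg.2 (hY.nonneg Z)) (sq_nonneg _)

lemma up_card (f : Finset X → ℝ) (hf : ∀ S, t < S.card → f S = 0) (Y : Finset X → ℝ) :
    ∀ J : Finset X, t < J.card → up (fun S => f S * Y S) J = 0 := by
  intro J hJ
  unfold up
  refine Finset.sum_eq_zero fun S hS => ?_
  obtain ⟨-, h2⟩ := Finset.mem_filter.1 hS
  rw [hf S (lt_of_lt_of_le hJ (Finset.card_le_card h2)), zero_mul]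

lemma up_pos (hY : PM g Y ρ t B) (f : Finset X → ℝ) (J : Finset X)
    (hJ : up (fun S => f S * Y S) J ≠ 0) : 0 < Y J := by
  rcases (hY.nonneg J).lt_or_eq with h | h
  · exact h
  · exfalso
    apply hJ
    unfold up
    refine Finset.sum_eq_zero fun S hS => ?_
    obtain ⟨-, h2⟩ := Finset.mem_filter.1 hS
    have h3 : Y S = 0 := by
      rw [← Finset.union_sdiff_of_subset h2, hY.union _ _ Finset.disjoint_sdiff, ← h]
      ring
    rw [h3, mul_zero]

/-- the comparison of the weights -/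
lemma PM.inv_le (hY : PM g Y ρ t B) (hρ : 0 < ρ) {Z J : Finset X}
    (hd : Disjoint Z J) (h4 : (Z ∪ J).card ≤ t) (h3 : 0 < Y (Z ∪ J)) :
    (Y Z)⁻¹ / ρ ^ J.card ≤ B * (Y (Z ∪ J))⁻¹ := by
  have h5 := hY.growth Z J hd h4
  have p2 : 0 < ρ ^ J.card := pow_pos hρ _
  have h6 : 0 < Y Z := by
    rcases (hY.nonneg Z).lt_or_eq with h | h
    · exact h
    · exfalso
      rw [← h, mul_zero] at h5
      linarith
  rw [← sub_nonneg]
  have e5 : B * (Y (Z ∪ J))⁻¹ - (Y Z)⁻¹ / ρ ^ J.card =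
      (B * ρ ^ J.card * Y Z - Y (Z ∪ J)) * (ρ ^ J.card * Y Z * Y (Z ∪ J))⁻¹ := by
    field_simp
  rw [e5]
  exact mul_nonneg (by linarith) (inv_nonneg.2 (by positivity))

/-- **The moment matrices of the product ansatz.** -/
theorem psd_main (hk : KK g K Λ σ) (hY : PM g Y ρ t B) (hg0 : ∀ x, g x x = 0)
    (hΛσ : Λ ≤ σ ^ 2) (hρ : 0 < ρ) (hB : 0 ≤ B) (η : ℝ)
    (hη : ∀ u w : ℕ, 1 ≤ u → u ≤ t → 1 ≤ w → w ≤ t → Nuw K Λ σ t u w * √ρ ^ (u + w) ≤ η)
    (hη0 : 0 ≤ η) (f : Finset X → ℝ) (hf : ∀ S, t < S.card → f S = 0) :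
    |∑ S, ∑ T, f S * f T * Y (S ∪ T) - MM Y f| ≤ η * t * (2 ^ t * B) * MM Y f := by
  have hK := hk.K1
  have hK0 : 0 ≤ K := by linarith
  obtain ⟨F, hF⟩ : ∃ F : Finset X → ℝ, F = fun S => f S * Y S := ⟨_, rfl⟩
  obtain ⟨a, ha⟩ : ∃ a : Finset X → ℝ, a = up F := ⟨_, rfl⟩
  obtain ⟨w, hw⟩ : ∃ w : Finset X → ℝ, w = fun Z => (Y Z)⁻¹ := ⟨_, rfl⟩
  have hw0 : ∀ Z, 0 ≤ w Z := fun Z => by
    rw [hw]
    exact inv_nonneg.2 (hY.nonneg Z)
  have hac : ∀ J, t < J.card → a J = 0 := by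
    intro J hJ
    rw [ha, hF]
    exact up_card f hf Y J hJ
  have hap : ∀ J, a J ≠ 0 → 0 < Y J := by
    intro J hJ
    rw [ha, hF] at hJ
    exact up_pos hY f J hJ
  rw [form_parts hY hg0 f F hF]
  have hMM : MM Y f = ∑ Z, w Z * a Z ^ 2 := by
    unfold MM
    rw [hw, ha, hF]
  rw [hMM]
  obtain ⟨M, hM⟩ : ∃ M : ℝ, M = ∑ Z, w Z * a Z ^ 2 := ⟨_, rfl⟩
  rw [← hM]
  have h1 : |∑ Z, (Y Z)⁻¹ * ∑ S, ∑ T, hR F Z S * hR F Z T * gg g S T - M| ≤
      η * t * ∑ Z, w Z * ∑ u ∈ range t, n2 (u + 1) (hR a Z) / ρ ^ (u + 1) := by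
    rw [hM, ← Finset.sum_sub_distrib, Finset.mul_sum]
    refine (Finset.abs_sum_le_sum_abs _ _).trans (Finset.sum_le_sum fun Z _ => ?_)
    rw [form_up, up_hR, ← ha]
    have e1 : w Z = (Y Z)⁻¹ := by rw [hw]
    rw [← e1, ← mul_sub, abs_mul, abs_of_nonneg (hw0 Z)]
    have e2 := form_link hk hΛσ hρ t η hη (hR a Z) (fun J hJ => by
      unfold hR
      split_ifs with h
      · exact hac _ (lt_of_lt_of_le hJ (Finset.card_le_card Finset.subset_union_right))
      · rfl)
    have e3 : hR a Z ∅ = a Z := by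
      unfold hR
      rw [if_pos (Finset.disjoint_empty_right Z), Finset.union_empty]
    rw [e3] at e2
    refine (mul_le_mul_of_nonneg_left e2 (hw0 Z)).trans (le_of_eq ?_)
    ring
  refine h1.trans ?_
  have h2 : ∑ Z, w Z * ∑ u ∈ range t, n2 (u + 1) (hR a Z) / ρ ^ (u + 1) ≤
      2 ^ t * B * M := by
    have e1 : ∀ Z : Finset X, w Z * ∑ u ∈ range t, n2 (u + 1) (hR a Z) / ρ ^ (u + 1) ≤
        ∑ J : Finset X, if Disjoint Z J then B * (w (Z ∪ J) * a (Z ∪ J) ^ 2) else 0 := by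
      intro Z
      have e2 : ∑ u ∈ range t, n2 (u + 1) (hR a Z) / ρ ^ (u + 1) ≤
          ∑ J, hR a Z J ^ 2 / ρ ^ J.card := by
        rw [sum_card t (fun J => hR a Z J ^ 2 / ρ ^ J.card)]
        · rw [Finset.sum_range_succ']
          have e3 : ∑ u ∈ range t, n2 (u + 1) (hR a Z) / ρ ^ (u + 1) =
              ∑ u ∈ range t, ∑ J ∈ powersetCard (u + 1) univ, hR a Z J ^ 2 / ρ ^ J.card := by
            refine Finset.sum_congr rfl fun u _ => ?_
            unfold n2
            rw [Finset.sum_div]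
            refine Finset.sum_congr rfl fun J hJ => ?_
            rw [(Finset.mem_powersetCard.1 hJ).2]
          rw [e3]
          have e4 : 0 ≤ ∑ J ∈ powersetCard 0 (univ : Finset X), hR a Z J ^ 2 / ρ ^ J.card :=
            Finset.sum_nonneg fun J _ => div_nonneg (sq_nonneg _) (pow_nonneg hρ.le _)
          linarith
        · intro J hJ
          have : hR a Z J = 0 := by
            unfold hR
            split_ifs with h
            · exact hac _ (lt_of_lt_of_le hJ (Finset.card_le_card Finset.subset_union_right))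
            · rfl
          rw [this]
          simp
      refine (mul_le_mul_of_nonneg_left e2 (hw0 Z)).trans ?_
      rw [Finset.mul_sum]
      refine Finset.sum_le_sum fun J _ => ?_
      unfold hR
      by_cases hd : Disjoint Z J
      · rw [if_pos hd, if_pos hd]
        by_cases h0 : a (Z ∪ J) = 0
        · rw [h0]
          simp
        · have h3 := hap _ h0
          have h4 : (Z ∪ J).card ≤ t := by
            by_contra h5
            exact h0 (hac _ (by omega))
          have h7 : w Z / ρ ^ J.card ≤ B * w (Z ∪ J) := by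
            rw [hw]
            exact hY.inv_le hρ hd h4 h3
          calc w Z * (a (Z ∪ J) ^ 2 / ρ ^ J.card) = w Z / ρ ^ J.card * a (Z ∪ J) ^ 2 := by ring
            _ ≤ B * w (Z ∪ J) * a (Z ∪ J) ^ 2 :=
                mul_le_mul_of_nonneg_right h7 (sq_nonneg _)
            _ = _ := by ring
      · rw [if_neg hd, if_neg hd]
        simp
    refine (Finset.sum_le_sum fun Z _ => e1 Z).trans ?_
    have e2 := sum_disj t (fun S => B * (w S * a S ^ 2))
      (fun S => mul_nonneg hB (mul_nonneg (hw0 S) (sq_nonneg _)))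
      (fun S hS => by
        rw [hac S hS]
        simp)
    refine e2.trans (le_of_eq ?_)
    rw [← Finset.mul_sum, ← hM]
    ring
  calc η * t * ∑ Z, w Z * ∑ u ∈ range t, n2 (u + 1) (hR a Z) / ρ ^ (u + 1)
      ≤ η * t * (2 ^ t * B * M) :=
        mul_le_mul_of_nonneg_left h2 (mul_nonneg hη0 (Nat.cast_nonneg _))
    _ = η * t * (2 ^ t * B) * M := by ring

/-- the pseudo-moments with weights -/
noncomputable def yp (ρ : ℝ) (g : X → X → ℝ) (p : X → ℝ) (S : Finset X) : ℝ :=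
  yy ρ g S * ∏ x ∈ S, p x

lemma yp_pm (hk : KK g K Λ σ) (hs : ∀ x y, g x y = g y x) (hρ : 0 ≤ ρ) (t : ℕ) (p : X → ℝ)
    (P : ℝ) (hP1 : 1 ≤ P) (hp : ∀ x, 0 ≤ p x) (hP : ∀ x, p x ≤ P) :
    PM g (yp ρ g p) ρ t (K ^ (t ^ 2) * P ^ t) := by
  have hK := hk.K1
  have hK0 : 0 ≤ K := by linarith
  refine ⟨fun S => mul_nonneg (yy_nonneg hρ g S) (Finset.prod_nonneg fun x _ => hp x),
    fun S T hd => ?_, fun Z J hd ht => ?_⟩
  · unfold yp
    rw [yy_union hs hk.nonneg hd, Finset.prod_union hd]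
    ring
  · unfold yp yy
    have h1 := pr_sub hk hs hd ht
    have h2 : ∏ x ∈ J, p x ≤ P ^ t := by
      calc ∏ x ∈ J, p x ≤ ∏ _x ∈ J, P := Finset.prod_le_prod (fun x _ => hp x) fun x _ => hP x
        _ = P ^ J.card := by rw [Finset.prod_const]
        _ ≤ P ^ t := by
            refine pow_le_pow_right₀ hP1 ?_
            rw [Finset.card_union_of_disjoint hd] at ht
            omega
    rw [Finset.prod_union hd, Finset.card_union_of_disjoint hd, pow_add]
    have h3 : 0 ≤ ∏ x ∈ Z, p x := Finset.prod_nonneg fun x _ => hp x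
    have h4 : 0 ≤ ∏ x ∈ J, p x := Finset.prod_nonneg fun x _ => hp x
    have h5 : 0 ≤ ρ ^ Z.card * ρ ^ J.card := by positivity
    have h6 := pr_nonneg g Z
    calc ρ ^ Z.card * ρ ^ J.card * pr g (Z ∪ J) * ((∏ x ∈ Z, p x) * ∏ x ∈ J, p x)
        ≤ ρ ^ Z.card * ρ ^ J.card * (K ^ (t ^ 2) * pr g Z) * ((∏ x ∈ Z, p x) * P ^ t) := by
          refine mul_le_mul (mul_le_mul_of_nonneg_left h1 h5)
            (mul_le_mul_of_nonneg_left h2 h3) (mul_nonneg h3 h4) ?_
          exact mul_nonneg h5 (mul_nonneg (by positivity) h6)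
      _ = _ := by ring

end

end Pool.Agent.Y570.LS
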