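import Mathlib
import Pool.Agent.Y570.LS.Psd
import Pool.Agent.Y570.KP.Cond

/-!
Y570/LS (helper570, MP_0430e4_lc): conditioning.
-/

set_option autoImplicit false
set_option linter.unusedSectionVars false

namespace Pool.Agent.Y570.LS

open Finset

section

variable {X : Type} [Fintype X] [DecidableEq X] {g : X → X → ℝ} {K Λ σ ρ : ℝ}
variable {Y : Finset X → ℝ} {t : ℕ} {B : ℝ}

/-- the product of `q` -/
def pq (q : X → ℝ) (S : Finset X) : ℝ := ∏ x ∈ S, q x

lemma pq_nonneg {q : X → ℝ} (hq : ∀ x, 0 ≤ q x) (S : Finset X) : 0 ≤ pq q S :=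
  Finset.prod_nonneg fun x _ => hq x

/-- the expansion of a change of the weights -/
lemma up_weight (F : Finset X → ℝ) (q : X → ℝ) (Z : Finset X) :
    up (fun S => F S * pq q S) Z =
      pq q Z * ∑ W, pq (fun x => q x - 1) W * hR (up F) Z W := by
  have h1 : ∀ S : Finset X, Z ⊆ S → pq q S =
      pq q Z * ∑ W ∈ (S \ Z).powerset, pq (fun x => q x - 1) W := by
    intro S hS
    unfold pq
    have e1 : ∏ x ∈ S, q x = (∏ x ∈ Z, q x) * ∏ x ∈ S \ Z, q x := by
      rw [← Finset.prod_union Finset.disjoint_sdiff, Finset.union_sdiff_of_subset hS]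
    have e2 : ∏ x ∈ S \ Z, q x = ∏ x ∈ S \ Z, ((q x - 1) + 1) :=
      Finset.prod_congr rfl fun x _ => by ring
    rw [e1, e2, Finset.prod_add_one]
  unfold up
  have h2 : ∑ S ∈ univ.filter (fun S => Z ⊆ S), F S * pq q S =
      ∑ S : Finset X, ∑ W : Finset X, if Disjoint Z W ∧ Z ∪ W ⊆ S then
        F S * (pq q Z * pq (fun x => q x - 1) W) else 0 := by
    rw [Finset.sum_filter]
    refine Finset.sum_congr rfl fun S _ => ?_
    by_cases hS : Z ⊆ S
    · rw [if_pos hS, h1 S hS, Finset.mul_sum, Finset.mul_sum]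
      have e1 : (S \ Z).powerset = univ.filter (fun W => Disjoint Z W ∧ Z ∪ W ⊆ S) := by
        ext W
        simp only [mem_powerset, mem_filter, mem_univ, true_and]
        constructor
        · intro h
          refine ⟨Finset.disjoint_of_subset_right h Finset.disjoint_sdiff, ?_⟩
          exact Finset.union_subset hS (h.trans Finset.sdiff_subset)
        · rintro ⟨h3, h4⟩ x hx
          exact Finset.mem_sdiff.2 ⟨h4 (Finset.mem_union_right _ hx),
            fun h => Finset.disjoint_left.1 h3 h hx⟩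
      rw [e1, Finset.sum_filter]
    · rw [if_neg hS]
      symm
      refine Finset.sum_eq_zero fun W _ => ?_
      rw [if_neg]
      rintro ⟨-, h4⟩
      exact hS (Finset.subset_union_left.trans h4)
  rw [h2, Finset.sum_comm, Finset.mul_sum]
  refine Finset.sum_congr rfl fun W _ => ?_
  unfold hR
  by_cases hd : Disjoint Z W
  · rw [if_pos hd]
    beta_reduce
    rw [Finset.sum_filter, Finset.mul_sum, Finset.mul_sum]
    refine Finset.sum_congr rfl fun S _ => ?_
    by_cases h3 : Z ∪ W ⊆ S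
    · rw [if_pos ⟨hd, h3⟩, if_pos h3]
      ring
    · rw [if_neg fun h => h3 h.2, if_neg h3]
      ring
  · rw [if_neg hd, mul_zero, mul_zero]
    refine Finset.sum_eq_zero fun S _ => ?_
    rw [if_neg fun h => hd h.1]

/-- the main parts, after a change of the weights -/
lemma MM_weight (hY : PM g Y ρ t B) (hρ : 0 < ρ) (hB : 0 ≤ B) (q : X → ℝ) (hq : ∀ x, 0 ≤ q x)
    (Q τ m : ℝ) (hQ1 : 1 ≤ Q) (hQ : ∀ x, q x ≤ Q) (hm : 1 ≤ m)
    (hτm : τ ^ 2 * ρ ≤ m) (hrow : ∑ x, (q x - 1) ^ 2 ≤ τ ^ 2)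
    (f : Finset X → ℝ) (hf : ∀ S, t < S.card → f S = 0) :
    MM (fun S => Y S * pq q S) f ≤ Q ^ t * (t + 1) * (m ^ t * (2 ^ t * B)) * MM Y f := by
  obtain ⟨a, ha⟩ : ∃ a : Finset X → ℝ, a = up (fun S => f S * Y S) := ⟨_, rfl⟩
  have hac : ∀ J, t < J.card → a J = 0 := by
    intro J hJ
    rw [ha]
    exact up_card f hf Y J hJ
  have hap : ∀ J, a J ≠ 0 → 0 < Y J := by
    intro J hJ
    rw [ha] at hJ
    exact up_pos hY f J hJ
  have hQ0 : 0 ≤ Q := by linarith
  have hm0 : 0 ≤ m := by linarith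
  have h1 : ∀ Z : Finset X, (Y Z * pq q Z)⁻¹ * up (fun S => f S * (Y S * pq q S)) Z ^ 2 ≤
      Q ^ t * ((Y Z)⁻¹ * ((t + 1) * ∑ u ∈ range (t + 1), (τ ^ u) ^ 2 * n2 u (hR a Z))) := by
    intro Z
    have e0 : (fun S => f S * (Y S * pq q S)) = fun S => (f S * Y S) * pq q S := by
      funext S
      ring
    rw [e0, up_weight (fun S => f S * Y S) q Z, ← ha]
    by_cases hZ : Z.card ≤ t
    · have e1 : ∑ W, pq (fun x => q x - 1) W * hR a Z W =
          ∑ u ∈ range (t + 1), ∑ W ∈ powersetCard u univ, pq (fun x => q x - 1) W * hR a Z W := by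
        refine sum_card t _ ?_
        intro J hJ
        have : hR a Z J = 0 := by
          unfold hR
          split_ifs with h
          · exact hac _ (lt_of_lt_of_le hJ (Finset.card_le_card Finset.subset_union_right))
          · rfl
        rw [this, mul_zero]
      have e2 : (∑ W, pq (fun x => q x - 1) W * hR a Z W) ^ 2 ≤
          (t + 1) * ∑ u ∈ range (t + 1), (τ ^ u) ^ 2 * n2 u (hR a Z) := by
        rw [e1]
        have e3 := sq_sum_le_card_mul_sum_sq (s := range (t + 1))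
          (f := fun u => ∑ W ∈ powersetCard u univ, pq (fun x => q x - 1) W * hR a Z W)
        rw [Finset.card_range] at e3
        refine e3.trans ?_
        push_cast
        refine mul_le_mul_of_nonneg_left (Finset.sum_le_sum fun u _ => ?_) (by positivity)
        refine (Finset.sum_mul_sq_le_sq_mul_sq _ _ _).trans ?_
        refine mul_le_mul_of_nonneg_right ?_ (n2_nonneg _ _)
        have e4 := esym_le (fun c => (q c - 1) ^ 2) (fun c => sq_nonneg _) u
        have e5 : ∀ R : Finset X, pq (fun x => q x - 1) R ^ 2 = ∏ c ∈ R, (q c - 1) ^ 2 := by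
          intro R
          unfold pq
          rw [Finset.prod_pow]
        simp_rw [e5]
        refine e4.trans ?_
        rw [← pow_mul, mul_comm u 2, pow_mul]
        exact pow_le_pow_left₀ (Finset.sum_nonneg fun c _ => sq_nonneg _) hrow u
      have e6 : (Y Z * pq q Z)⁻¹ * (pq q Z * ∑ W, pq (fun x => q x - 1) W * hR a Z W) ^ 2 =
          pq q Z * ((Y Z)⁻¹ * (∑ W, pq (fun x => q x - 1) W * hR a Z W) ^ 2) := by
        by_cases h0 : pq q Z = 0
        · rw [h0]
          ring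
        · rw [mul_inv]
          field_simp
      rw [e6]
      have e7 : pq q Z ≤ Q ^ t := by
        unfold pq
        calc ∏ x ∈ Z, q x ≤ ∏ _x ∈ Z, Q := Finset.prod_le_prod (fun x _ => hq x) fun x _ => hQ x
          _ = Q ^ Z.card := by rw [Finset.prod_const]
          _ ≤ Q ^ t := pow_le_pow_right₀ hQ1 hZ
      have e8 : 0 ≤ (Y Z)⁻¹ := inv_nonneg.2 (hY.nonneg Z)
      refine mul_le_mul e7 (mul_le_mul_of_nonneg_left e2 e8) (mul_nonneg e8 (sq_nonneg _))
        (by positivity)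
    · have e1 : ∀ W, hR a Z W = 0 := by
        intro W
        unfold hR
        split_ifs with h
        · refine hac _ (lt_of_lt_of_le (by omega : t < Z.card)
            (Finset.card_le_card Finset.subset_union_left))
        · rfl
      have e2 : ∑ W, pq (fun x => q x - 1) W * hR a Z W = 0 :=
        Finset.sum_eq_zero fun W _ => by rw [e1, mul_zero]
      rw [e2]
      have e8 : 0 ≤ (Y Z)⁻¹ := inv_nonneg.2 (hY.nonneg Z)
      have e9 : 0 ≤ ∑ u ∈ range (t + 1), (τ ^ u) ^ 2 * n2 u (hR a Z) :=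
        Finset.sum_nonneg fun u _ => mul_nonneg (sq_nonneg _) (n2_nonneg _ _)
      have : 0 ≤ Q ^ t * ((Y Z)⁻¹ * ((t + 1) * ∑ u ∈ range (t + 1),
          (τ ^ u) ^ 2 * n2 u (hR a Z))) := by positivity
      simpa using this
  have h2 : ∑ Z, (Y Z)⁻¹ * ∑ u ∈ range (t + 1), (τ ^ u) ^ 2 * n2 u (hR a Z) ≤
      m ^ t * (2 ^ t * B) * MM Y f := by
    have e1 : ∀ Z : Finset X, (Y Z)⁻¹ * ∑ u ∈ range (t + 1), (τ ^ u) ^ 2 * n2 u (hR a Z) ≤
        ∑ J : Finset X, if Disjoint Z J then m ^ t * B * ((Y (Z ∪ J))⁻¹ * a (Z ∪ J) ^ 2)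
          else 0 := by
      intro Z
      have e2 : ∑ u ∈ range (t + 1), (τ ^ u) ^ 2 * n2 u (hR a Z) =
          ∑ J, (τ ^ J.card) ^ 2 * hR a Z J ^ 2 := by
        rw [sum_card t (fun J => (τ ^ J.card) ^ 2 * hR a Z J ^ 2)]
        · refine Finset.sum_congr rfl fun u _ => ?_
          unfold n2
          rw [Finset.mul_sum]
          refine Finset.sum_congr rfl fun J hJ => ?_
          rw [(Finset.mem_powersetCard.1 hJ).2]
        · intro J hJ
          have : hR a Z J = 0 := by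
            unfold hR
            split_ifs with h
            · exact hac _ (lt_of_lt_of_le hJ (Finset.card_le_card Finset.subset_union_right))
            · rfl
          rw [this]
          simp
      rw [e2, Finset.mul_sum]
      refine Finset.sum_le_sum fun J _ => ?_
      unfold hR
      by_cases hd : Disjoint Z J
      · rw [if_pos hd, if_pos hd]
        by_cases h0 : a (Z ∪ J) = 0
        · rw [h0]
          simp
        · have h3 := hap _ h0
          have h4 : (Z ∪ J).card ≤ t := by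
            by_contra h5
            exact h0 (hac _ (by omega))
          have h7 := hY.inv_le hρ hd h4 h3
          have hJt : J.card ≤ t := (Finset.card_le_card Finset.subset_union_right).trans h4
          have p2 : 0 < ρ ^ J.card := pow_pos hρ _
          have h8 : (τ ^ J.card) ^ 2 * ρ ^ J.card ≤ m ^ t := by
            rw [← pow_mul, mul_comm J.card 2, pow_mul, ← mul_pow]
            exact (pow_le_pow_left₀ (by positivity) hτm _).trans (pow_le_pow_right₀ hm hJt)
          have h9 : 0 ≤ B * (Y (Z ∪ J))⁻¹ := mul_nonneg hB (inv_nonneg.2 h3.le)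
          calc (Y Z)⁻¹ * ((τ ^ J.card) ^ 2 * a (Z ∪ J) ^ 2)
              = (((τ ^ J.card) ^ 2 * ρ ^ J.card) * ((Y Z)⁻¹ / ρ ^ J.card)) *
                a (Z ∪ J) ^ 2 := by
                field_simp
            _ ≤ (m ^ t * (B * (Y (Z ∪ J))⁻¹)) * a (Z ∪ J) ^ 2 := by
                refine mul_le_mul_of_nonneg_right ?_ (sq_nonneg _)
                refine mul_le_mul h8 h7 ?_ (by positivity)
                exact div_nonneg (inv_nonneg.2 (hY.nonneg Z)) p2.le
            _ = _ := by ring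
      · rw [if_neg hd, if_neg hd]
        simp
    refine (Finset.sum_le_sum fun Z _ => e1 Z).trans ?_
    have e2 := sum_disj t (fun S => m ^ t * B * ((Y S)⁻¹ * a S ^ 2))
      (fun S => mul_nonneg (by positivity) (mul_nonneg (inv_nonneg.2 (hY.nonneg S))
        (sq_nonneg _)))
      (fun S hS => by
        rw [hac S hS]
        simp)
    refine e2.trans (le_of_eq ?_)
    unfold MM
    rw [← Finset.mul_sum, ha]
    ring
  calc MM (fun S => Y S * pq q S) f
      ≤ ∑ Z, Q ^ t * ((Y Z)⁻¹ * ((t + 1) * ∑ u ∈ range (t + 1),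
        (τ ^ u) ^ 2 * n2 u (hR a Z))) := Finset.sum_le_sum fun Z _ => h1 Z
    _ = Q ^ t * (t + 1) * ∑ Z, (Y Z)⁻¹ * ∑ u ∈ range (t + 1), (τ ^ u) ^ 2 * n2 u (hR a Z) := by
        rw [Finset.mul_sum]
        refine Finset.sum_congr rfl fun Z _ => ?_
        ring
    _ ≤ Q ^ t * (t + 1) * (m ^ t * (2 ^ t * B) * MM Y f) :=
        mul_le_mul_of_nonneg_left h2 (by positivity)
    _ = _ := by ring

/-- the conditions on the parameters -/
structure Sml (K Λ σ ρ η m : ℝ) (s t : ℕ) : Prop where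
  hΛσ : Λ ≤ σ ^ 2
  hρ : 0 < ρ
  hρ1 : ρ ≤ 1
  hm : 1 ≤ m
  hη : ∀ u w : ℕ, 1 ≤ u → u ≤ t → 1 ≤ w → w ≤ t → Nuw K Λ σ t u w * √ρ ^ (u + w) ≤ η
  hη0 : 0 ≤ η
  hη1 : η * t * (2 ^ t * (K ^ (t ^ 2) * (K ^ s) ^ t)) ≤ 1 / 2
  hτ : (K ^ s * s * σ) ^ 2 * ρ ≤ m
  hF : 2 ^ s * (ρ * K ^ (s ^ 2)) * (3 * ((K ^ s) ^ t * (t + 1) * (m ^ t * (2 ^ t *
    (K ^ (t ^ 2) * (K ^ s) ^ t))))) ≤ 1

lemma gs_nonneg (hk : KK g K Λ σ) (S : Finset X) (x : X) : 0 ≤ gs g S x :=
  Finset.prod_nonneg fun s _ => hk.nonneg s x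

lemma gs_le (hk : KK g K Λ σ) {S : Finset X} {s : ℕ} (hS : S.card ≤ s) (x : X) :
    gs g S x ≤ K ^ s := by
  unfold gs
  calc ∏ s ∈ S, g s x ≤ ∏ _s ∈ S, K :=
        Finset.prod_le_prod (fun s _ => hk.nonneg s x) fun s _ => hk.le s x
    _ = K ^ S.card := by rw [Finset.prod_const]
    _ ≤ K ^ s := pow_le_pow_right₀ hk.K1 hS

lemma gs_row (hk : KK g K Λ σ) (hs : ∀ x y, g x y = g y x) {S : Finset X} {s : ℕ}
    (hS : S.card ≤ s) : ∑ x, (gs g S x - 1) ^ 2 ≤ (K ^ s * s * σ) ^ 2 := by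
  have hK0 : 0 ≤ K := by linarith [hk.K1]
  have h1 : ∀ x, gs g S x = pg g x S := by
    intro x
    unfold gs pg
    exact Finset.prod_congr rfl fun z _ => hs z x
  simp_rw [h1]
  refine (pg_col hk S).trans ?_
  have := hk.hσ
  refine pow_le_pow_left₀ (by positivity) ?_ 2
  refine mul_le_mul_of_nonneg_right ?_ this
  refine mul_le_mul (pow_le_pow_right₀ hk.K1 hS) ?_ (Nat.cast_nonneg _) (by positivity)
  exact_mod_cast hS

lemma yy_link (hs : ∀ x y, g x y = g y x) (hn : ∀ x y, 0 ≤ g x y) {A S : Finset X}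
    (hd : Disjoint A S) : yy ρ g (A ∪ S) = yy ρ g A * yp ρ g (gs g A) S := by
  rw [yy_union hs hn hd]
  unfold yp gg gs
  rw [Finset.prod_comm]
  ring

/-- the form of a link -/
lemma link_main {η m : ℝ} {s : ℕ} (hk : KK g K Λ σ) (hsym : ∀ x y, g x y = g y x)
    (hg0 : ∀ x, g x x = 0) (hS : Sml K Λ σ ρ η m s t) {A : Finset X} (hA : A.card ≤ s)
    (f : Finset X → ℝ) (hf : ∀ S, t < S.card → f S = 0) :
    |∑ S, ∑ T, f S * f T * yp ρ g (gs g A) (S ∪ T) - MM (yp ρ g (gs g A)) f| ≤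
      1 / 2 * MM (yp ρ g (gs g A)) f := by
  have hK := hk.K1
  have hK0 : 0 ≤ K := by linarith
  have hY := yp_pm hk hsym hS.hρ.le t (gs g A) (K ^ s) (one_le_pow₀ hK) (gs_nonneg hk A)
    (gs_le hk hA)
  refine (psd_main hk hY hg0 hS.hΛσ hS.hρ (by positivity) η hS.hη hS.hη0 f hf).trans ?_
  exact mul_le_mul_of_nonneg_right hS.hη1 (MM_nonneg hY f)

/-- the reduced function -/
noncomputable def rd (f : Finset X → ℝ) (D E S : Finset X) : ℝ :=
  ∑ T : Finset X, if Disjoint T E ∧ T \ D = S then f T else 0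

lemma rd_card {f : Finset X → ℝ} (hf : ∀ S, t < S.card → f S = 0) (D E : Finset X) :
    ∀ S, t < S.card → rd f D E S = 0 := by
  intro S hS
  unfold rd
  refine Finset.sum_eq_zero fun T _ => ?_
  split_ifs with h
  · refine hf T (lt_of_lt_of_le hS ?_)
    rw [← h.2]
    exact Finset.card_le_card Finset.sdiff_subset
  · rfl

lemma rd_disj (f : Finset X → ℝ) (D E S : Finset X) (h : ¬ (Disjoint D S ∧ Disjoint E S)) :
    rd f D E S = 0 := by
  unfold rd
  refine Finset.sum_eq_zero fun T _ => ?_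
  rw [if_neg]
  rintro ⟨h1, h2⟩
  apply h
  rw [← h2]
  exact ⟨Finset.disjoint_sdiff, (Finset.disjoint_of_subset_left Finset.sdiff_subset h1).symm⟩

lemma cond_reduce (y : Finset X → ℝ) (f : Finset X → ℝ) (D E : Finset X) :
    ∑ S, ∑ T, f S * f T * KP.cond y D E (S ∪ T) =
      ∑ S, ∑ T, rd f D E S * rd f D E T * KP.cond y D E (S ∪ T) := by
  have h1 : ∀ S T : Finset X, f S * f T * KP.cond y D E (S ∪ T) =
      (if Disjoint S E then f S else 0) * (if Disjoint T E then f T else 0) *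
        KP.cond y D E ((S \ D) ∪ (T \ D)) := by
    intro S T
    by_cases h2 : Disjoint S E
    · by_cases h3 : Disjoint T E
      · rw [if_pos h2, if_pos h3]
        congr 1
        unfold KP.cond
        refine Finset.sum_congr rfl fun F _ => ?_
        congr 2
        ext x
        simp only [mem_union, mem_sdiff]
        tauto
      · rw [if_neg h3]
        obtain ⟨x, hx1, hx2⟩ := Finset.not_disjoint_iff.1 h3
        rw [KP.cond_zero y hx2 (Finset.mem_union_right _ (Finset.mem_union_right _ hx1))]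
        ring
    · rw [if_neg h2]
      obtain ⟨x, hx1, hx2⟩ := Finset.not_disjoint_iff.1 h2
      rw [KP.cond_zero y hx2 (Finset.mem_union_right _ (Finset.mem_union_left _ hx1))]
      ring
  rw [Finset.sum_congr rfl fun S _ => Finset.sum_congr rfl fun T _ => h1 S T]
  have h2 : ∀ S T : Finset X, rd f D E S * rd f D E T * KP.cond y D E (S ∪ T) =
      ∑ S', ∑ T', if S' \ D = S ∧ T' \ D = T then (if Disjoint S' E then f S' else 0) *
        (if Disjoint T' E then f T' else 0) * KP.cond y D E ((S' \ D) ∪ (T' \ D)) else 0 := by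
    intro S T
    unfold rd
    rw [Finset.sum_mul_sum, Finset.sum_mul]
    refine Finset.sum_congr rfl fun S' _ => ?_
    rw [Finset.sum_mul]
    refine Finset.sum_congr rfl fun T' _ => ?_
    by_cases e1 : S' \ D = S
    · by_cases e2 : T' \ D = T
      · rw [if_pos (show S' \ D = S ∧ T' \ D = T from ⟨e1, e2⟩), ← e1, ← e2]
        simp only [and_true]
      · rw [if_neg (show ¬ (S' \ D = S ∧ T' \ D = T) from fun h => e2 h.2),
          if_neg (show ¬ (Disjoint T' E ∧ T' \ D = T) from fun h => e2 h.2)]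
        ring
    · rw [if_neg (show ¬ (S' \ D = S ∧ T' \ D = T) from fun h => e1 h.1),
        if_neg (show ¬ (Disjoint S' E ∧ S' \ D = S) from fun h => e1 h.2)]
      ring
  rw [Finset.sum_congr rfl fun S _ => Finset.sum_congr rfl fun T _ => h2 S T]
  symm
  have h3 : ∀ F : Finset X → Finset X → ℝ, ∑ S : Finset X, ∑ T : Finset X,
      ∑ S' : Finset X, ∑ T' : Finset X, (if S' \ D = S ∧ T' \ D = T then F S' T' else 0) =
      ∑ S', ∑ T', F S' T' := by
    intro F
    have e1 : ∀ S : Finset X, ∑ T : Finset X, ∑ S' : Finset X, ∑ T' : Finset X,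
        (if S' \ D = S ∧ T' \ D = T then F S' T' else 0) =
        ∑ S' : Finset X, if S' \ D = S then ∑ T', F S' T' else 0 := by
      intro S
      rw [Finset.sum_comm]
      refine Finset.sum_congr rfl fun S' _ => ?_
      rw [Finset.sum_comm]
      by_cases h : S' \ D = S
      · rw [if_pos h]
        refine Finset.sum_congr rfl fun T' _ => ?_
        simp [h]
      · rw [if_neg h]
        refine Finset.sum_eq_zero fun T' _ => Finset.sum_eq_zero fun T _ => ?_
        rw [if_neg fun h2 => h h2.1]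
    rw [Finset.sum_congr rfl fun S _ => e1 S, Finset.sum_comm]
    refine Finset.sum_congr rfl fun S' _ => ?_
    simp
  exact h3 _

/-- **The conditioned moment matrices of the product ansatz are positive semidefinite.** -/
theorem psd_cond {η m : ℝ} {s : ℕ} (hk : KK g K Λ σ) (hsym : ∀ x y, g x y = g y x)
    (hg0 : ∀ x, g x x = 0) (hS : Sml K Λ σ ρ η m s t) (D E : Finset X)
    (hDE : D.card + E.card ≤ s) (f : Finset X → ℝ) (hf : ∀ S, t < S.card → f S = 0) :
    0 ≤ ∑ S, ∑ T, f S * f T * KP.cond (yy ρ g) D E (S ∪ T) := by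
  have hK := hk.K1
  have hK0 : 0 ≤ K := by linarith
  have hn := hk.nonneg
  have hm0 : 0 ≤ m := by linarith [hS.hm]
  by_cases hDEd : Disjoint D E
  swap
  · obtain ⟨x, hx1, hx2⟩ := Finset.not_disjoint_iff.1 hDEd
    refine le_of_eq ?_
    symm
    refine Finset.sum_eq_zero fun S _ => Finset.sum_eq_zero fun T _ => ?_
    rw [KP.cond_zero (yy ρ g) hx2 (Finset.mem_union_left _ hx1), mul_zero]
  rw [cond_reduce]
  obtain ⟨φ, hφ⟩ : ∃ φ : Finset X → ℝ, φ = rd f D E := ⟨_, rfl⟩
  rw [← hφ]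
  have hφc : ∀ S, t < S.card → φ S = 0 := by
    rw [hφ]
    exact rd_card hf D E
  have hφd : ∀ S, ¬ (Disjoint D S ∧ Disjoint E S) → φ S = 0 := by
    rw [hφ]
    exact rd_disj f D E
  obtain ⟨Q, hQ⟩ : ∃ Q : Finset X → ℝ, Q = fun F => ∑ S, ∑ T, φ S * φ T *
      yp ρ g (gs g (D ∪ F)) (S ∪ T) := ⟨_, rfl⟩
  have h1 : ∑ S, ∑ T, φ S * φ T * KP.cond (yy ρ g) D E (S ∪ T) =
      ∑ F ∈ E.powerset, (-1) ^ F.card * (yy ρ g (D ∪ F) * Q F) := by
    have e1 : ∀ S T : Finset X, φ S * φ T * KP.cond (yy ρ g) D E (S ∪ T) =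
        ∑ F ∈ E.powerset, (-1) ^ F.card * (yy ρ g (D ∪ F) * (φ S * φ T *
          yp ρ g (gs g (D ∪ F)) (S ∪ T))) := by
      intro S T
      by_cases h2 : Disjoint D S ∧ Disjoint E S
      · by_cases h3 : Disjoint D T ∧ Disjoint E T
        · unfold KP.cond
          rw [Finset.mul_sum]
          refine Finset.sum_congr rfl fun F hF => ?_
          have hF' := Finset.mem_powerset.1 hF
          have hd : Disjoint (D ∪ F) (S ∪ T) := by
            rw [Finset.disjoint_union_left, Finset.disjoint_union_right,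
              Finset.disjoint_union_right]
            exact ⟨⟨h2.1, h3.1⟩, Finset.disjoint_of_subset_left hF' h2.2,
              Finset.disjoint_of_subset_left hF' h3.2⟩
          rw [yy_link hsym hn hd]
          ring
        · rw [hφd T h3]
          simp
      · rw [hφd S h2]
        simp
    rw [Finset.sum_congr rfl fun S _ => Finset.sum_congr rfl fun T _ => e1 S T]
    rw [Finset.sum_congr rfl fun S _ => Finset.sum_comm, Finset.sum_comm]
    refine Finset.sum_congr rfl fun F _ => ?_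
    rw [hQ, Finset.mul_sum, Finset.mul_sum]
    refine Finset.sum_congr rfl fun S _ => ?_
    rw [Finset.mul_sum, Finset.mul_sum]
  rw [h1]
  have hDc : D.card ≤ s := by omega
  have hcard : ∀ F ∈ E.powerset, (D ∪ F).card ≤ s := by
    intro F hF
    have h2 := Finset.card_le_card (Finset.mem_powerset.1 hF)
    have h3 := Finset.card_union_le D F
    omega
  obtain ⟨M, hM⟩ : ∃ M : ℝ, M = MM (yp ρ g (gs g D)) φ := ⟨_, rfl⟩
  have hYD := yp_pm hk hsym hS.hρ.le t (gs g D) (K ^ s) (one_le_pow₀ hK) (gs_nonneg hk D)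
    (gs_le hk hDc)
  have hM0 : 0 ≤ M := by
    rw [hM]
    exact MM_nonneg hYD φ
  obtain ⟨C, hC⟩ : ∃ C : ℝ, C = (K ^ s) ^ t * (t + 1) * (m ^ t * (2 ^ t *
      (K ^ (t ^ 2) * (K ^ s) ^ t))) := ⟨_, rfl⟩
  have hC0 : 0 ≤ C := by
    rw [hC]
    positivity
  have h2 : ∀ F ∈ E.powerset, |Q F| ≤ 3 / 2 * (C * M) := by
    intro F hF
    have hFs : F.card ≤ s := by
      have := Finset.card_le_card (Finset.mem_powerset.1 hF)
      omega
    have e1 := link_main hk hsym hg0 hS (hcard F hF) φ hφc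
    have e2 : MM (yp ρ g (gs g (D ∪ F))) φ ≤ C * M := by
      have hd : Disjoint D F := Finset.disjoint_of_subset_right (Finset.mem_powerset.1 hF) hDEd
      have e3 : yp ρ g (gs g (D ∪ F)) = fun S => yp ρ g (gs g D) S * pq (gs g F) S := by
        funext S
        unfold yp pq
        have : ∀ x, gs g (D ∪ F) x = gs g D x * gs g F x := by
          intro x
          unfold gs
          rw [Finset.prod_union hd]
        simp_rw [this]
        rw [Finset.prod_mul_distrib]
        ring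
      rw [e3, hM, hC]
      exact MM_weight hYD hS.hρ (by positivity) (gs g F) (gs_nonneg hk F) (K ^ s)
        (K ^ s * s * σ) m (one_le_pow₀ hK) (gs_le hk hFs) hS.hm hS.hτ (gs_row hk hsym hFs) φ hφc
    have e4 := MM_nonneg (yp_pm hk hsym hS.hρ.le t (gs g (D ∪ F)) (K ^ s) (one_le_pow₀ hK)
      (gs_nonneg hk (D ∪ F)) (gs_le hk (hcard F hF))) φ
    have e5 : ∑ S, ∑ T, φ S * φ T * yp ρ g (gs g (D ∪ F)) (S ∪ T) = Q F := by rw [hQ]
    rw [e5, abs_le] at e1
    rw [abs_le]
    constructor <;> linarith [e1.1, e1.2]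
  have h3 : 1 / 2 * M ≤ Q ∅ := by
    have e1 := link_main hk hsym hg0 hS hDc φ hφc
    have e2 : Q ∅ = ∑ S, ∑ T, φ S * φ T * yp ρ g (gs g D) (S ∪ T) := by
      rw [hQ]
      simp only [Finset.union_empty]
    rw [e2]
    rw [← hM] at e1
    linarith [(abs_le.1 e1).1]
  have hyD := yy_nonneg hS.hρ.le g D
  have h4 : ∀ F ∈ E.powerset.erase ∅, |(-1) ^ F.card * (yy ρ g (D ∪ F) * Q F)| ≤
      yy ρ g D * (ρ * K ^ (s ^ 2) * (3 / 2 * (C * M))) := by
    intro F hF
    have hF1 := Finset.mem_of_mem_erase hF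
    have hF2 : F ≠ ∅ := Finset.ne_of_mem_erase hF
    have hd : Disjoint D F := Finset.disjoint_of_subset_right (Finset.mem_powerset.1 hF1) hDEd
    have e1 : yy ρ g (D ∪ F) ≤ yy ρ g D * (ρ * K ^ (s ^ 2)) := by
      unfold yy
      have e2 := pr_sub hk hsym hd (hcard F hF1)
      rw [Finset.card_union_of_disjoint hd, pow_add]
      have e3 : ρ ^ F.card ≤ ρ := by
        have : 1 ≤ F.card := Finset.card_pos.2 (Finset.nonempty_iff_ne_empty.2 hF2)
        calc ρ ^ F.card ≤ ρ ^ 1 := pow_le_pow_of_le_one hS.hρ.le hS.hρ1 this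
          _ = ρ := pow_one ρ
      have e4 : 0 ≤ ρ ^ D.card := pow_nonneg hS.hρ.le _
      have e5 := pr_nonneg g D
      calc ρ ^ D.card * ρ ^ F.card * pr g (D ∪ F)
          ≤ ρ ^ D.card * ρ * (K ^ (s ^ 2) * pr g D) :=
            mul_le_mul (mul_le_mul_of_nonneg_left e3 e4) e2 (pr_nonneg g _)
              (mul_nonneg e4 hS.hρ.le)
        _ = _ := by ring
    rw [abs_mul, abs_pow, abs_neg, abs_one, one_pow, one_mul, abs_mul,
      abs_of_nonneg (yy_nonneg hS.hρ.le g _)]
    have e6 := hS.hρ.le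
    calc yy ρ g (D ∪ F) * |Q F| ≤ yy ρ g D * (ρ * K ^ (s ^ 2)) * (3 / 2 * (C * M)) :=
          mul_le_mul e1 (h2 F hF1) (abs_nonneg _) (by positivity)
      _ = _ := by ring
  have h5 : ∑ F ∈ E.powerset, (-1) ^ F.card * (yy ρ g (D ∪ F) * Q F) =
      yy ρ g D * Q ∅ + ∑ F ∈ E.powerset.erase ∅, (-1) ^ F.card * (yy ρ g (D ∪ F) * Q F) := by
    rw [← Finset.add_sum_erase _ _ (Finset.empty_mem_powerset E)]
    simp
  have h6 : |∑ F ∈ E.powerset.erase ∅, (-1) ^ F.card * (yy ρ g (D ∪ F) * Q F)| ≤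
      yy ρ g D * (1 / 2 * M) := by
    refine (Finset.abs_sum_le_sum_abs _ _).trans ((Finset.sum_le_sum h4).trans ?_)
    rw [Finset.sum_const, nsmul_eq_mul]
    have e1 : ((E.powerset.erase ∅).card : ℝ) ≤ 2 ^ s := by
      have e2 : (E.powerset.erase ∅).card ≤ 2 ^ s := by
        refine (Finset.card_erase_le).trans ?_
        rw [Finset.card_powerset]
        exact Nat.pow_le_pow_right (by norm_num) (by omega)
      exact_mod_cast e2
    have e3 := hS.hF
    rw [← hC] at e3
    have e6 := hS.hρ.le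
    calc ((E.powerset.erase ∅).card : ℝ) * (yy ρ g D * (ρ * K ^ (s ^ 2) * (3 / 2 * (C * M))))
        ≤ 2 ^ s * (yy ρ g D * (ρ * K ^ (s ^ 2) * (3 / 2 * (C * M)))) :=
          mul_le_mul_of_nonneg_right e1 (by positivity)
      _ = 1 / 2 * (yy ρ g D * M) * (2 ^ s * (ρ * K ^ (s ^ 2)) * (3 * C)) := by ring
      _ ≤ 1 / 2 * (yy ρ g D * M) * 1 := mul_le_mul_of_nonneg_left e3 (by positivity)
      _ = yy ρ g D * (1 / 2 * M) := by ring
  rw [h5]
  have h7 := mul_le_mul_of_nonneg_left h3 hyD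
  linarith [(abs_le.1 h6).1]

end

end Pool.Agent.Y570.LS
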