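import Mathlib
import Pool.Agent.TH41.BL.KRA
import Pool.Agent.TH41.BL.CE7

/-!
Y570/LS (helper570, MP_0430e4_lc): radial functions on the cube with few low frequencies.
-/

set_option autoImplicit false
set_option linter.unusedSectionVars false

namespace Pool.Agent.Y570.LS

open Finset Pool.Agent.TH41.BL

/-- the inner product of radial functions -/
noncomputable def ipr (n : ℕ) (f h : ℕ → ℝ) : ℝ :=
  ∑ w ∈ range (n + 1), (n.choose w : ℝ) * (f w * h w)

lemma ipr_self_nonneg (n : ℕ) (f : ℕ → ℝ) : 0 ≤ ipr n f f :=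
  Finset.sum_nonneg fun w _ => mul_nonneg (Nat.cast_nonneg _) (mul_self_nonneg _)

lemma ipr_congr {n : ℕ} {f f' h h' : ℕ → ℝ} (h1 : ∀ w ≤ n, f w = f' w) (h2 : ∀ w ≤ n, h w = h' w) :
    ipr n f h = ipr n f' h' := by
  unfold ipr
  refine Finset.sum_congr rfl fun w hw => ?_
  have : w ≤ n := by
    have := Finset.mem_range.1 hw
    omega
  rw [h1 w this, h2 w this]

lemma tr_congr {n : ℕ} {f f' : ℕ → ℝ} (h1 : ∀ w ≤ n, f w = f' w) (j : ℕ) :
    tr n f j = tr n f' j := by
  unfold tr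
  congr 1
  refine Finset.sum_congr rfl fun w hw => ?_
  have : w ≤ n := by
    have := Finset.mem_range.1 hw
    omega
  rw [h1 w this]

lemma s2 (n : ℕ) : (√2 : ℝ) ^ n * √2 ^ n = 2 ^ n := by
  rw [← mul_pow, Real.mul_self_sqrt (by norm_num)]

lemma s2_pos (n : ℕ) : (0 : ℝ) < √2 ^ n := by positivity

lemma tr_tr (n : ℕ) (f : ℕ → ℝ) (j : ℕ) (hj : j ≤ n) : tr n (tr n f) j = f j := by
  have h1 : ∑ w ∈ range (n + 1), tr n f w * (kr n w j : ℝ) =
      (√2 ^ n)⁻¹ * ∑ i ∈ range (n + 1), f i * ∑ w ∈ range (n + 1),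
        (kr n i w : ℝ) * (kr n w j : ℝ) := by
    unfold tr
    have e1 : ∀ w ∈ range (n + 1), (√2 ^ n)⁻¹ * (∑ w_1 ∈ range (n + 1), f w_1 * (kr n w_1 w : ℝ)) *
        (kr n w j : ℝ) = ∑ i ∈ range (n + 1), (√2 ^ n)⁻¹ * (f i * ((kr n i w : ℝ) *
          (kr n w j : ℝ))) := by
      intro w _
      rw [mul_assoc, Finset.sum_mul, Finset.mul_sum]
      refine Finset.sum_congr rfl fun i _ => ?_
      ring
    rw [Finset.sum_congr rfl e1, Finset.sum_comm, Finset.mul_sum]
    refine Finset.sum_congr rfl fun i _ => ?_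
    rw [Finset.mul_sum, Finset.mul_sum]
  have h2 : tr n (tr n f) j = (√2 ^ n)⁻¹ * ∑ w ∈ range (n + 1), tr n f w * (kr n w j : ℝ) := rfl
  rw [h2, h1]
  have h3 : ∑ i ∈ range (n + 1), f i * ∑ w ∈ range (n + 1),
      (kr n i w : ℝ) * (kr n w j : ℝ) = 2 ^ n * f j := by
    have e1 : ∀ i ∈ range (n + 1), f i * ∑ w ∈ range (n + 1),
        (kr n i w : ℝ) * (kr n w j : ℝ) = if i = j then 2 ^ n * f j else 0 := by
      intro i _
      rw [KRAf.inv n i j hj]
      by_cases h : i = j
      · rw [if_pos h, if_pos h, h]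
        ring
      · rw [if_neg h, if_neg h, mul_zero]
    rw [Finset.sum_congr rfl e1, Finset.sum_ite_eq', if_pos]
    exact Finset.mem_range.2 (by omega)
  rw [h3, ← mul_assoc, ← mul_assoc, ← mul_inv, s2, inv_mul_cancel₀ (by positivity), one_mul]

lemma ipr_tr (n : ℕ) (f h : ℕ → ℝ) : ipr n (tr n f) h = ipr n f (tr n h) := by
  have h1 : ipr n (tr n f) h = (√2 ^ n)⁻¹ * ∑ j ∈ range (n + 1), ∑ w ∈ range (n + 1),
      (n.choose j : ℝ) * (kr n w j : ℝ) * (f w * h j) := by
    unfold ipr tr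
    rw [Finset.mul_sum]
    refine Finset.sum_congr rfl fun j _ => ?_
    rw [mul_assoc, ← mul_assoc (n.choose j : ℝ), mul_comm (n.choose j : ℝ), mul_assoc]
    congr 1
    rw [Finset.sum_mul, Finset.mul_sum]
    refine Finset.sum_congr rfl fun w _ => ?_
    ring
  have h2 : ipr n f (tr n h) = (√2 ^ n)⁻¹ * ∑ w ∈ range (n + 1), ∑ j ∈ range (n + 1),
      (n.choose w : ℝ) * (kr n j w : ℝ) * (f w * h j) := by
    unfold ipr tr
    rw [Finset.mul_sum]
    refine Finset.sum_congr rfl fun w _ => ?_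
    rw [Finset.mul_sum, Finset.mul_sum, Finset.mul_sum, Finset.mul_sum]
    refine Finset.sum_congr rfl fun j _ => ?_
    ring
  rw [h1, h2, Finset.sum_comm]
  congr 1
  refine Finset.sum_congr rfl fun w hw => Finset.sum_congr rfl fun j _ => ?_
  have : w ≤ n := by
    have := Finset.mem_range.1 hw
    omega
  rw [CE7f.kr_symm n j w this]

lemma parseval (n : ℕ) (f : ℕ → ℝ) : ipr n (tr n f) (tr n f) = ipr n f f := by
  rw [ipr_tr]
  exact ipr_congr (fun _ _ => rfl) fun w hw => tr_tr n f w hw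

/-- the recursion of the Krawtchouk polynomials -/
lemma kr_rec (n j : ℕ) (hj : j ≤ n) (w : ℕ) :
    ((w : ℝ) + 1 + 1) * (kr n (w + 1 + 1) j : ℝ) + ((n : ℝ) - w) * (kr n w j : ℝ) =
      ((n : ℝ) - 2 * j) * (kr n (w + 1) j : ℝ) ∧
    (kr n 1 j : ℝ) = ((n : ℝ) - 2 * j) * (kr n 0 j : ℝ) := by
  obtain ⟨P, hP⟩ : ∃ P : Polynomial ℝ, P = KRAf.G n j 1 1 := ⟨_, rfl⟩
  have hc : ∀ w, P.coeff w = (kr n w j : ℝ) := by
    intro w
    rw [hP, KRAf.coeff_G n j w hj 1 1]
    simp
  obtain ⟨k, hk⟩ : ∃ k, n = k + j := ⟨n - j, by omega⟩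
  have hPe : P = (1 + Polynomial.X) ^ k * (1 - Polynomial.X) ^ j := by
    rw [hP]
    unfold KRAf.G
    rw [hk, Nat.add_sub_cancel]
    simp
  have hd : (1 - Polynomial.X ^ 2) * Polynomial.derivative P =
      (Polynomial.C ((n : ℝ) - 2 * j) - Polynomial.C (n : ℝ) * Polynomial.X) * P := by
    have e1 : ∀ (a : ℕ) (p : Polynomial ℝ), (a : Polynomial ℝ) * p ^ (a - 1) * p =
        (a : Polynomial ℝ) * p ^ a := by
      intro a p
      rcases Nat.eq_zero_or_pos a with h | h
      · rw [h]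
        simp
      · obtain ⟨b, rfl⟩ : ∃ b, a = b + 1 := ⟨a - 1, by omega⟩
        rw [Nat.add_sub_cancel, pow_succ]
        ring
    rw [hPe, Polynomial.derivative_mul, Polynomial.derivative_pow, Polynomial.derivative_pow]
    simp only [Polynomial.derivative_add, Polynomial.derivative_sub, Polynomial.derivative_one,
      Polynomial.derivative_X, zero_add, zero_sub, mul_one, map_natCast]
    have e2 := e1 k (1 + Polynomial.X)
    have e3 := e1 j (1 - Polynomial.X)
    have e4 : (Polynomial.C ((n : ℝ) - 2 * j) : Polynomial ℝ) = (k : Polynomial ℝ) - j := by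
      rw [hk]
      push_cast
      simp only [map_sub, map_add, map_mul, map_natCast, Polynomial.C_ofNat]
      ring
    rw [e4, hk]
    push_cast
    calc (1 - Polynomial.X ^ 2) * ((k : Polynomial ℝ) * (1 + Polynomial.X) ^ (k - 1) *
          (1 - Polynomial.X) ^ j + (1 + Polynomial.X) ^ k *
          ((j : Polynomial ℝ) * (1 - Polynomial.X) ^ (j - 1) * -1))
        = ((k : Polynomial ℝ) * (1 + Polynomial.X) ^ (k - 1) * (1 + Polynomial.X)) *
          (1 - Polynomial.X) ^ j * (1 - Polynomial.X) -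
          ((j : Polynomial ℝ) * (1 - Polynomial.X) ^ (j - 1) * (1 - Polynomial.X)) *
          (1 + Polynomial.X) ^ k * (1 + Polynomial.X) := by ring
      _ = _ := by
          rw [e2, e3]
          ring
  have hcoef : ∀ w, ((1 - Polynomial.X ^ 2) * Polynomial.derivative P).coeff (w + 2) =
      (w + 2 + 1) * P.coeff (w + 2 + 1) - (w + 1) * P.coeff (w + 1) := by
    intro w
    rw [sub_mul, one_mul, Polynomial.coeff_sub, Polynomial.coeff_derivative,
      Polynomial.coeff_X_pow_mul, Polynomial.coeff_derivative]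
    push_cast
    ring
  have hcoef2 : ∀ w, ((Polynomial.C ((n : ℝ) - 2 * j) - Polynomial.C (n : ℝ) * Polynomial.X) *
      P).coeff (w + 1) = ((n : ℝ) - 2 * j) * P.coeff (w + 1) - n * P.coeff w := by
    intro w
    rw [sub_mul, Polynomial.coeff_sub, Polynomial.coeff_C_mul, mul_assoc, Polynomial.coeff_C_mul,
      Polynomial.coeff_X_mul]
  have h0 : P.coeff 1 = ((n : ℝ) - 2 * j) * P.coeff 0 := by
    have e1 := congrArg (fun p => Polynomial.coeff p 0) hd
    simp only [sub_mul, one_mul, Polynomial.coeff_sub, Polynomial.coeff_C_mul,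
      Polynomial.coeff_derivative, mul_assoc] at e1
    have e2 : (Polynomial.X ^ 2 * Polynomial.derivative P).coeff 0 = 0 := by
      rw [Polynomial.mul_coeff_zero]
      simp
    have e3 : (Polynomial.X * P).coeff 0 = 0 := by
      rw [Polynomial.mul_coeff_zero]
      simp
    rw [e2, e3] at e1
    push_cast at e1
    linarith
  refine ⟨?_, by rw [← hc, ← hc]; exact h0⟩
  rw [← hc, ← hc, ← hc]
  rcases Nat.eq_zero_or_pos w with h | h
  · subst h
    have e1 := congrArg (fun p => Polynomial.coeff p 1) hd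
    rw [hcoef2 0] at e1
    have e2 : ((1 - Polynomial.X ^ 2) * Polynomial.derivative P).coeff 1 =
        2 * P.coeff 2 := by
      rw [sub_mul, one_mul, Polynomial.coeff_sub, Polynomial.coeff_derivative]
      have e3 : (Polynomial.X ^ 2 * Polynomial.derivative P).coeff 1 = 0 := by
        rw [Polynomial.coeff_X_pow_mul']
        simp
      rw [e3]
      push_cast
      ring
    rw [e2] at e1
    push_cast
    norm_num at e1 ⊢
    linarith
  · obtain ⟨v, rfl⟩ : ∃ v, w = v + 1 := ⟨w - 1, by omega⟩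
    have e1 := congrArg (fun p => Polynomial.coeff p (v + 2)) hd
    rw [hcoef, hcoef2 (v + 1)] at e1
    push_cast
    have e2 : v + 1 + 1 + 1 = v + 2 + 1 := by ring
    have e3 : v + 1 + 1 = v + 2 := by ring
    rw [e2, e3] at *
    linarith

end Pool.Agent.Y570.LS
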