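import Mathlib
import Pool.Agent.Y570.LS.Radial

/-!
Y570/LS (helper570, MP_0430e4_lc): the adjacency operator and functions supported near the ends.
-/

set_option autoImplicit false
set_option linter.unusedSectionVars false

namespace Pool.Agent.Y570.LS

open Finset Pool.Agent.TH41.BL

/-- the adjacency operator of the cube, on radial functions -/
noncomputable def af (n : ℕ) (f : ℕ → ℝ) (w : ℕ) : ℝ :=
  (w : ℝ) * f (w - 1) + ((n : ℝ) - w) * f (w + 1)

lemma kr_top (n j : ℕ) (hj : j ≤ n) : (kr n (n + 1) j : ℝ) = 0 := by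
  have h1 := KRAf.coeff_G (R := ℝ) n j (n + 1) hj 1 1
  have h2 := KRAf.natDegree_G (R := ℝ) n j hj 1 1
  rw [Polynomial.coeff_eq_zero_of_natDegree_lt (by omega)] at h1
  simp only [one_pow, mul_one] at h1
  exact_mod_cast h1.symm

lemma tr_af (n : ℕ) (f : ℕ → ℝ) (j : ℕ) (hj : j ≤ n) :
    tr n (af n f) j = ((n : ℝ) - 2 * j) * tr n f j := by
  have h1 : ∑ w ∈ range (n + 1), (w : ℝ) * f (w - 1) * (kr n w j : ℝ) =
      ∑ v ∈ range (n + 1), f v * (((v : ℝ) + 1) * (kr n (v + 1) j : ℝ)) := by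
    rw [Finset.sum_range_succ', Finset.sum_range_succ (n := n)]
    rw [kr_top n j hj]
    simp only [Nat.cast_zero, zero_mul, add_zero, mul_zero]
    refine Finset.sum_congr rfl fun v _ => ?_
    rw [Nat.add_sub_cancel]
    push_cast
    ring
  have h2 : ∑ w ∈ range (n + 1), ((n : ℝ) - w) * f (w + 1) * (kr n w j : ℝ) =
      ∑ v ∈ range n, f (v + 1) * (((n : ℝ) - v) * (kr n v j : ℝ)) := by
    rw [Finset.sum_range_succ]
    simp only [sub_self, zero_mul, add_zero]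
    refine Finset.sum_congr rfl fun v _ => ?_
    ring
  have h3 : ∑ w ∈ range (n + 1), af n f w * (kr n w j : ℝ) =
      ((n : ℝ) - 2 * j) * ∑ w ∈ range (n + 1), f w * (kr n w j : ℝ) := by
    have e1 : ∑ w ∈ range (n + 1), af n f w * (kr n w j : ℝ) =
        ∑ w ∈ range (n + 1), (w : ℝ) * f (w - 1) * (kr n w j : ℝ) +
        ∑ w ∈ range (n + 1), ((n : ℝ) - w) * f (w + 1) * (kr n w j : ℝ) := by
      rw [← Finset.sum_add_distrib]
      refine Finset.sum_congr rfl fun w _ => ?_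
      unfold af
      ring
    rw [e1, h1, h2, Finset.sum_range_succ', Finset.sum_range_succ', mul_add, Finset.mul_sum]
    have e2 := (kr_rec n j hj 0).2
    have e3 : ∑ k ∈ range n, f (k + 1) * (((k + 1 : ℕ) : ℝ) + 1) * (kr n (k + 1 + 1) j : ℝ) +
        ∑ v ∈ range n, f (v + 1) * (((n : ℝ) - v) * (kr n v j : ℝ)) =
        ∑ k ∈ range n, ((n : ℝ) - 2 * j) * (f (k + 1) * (kr n (k + 1) j : ℝ)) := by
      rw [← Finset.sum_add_distrib]
      refine Finset.sum_congr rfl fun v _ => ?_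
      have e4 := (kr_rec n j hj v).1
      push_cast
      linear_combination f (v + 1) * e4
    have e5 : ∑ k ∈ range n, f (k + 1) * ((((k + 1 : ℕ) : ℝ) + 1) * (kr n (k + 1 + 1) j : ℝ)) =
        ∑ k ∈ range n, f (k + 1) * (((k + 1 : ℕ) : ℝ) + 1) * (kr n (k + 1 + 1) j : ℝ) :=
      Finset.sum_congr rfl fun k _ => by ring
    rw [e5]
    simp only [Nat.cast_zero, zero_add, one_mul]
    rw [e2]
    linear_combination e3
  unfold tr
  rw [h3]
  ring

/-- the two ends -/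
def Bs (n m : ℕ) : Set ℕ := {w | w < m ∨ n < w + m}

lemma af_bound (n m : ℕ) (hm : 2 * m ≤ n + 1) (f : ℕ → ℝ) (hf : ∀ w ≤ n, w ∉ Bs n m → f w = 0) :
    ipr n (af n f) (af n f) ≤ 4 * ((m : ℝ) * ((n : ℝ) - m + 1)) * ipr n f f := by
  have hM : ∀ v : ℕ, v ≤ n → v ∈ Bs n m → ((n : ℝ) - v) * (v + 1) ≤ (m : ℝ) * ((n : ℝ) - m + 1) ∧
      (v : ℝ) * ((n : ℝ) - v + 1) ≤ (m : ℝ) * ((n : ℝ) - m + 1) := by
    intro v hv hB
    have h0 : (2 : ℝ) * m ≤ n + 1 := by exact_mod_cast hm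
    have hv' : (v : ℝ) ≤ n := by exact_mod_cast hv
    have hv0 : (0 : ℝ) ≤ v := Nat.cast_nonneg v
    rcases hB with h | h
    · have h1 : (v : ℝ) + 1 ≤ m := by exact_mod_cast h
      constructor <;> nlinarith
    · have h1 : (n : ℝ) + 1 ≤ v + m := by exact_mod_cast h
      constructor <;> nlinarith
  obtain ⟨M, hMd⟩ : ∃ M : ℝ, M = (m : ℝ) * ((n : ℝ) - m + 1) := ⟨_, rfl⟩
  have hM0 : 0 ≤ M := by
    have h0 : (2 : ℝ) * m ≤ n + 1 := by exact_mod_cast hm
    have h1 : (0 : ℝ) ≤ m := Nat.cast_nonneg m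
    rw [hMd]
    exact mul_nonneg h1 (by linarith)
  rw [← hMd] at hM ⊢
  have hpt : ∀ v : ℕ, v ≤ n → ((n : ℝ) - v) * (v + 1) * f v ^ 2 ≤ M * f v ^ 2 ∧
      (v : ℝ) * ((n : ℝ) - v + 1) * f v ^ 2 ≤ M * f v ^ 2 := by
    intro v hv
    by_cases hB : v ∈ Bs n m
    · obtain ⟨e1, e2⟩ := hM v hv hB
      exact ⟨mul_le_mul_of_nonneg_right e1 (sq_nonneg _),
        mul_le_mul_of_nonneg_right e2 (sq_nonneg _)⟩
    · rw [hf v hv hB]
      simp
  have h1 : ∑ w ∈ range (n + 1), (n.choose w : ℝ) * ((w : ℝ) * f (w - 1)) ^ 2 ≤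
      M * ipr n f f := by
    rw [Finset.sum_range_succ']
    unfold ipr
    rw [Finset.mul_sum, Finset.sum_range_succ (fun w => M * ((n.choose w : ℝ) * (f w * f w)))]
    refine add_le_add (Finset.sum_le_sum fun v hv => ?_) ?_
    · have hv' : v ≤ n := (Finset.mem_range.1 hv).le
      have e1 : ((n.choose (v + 1) : ℕ) : ℝ) * ((v : ℝ) + 1) = (n.choose v : ℝ) * ((n : ℝ) - v) := by
        have := Nat.choose_succ_right_eq n v
        have e2 : ((n - v : ℕ) : ℝ) = (n : ℝ) - v := Nat.cast_sub hv'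
        rw [← e2]
        exact_mod_cast this
      have e3 := (hpt v hv').1
      have e4 : (0 : ℝ) ≤ n.choose v := Nat.cast_nonneg _
      rw [Nat.add_sub_cancel]
      push_cast
      calc (n.choose (v + 1) : ℝ) * (((v : ℝ) + 1) * f v) ^ 2
          = ((n.choose (v + 1) : ℝ) * ((v : ℝ) + 1)) * ((v + 1) * f v ^ 2) := by ring
        _ = (n.choose v : ℝ) * (((n : ℝ) - v) * (v + 1) * f v ^ 2) := by
            rw [e1]
            ring
        _ ≤ (n.choose v : ℝ) * (M * f v ^ 2) := mul_le_mul_of_nonneg_left e3 e4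
        _ = _ := by ring
    · have : 0 ≤ M * ((n.choose n : ℝ) * (f n * f n)) :=
        mul_nonneg hM0 (mul_nonneg (Nat.cast_nonneg _) (mul_self_nonneg _))
      simpa using this
  have h2 : ∑ w ∈ range (n + 1), (n.choose w : ℝ) * (((n : ℝ) - w) * f (w + 1)) ^ 2 ≤
      M * ipr n f f := by
    rw [Finset.sum_range_succ]
    unfold ipr
    rw [Finset.mul_sum, Finset.sum_range_succ' (fun w => M * ((n.choose w : ℝ) * (f w * f w)))]
    refine add_le_add (Finset.sum_le_sum fun v hv => ?_) ?_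
    · have hv' : v + 1 ≤ n := Finset.mem_range.1 hv
      have e1 : ((n.choose (v + 1) : ℕ) : ℝ) * ((v : ℝ) + 1) = (n.choose v : ℝ) * ((n : ℝ) - v) := by
        have := Nat.choose_succ_right_eq n v
        have e2 : ((n - v : ℕ) : ℝ) = (n : ℝ) - v := Nat.cast_sub (by omega)
        rw [← e2]
        exact_mod_cast this
      have e3 := (hpt (v + 1) hv').2
      have e4 : (0 : ℝ) ≤ n.choose (v + 1) := Nat.cast_nonneg _
      push_cast at e3
      calc (n.choose v : ℝ) * (((n : ℝ) - v) * f (v + 1)) ^ 2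
          = ((n.choose v : ℝ) * ((n : ℝ) - v)) * (((n : ℝ) - v) * f (v + 1) ^ 2) := by ring
        _ = (n.choose (v + 1) : ℝ) * (((v : ℝ) + 1) * ((n : ℝ) - (v + 1) + 1) *
            f (v + 1) ^ 2) := by
            rw [← e1]
            ring
        _ ≤ (n.choose (v + 1) : ℝ) * (M * f (v + 1) ^ 2) := mul_le_mul_of_nonneg_left e3 e4
        _ = _ := by ring
    · have : 0 ≤ M * ((n.choose 0 : ℝ) * (f 0 * f 0)) :=
        mul_nonneg hM0 (mul_nonneg (Nat.cast_nonneg _) (mul_self_nonneg _))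
      simpa using this
  have h3 : ipr n (af n f) (af n f) ≤
      2 * ∑ w ∈ range (n + 1), (n.choose w : ℝ) * ((w : ℝ) * f (w - 1)) ^ 2 +
      2 * ∑ w ∈ range (n + 1), (n.choose w : ℝ) * (((n : ℝ) - w) * f (w + 1)) ^ 2 := by
    unfold ipr
    rw [Finset.mul_sum, Finset.mul_sum, ← Finset.sum_add_distrib]
    refine Finset.sum_le_sum fun w _ => ?_
    have e4 : (0 : ℝ) ≤ n.choose w := Nat.cast_nonneg _
    unfold af
    have e5 : ((w : ℝ) * f (w - 1) + ((n : ℝ) - w) * f (w + 1)) *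
        ((w : ℝ) * f (w - 1) + ((n : ℝ) - w) * f (w + 1)) ≤
        2 * ((w : ℝ) * f (w - 1)) ^ 2 + 2 * (((n : ℝ) - w) * f (w + 1)) ^ 2 := by
      nlinarith [sq_nonneg ((w : ℝ) * f (w - 1) - ((n : ℝ) - w) * f (w + 1))]
    calc _ ≤ (n.choose w : ℝ) * (2 * ((w : ℝ) * f (w - 1)) ^ 2 +
          2 * (((n : ℝ) - w) * f (w + 1)) ^ 2) := mul_le_mul_of_nonneg_left e5 e4
      _ = _ := by ring
  linarith

/-- the mask -/
noncomputable def mk (P : Set ℕ) (f : ℕ → ℝ) (j : ℕ) : ℝ :=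
  open Classical in if j ∈ P then f j else 0

lemma mk_mem {P : Set ℕ} {f : ℕ → ℝ} {j : ℕ} (h : j ∈ P) : mk P f j = f j := by
  unfold mk
  rw [if_pos h]

lemma mk_notMem {P : Set ℕ} {f : ℕ → ℝ} {j : ℕ} (h : j ∉ P) : mk P f j = 0 := by
  unfold mk
  rw [if_neg h]

lemma ipr_mk (n : ℕ) (P : Set ℕ) (f h : ℕ → ℝ) : ipr n (mk P f) h = ipr n (mk P f) (mk P h) := by
  unfold ipr
  refine Finset.sum_congr rfl fun w _ => ?_
  by_cases hw : w ∈ P
  · rw [mk_mem (f := h) hw]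
  · rw [mk_notMem (f := f) hw]
    ring

lemma ipr_comm (n : ℕ) (f h : ℕ → ℝ) : ipr n f h = ipr n h f := by
  unfold ipr
  exact Finset.sum_congr rfl fun w _ => by ring

/-- **the uncertainty inequality** -/
lemma uncertainty (n m j₀ : ℕ) (hm : 2 * m ≤ n + 1) (hj : 2 * j₀ ≤ n + 1) (f : ℕ → ℝ)
    (hf : ∀ w ≤ n, w ∉ Bs n m → f w = 0) :
    ((n : ℝ) + 2 - 2 * j₀) ^ 2 * ipr n (mk (Bs n j₀) (tr n f)) (mk (Bs n j₀) (tr n f)) ≤
      4 * ((m : ℝ) * ((n : ℝ) - m + 1)) * ipr n f f := by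
  refine le_trans ?_ (af_bound n m hm f hf)
  rw [← parseval n (af n f)]
  unfold ipr
  rw [Finset.mul_sum]
  refine Finset.sum_le_sum fun j hj' => ?_
  have hjn : j ≤ n := by
    have := Finset.mem_range.1 hj'
    omega
  have e4 : (0 : ℝ) ≤ n.choose j := Nat.cast_nonneg _
  rw [tr_af n f j hjn]
  by_cases hP : j ∈ Bs n j₀
  · rw [mk_mem hP]
    have h1 : ((n : ℝ) + 2 - 2 * j₀) ^ 2 ≤ ((n : ℝ) - 2 * j) ^ 2 := by
      have h0 : (2 : ℝ) * j₀ ≤ n + 1 := by exact_mod_cast hj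
      rw [sq_le_sq]
      rw [abs_of_nonneg (by linarith : (0 : ℝ) ≤ (n : ℝ) + 2 - 2 * j₀), le_abs]
      rcases hP with h | h
      · left
        have : (j : ℝ) + 1 ≤ j₀ := by exact_mod_cast h
        linarith
      · right
        have : (n : ℝ) + 1 ≤ j + j₀ := by exact_mod_cast h
        linarith
    calc ((n : ℝ) + 2 - 2 * j₀) ^ 2 * ((n.choose j : ℝ) * (tr n f j * tr n f j))
        = ((n : ℝ) + 2 - 2 * j₀) ^ 2 * ((n.choose j : ℝ) * (tr n f j) ^ 2) := by ring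
      _ ≤ ((n : ℝ) - 2 * j) ^ 2 * ((n.choose j : ℝ) * (tr n f j) ^ 2) :=
          mul_le_mul_of_nonneg_right h1 (mul_nonneg e4 (sq_nonneg _))
      _ = _ := by ring
  · rw [mk_notMem hP]
    have : 0 ≤ (n.choose j : ℝ) * (((n : ℝ) - 2 * j) * tr n f j * (((n : ℝ) - 2 * j) * tr n f j)) :=
      mul_nonneg e4 (mul_self_nonneg _)
    simpa using this

end Pool.Agent.Y570.LS
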