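import Mathlib
import Pool.Agent.Y570.LS.Adj

/-!
Y570/LS (helper570, MP_0430e4_lc): functions with prescribed values near the ends and no low
frequencies.
-/

set_option autoImplicit false
set_option linter.unusedSectionVars false

namespace Pool.Agent.Y570.LS

open Finset Pool.Agent.TH41.BL

lemma tr_add (n : ℕ) (f h : ℕ → ℝ) (j : ℕ) :
    tr n (fun w => f w + h w) j = tr n f j + tr n h j := by
  unfold tr
  rw [← mul_add, ← Finset.sum_add_distrib]
  congr 1
  exact Finset.sum_congr rfl fun w _ => by ring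

lemma tr_smul (n : ℕ) (c : ℝ) (f : ℕ → ℝ) (j : ℕ) :
    tr n (fun w => c * f w) j = c * tr n f j := by
  unfold tr
  have h1 : ∑ w ∈ range (n + 1), c * f w * (kr n w j : ℝ) =
      c * ∑ w ∈ range (n + 1), f w * (kr n w j : ℝ) := by
    rw [Finset.mul_sum]
    exact Finset.sum_congr rfl fun w _ => by ring
  rw [h1]
  ring

lemma mk_add (P : Set ℕ) (f h : ℕ → ℝ) :
    mk P (fun w => f w + h w) = fun w => mk P f w + mk P h w := by
  funext w
  by_cases hw : w ∈ P
  · rw [mk_mem hw, mk_mem hw, mk_mem hw]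
  · rw [mk_notMem hw, mk_notMem hw, mk_notMem hw, add_zero]

lemma mk_smul (P : Set ℕ) (c : ℝ) (f : ℕ → ℝ) :
    mk P (fun w => c * f w) = fun w => c * mk P f w := by
  funext w
  by_cases hw : w ∈ P
  · rw [mk_mem hw, mk_mem hw]
  · rw [mk_notMem hw, mk_notMem hw, mul_zero]

/-- the projection to the frequencies in `P` -/
noncomputable def pj (n : ℕ) (P : Set ℕ) (f : ℕ → ℝ) : ℕ → ℝ := tr n (mk P (tr n f))

lemma pj_add (n : ℕ) (P : Set ℕ) (f h : ℕ → ℝ) :
    pj n P (fun w => f w + h w) = fun w => pj n P f w + pj n P h w := by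
  funext w
  unfold pj
  have e1 : tr n (fun w => f w + h w) = fun j => tr n f j + tr n h j := by
    funext j
    exact tr_add n f h j
  rw [e1, mk_add, tr_add]

lemma pj_smul (n : ℕ) (P : Set ℕ) (c : ℝ) (f : ℕ → ℝ) :
    pj n P (fun w => c * f w) = fun w => c * pj n P f w := by
  funext w
  unfold pj
  have e1 : tr n (fun w => c * f w) = fun j => c * tr n f j := by
    funext j
    exact tr_smul n c f j
  rw [e1, mk_smul, tr_smul]

lemma pj_congr {n : ℕ} {P : Set ℕ} {f f' : ℕ → ℝ} (h1 : ∀ w ≤ n, f w = f' w) :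
    pj n P f = pj n P f' := by
  unfold pj
  have : tr n f = tr n f' := by
    funext j
    exact tr_congr h1 j
  rw [this]

/-- the extension by zero -/
noncomputable def ex (n : ℕ) (u : Fin (n + 1) → ℝ) (w : ℕ) : ℝ :=
  if h : w < n + 1 then u ⟨w, h⟩ else 0

lemma ex_le {n : ℕ} (u : Fin (n + 1) → ℝ) {w : ℕ} (h : w ≤ n) :
    ex n u w = u ⟨w, Nat.lt_succ_of_le h⟩ := by
  unfold ex
  rw [dif_pos (Nat.lt_succ_of_le h)]

lemma ipr_pj (n : ℕ) (P : Set ℕ) (f : ℕ → ℝ) :
    ipr n f (pj n P f) = ipr n (mk P (tr n f)) (mk P (tr n f)) := by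
  unfold pj
  rw [← ipr_tr, ipr_comm, ipr_mk]

lemma ipr_pj_pj (n : ℕ) (P : Set ℕ) (f : ℕ → ℝ) :
    ipr n (pj n P f) (pj n P f) = ipr n (mk P (tr n f)) (mk P (tr n f)) := by
  unfold pj
  rw [parseval]

lemma ipr_zero {n : ℕ} {f : ℕ → ℝ} (h : ipr n f f ≤ 0) : ∀ w ≤ n, f w = 0 := by
  intro w hw
  have h1 : ∀ v ∈ range (n + 1), 0 ≤ (n.choose v : ℝ) * (f v * f v) := fun v _ =>
    mul_nonneg (Nat.cast_nonneg _) (mul_self_nonneg _)
  have h2 : ipr n f f = 0 := le_antisymm h (ipr_self_nonneg n f)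
  have h3 := (Finset.sum_eq_zero_iff_of_nonneg h1).1 h2 w (Finset.mem_range.2 (by omega))
  have h4 : (0 : ℝ) < n.choose w := by exact_mod_cast Nat.choose_pos hw
  rcases mul_eq_zero.1 h3 with h5 | h5
  · exact absurd h5 h4.ne'
  · exact mul_self_eq_zero.1 h5

lemma solve (n : ℕ) (B P : Set ℕ) (q : ℝ) (hq : q < 1)
    (hU : ∀ f : ℕ → ℝ, (∀ w ≤ n, w ∉ B → f w = 0) →
      ipr n (mk P (tr n f)) (mk P (tr n f)) ≤ q * ipr n f f)
    (v : ℕ → ℝ) (hv : ∀ w ≤ n, w ∉ B → v w = 0) :
    ∃ u : ℕ → ℝ, (∀ w ≤ n, w ∉ B → u w = 0) ∧ ∀ w ≤ n, w ∈ B → u w - pj n P u w = v w := by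
  obtain ⟨T, hT⟩ : ∃ T : (Fin (n + 1) → ℝ) →ₗ[ℝ] (Fin (n + 1) → ℝ),
      ∀ u i, T u i = u i - mk B (pj n P (mk B (ex n u))) i := by
    refine ⟨{ toFun := fun u i => u i - mk B (pj n P (mk B (ex n u))) i,
              map_add' := ?_, map_smul' := ?_ }, fun u i => rfl⟩
    · intro u u'
      funext i
      have e1 : ex n (u + u') = fun w => ex n u w + ex n u' w := by
        funext w
        unfold ex
        split_ifs
        · rfl
        · ring
      rw [e1, mk_add, pj_add, mk_add, Pi.add_apply, Pi.add_apply]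
      ring
    · intro c u
      funext i
      have e1 : ex n (c • u) = fun w => c * ex n u w := by
        funext w
        unfold ex
        split_ifs
        · rfl
        · ring
      rw [e1, mk_smul, pj_smul, mk_smul, RingHom.id_apply, Pi.smul_apply, Pi.smul_apply,
        smul_eq_mul, smul_eq_mul]
      ring
  have key : ∀ (u : Fin (n + 1) → ℝ) (v : ℕ → ℝ), (∀ w ≤ n, w ∉ B → v w = 0) →
      (∀ i : Fin (n + 1), T u i = v i) → (∀ w ≤ n, w ∉ B → ex n u w = 0) ∧
      ∀ w ≤ n, w ∈ B → ex n u w - pj n P (ex n u) w = v w := by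
    intro u v hv h
    have h1 : ∀ w ≤ n, w ∉ B → ex n u w = 0 := by
      intro w hw hB
      have := h ⟨w, Nat.lt_succ_of_le hw⟩
      rw [hT] at this
      simp only at this
      rw [mk_notMem hB, sub_zero, hv w hw hB] at this
      rw [ex_le u hw, this]
    have h2 : ∀ w ≤ n, mk B (ex n u) w = ex n u w := by
      intro w hw
      by_cases hB : w ∈ B
      · rw [mk_mem hB]
      · rw [mk_notMem hB, h1 w hw hB]
    refine ⟨h1, ?_⟩
    intro w hw hB
    have := h ⟨w, Nat.lt_succ_of_le hw⟩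
    rw [hT] at this
    simp only at this
    rw [mk_mem hB, pj_congr h2] at this
    rw [ex_le u hw]
    exact this
  have hinj : Function.Injective T := by
    rw [← LinearMap.ker_eq_bot, LinearMap.ker_eq_bot']
    intro u hu
    obtain ⟨h1, h2⟩ := key u (fun _ => 0) (fun _ _ _ => rfl) (fun i => by rw [hu]; rfl)
    have h3 : ipr n (ex n u) (ex n u) = ipr n (ex n u) (pj n P (ex n u)) := by
      unfold ipr
      refine Finset.sum_congr rfl fun w hw => ?_
      have hw' : w ≤ n := by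
        have := Finset.mem_range.1 hw
        omega
      by_cases hB : w ∈ B
      · have h4 := h2 w hw' hB
        have h5 : ex n u w = pj n P (ex n u) w := by linarith
        rw [← h5]
      · rw [h1 w hw' hB]
        ring
    have h4 := hU (ex n u) h1
    rw [← ipr_pj, ← h3] at h4
    have h5 := ipr_self_nonneg n (ex n u)
    have h6 : ipr n (ex n u) (ex n u) ≤ 0 := by nlinarith
    funext i
    have h7 := ipr_zero h6 i (Nat.lt_succ_iff.1 i.2)
    rw [ex_le u (Nat.lt_succ_iff.1 i.2)] at h7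
    exact h7
  have hsurj : Function.Surjective T := LinearMap.injective_iff_surjective.1 hinj
  obtain ⟨u, hu⟩ := hsurj (fun i => v i)
  exact ⟨ex n u, key u v hv fun i => by rw [hu]⟩

/-- the volume of a ball -/
noncomputable def vol (n d : ℕ) : ℝ := ∑ w ∈ range d, (n.choose w : ℝ)

lemma choose_half {n : ℕ} : ∀ b a : ℕ, a ≤ b → 2 * b ≤ n → n.choose a ≤ n.choose b := by
  intro b
  induction b with
  | zero =>
    intro a ha _
    rw [Nat.le_zero.1 ha]
  | succ b ih =>
    intro a ha hb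
    rcases Nat.lt_or_ge a (b + 1) with h | h
    · exact (ih a (by omega) (by omega)).trans
        (Nat.choose_le_succ_of_lt_half_left (by omega))
    · rw [le_antisymm ha h]

lemma choose_mid {n m w : ℕ} (h1 : m ≤ w) (h2 : w + m ≤ n) : n.choose m ≤ n.choose w := by
  rcases Nat.lt_or_ge n (2 * w) with h | h
  · rw [← Nat.choose_symm (by omega : w ≤ n)]
    exact choose_half _ _ (by omega) (by omega)
  · exact choose_half _ _ h1 (by omega)

lemma ipr_cs (n : ℕ) (f h : ℕ → ℝ) : ipr n f h ^ 2 ≤ ipr n f f * ipr n h h := by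
  have h1 := Finset.sum_mul_sq_le_sq_mul_sq (range (n + 1))
    (fun w => √(n.choose w : ℝ) * f w) (fun w => √(n.choose w : ℝ) * h w)
  have h2 : ∀ w : ℕ, √(n.choose w : ℝ) * √(n.choose w : ℝ) = (n.choose w : ℝ) := fun w =>
    Real.mul_self_sqrt (Nat.cast_nonneg _)
  have e1 : ipr n f h = ∑ w ∈ range (n + 1), √(n.choose w : ℝ) * f w *
      (√(n.choose w : ℝ) * h w) := by
    unfold ipr
    refine Finset.sum_congr rfl fun w _ => ?_
    linear_combination (-(f w * h w)) * h2 w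
  have e2 : ∀ f : ℕ → ℝ, ipr n f f = ∑ w ∈ range (n + 1), (√(n.choose w : ℝ) * f w) ^ 2 := by
    intro f
    unfold ipr
    refine Finset.sum_congr rfl fun w _ => ?_
    linear_combination (-(f w * f w)) * h2 w
  rw [e1, e2 f, e2 h]
  exact h1

lemma ipr_single {n w : ℕ} (hw : w ≤ n) (f : ℕ → ℝ) :
    (n.choose w : ℝ) * f w ^ 2 ≤ ipr n f f := by
  unfold ipr
  have h1 : ∀ v ∈ range (n + 1), 0 ≤ (n.choose v : ℝ) * (f v * f v) := fun v _ =>
    mul_nonneg (Nat.cast_nonneg _) (mul_self_nonneg _)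
  have h2 := Finset.single_le_sum h1 (Finset.mem_range.2 (Nat.lt_succ_of_le hw))
  calc (n.choose w : ℝ) * f w ^ 2 = (n.choose w : ℝ) * (f w * f w) := by ring
    _ ≤ _ := h2

/-- **The radial kernel.** -/
theorem radial (n d m j₀ : ℕ) (hd : d ≤ m) (hm : 2 * m ≤ n) (hj : 2 * j₀ ≤ n) (q : ℝ)
    (hq : 4 * ((m : ℝ) * ((n : ℝ) - m + 1)) ≤ q * ((n : ℝ) + 2 - 2 * j₀) ^ 2) (hq1 : q < 1) :
    ∃ e s : ℕ → ℝ, (∀ w < d, e w = -1) ∧
      (∀ w ≤ n, d ≤ w → (n.choose m : ℝ) * e w ^ 2 ≤ vol n d / (1 - q) ^ 2) ∧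
      (ipr n e e ≤ vol n d / (1 - q) ^ 2) ∧
      (∀ j ≤ n, (n.choose j₀ : ℝ) * s j ^ 2 ≤ 2 ^ n * (vol n d / (1 - q) ^ 2)) ∧
      ∀ w ≤ n, e w = (2 ^ n)⁻¹ * ∑ j ∈ range (n + 1), s j * (kr n j w : ℝ) := by
  have hj' : (2 : ℝ) * j₀ ≤ n := by exact_mod_cast hj
  have hR : 0 < ((n : ℝ) + 2 - 2 * j₀) ^ 2 := by
    have : 0 < (n : ℝ) + 2 - 2 * j₀ := by linarith
    positivity
  have hU : ∀ f : ℕ → ℝ, (∀ w ≤ n, w ∉ Bs n m → f w = 0) →
      ipr n (mk (Bs n j₀) (tr n f)) (mk (Bs n j₀) (tr n f)) ≤ q * ipr n f f := by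
    intro f hf
    have h1 := uncertainty n m j₀ (by omega) (by omega) f hf
    have h2 := ipr_self_nonneg n f
    have h3 : ((n : ℝ) + 2 - 2 * j₀) ^ 2 *
        ipr n (mk (Bs n j₀) (tr n f)) (mk (Bs n j₀) (tr n f)) ≤
        ((n : ℝ) + 2 - 2 * j₀) ^ 2 * (q * ipr n f f) := by
      refine h1.trans ((mul_le_mul_of_nonneg_right hq h2).trans (le_of_eq ?_))
      ring
    exact le_of_mul_le_mul_left h3 hR
  obtain ⟨v, hvd⟩ : ∃ v : ℕ → ℝ, v = fun w => if w < d then -1 else 0 := ⟨_, rfl⟩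
  have hv : ∀ w ≤ n, w ∉ Bs n m → v w = 0 := by
    intro w _ hB
    have : ¬ w < d := fun h => hB (Or.inl (by omega))
    rw [hvd]
    simp [this]
  obtain ⟨u, hu1, hu2⟩ := solve n (Bs n m) (Bs n j₀) q hq1 hU v hv
  have hV : ipr n v v = vol n d := by
    unfold ipr vol
    rw [hvd]
    have e1 : ∀ w ∈ range (n + 1), (n.choose w : ℝ) * ((if w < d then (-1 : ℝ) else 0) *
        (if w < d then -1 else 0)) = if w ∈ range d then (n.choose w : ℝ) else 0 := by
      intro w _
      by_cases h : w < d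
      · rw [if_pos h, if_pos (Finset.mem_range.2 h)]
        ring
      · rw [if_neg h, if_neg (by simpa using h)]
        ring
    rw [Finset.sum_congr rfl e1, Finset.sum_ite_mem]
    refine Finset.sum_congr ?_ fun _ _ => rfl
    ext w
    simp only [Finset.mem_inter, Finset.mem_range]
    omega
  obtain ⟨U, hUd⟩ : ∃ U : ℝ, U = ipr n u u := ⟨_, rfl⟩
  have hU0 : 0 ≤ U := by
    rw [hUd]
    exact ipr_self_nonneg n u
  have hpu := hU u hu1
  have huv : ipr n u v = U - ipr n u (pj n (Bs n j₀) u) := by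
    rw [hUd]
    unfold ipr
    rw [← Finset.sum_sub_distrib]
    refine Finset.sum_congr rfl fun w hw => ?_
    have hw' : w ≤ n := by
      have := Finset.mem_range.1 hw
      omega
    by_cases hB : w ∈ Bs n m
    · rw [← hu2 w hw' hB]
      ring
    · rw [hu1 w hw' hB]
      ring
  have hq2 : 0 < 1 - q := by linarith
  have hvol : 0 ≤ vol n d := Finset.sum_nonneg fun w _ => Nat.cast_nonneg _
  have hUV : U ≤ vol n d / (1 - q) ^ 2 := by
    have h1 : (1 - q) * U ≤ ipr n u v := by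
      rw [huv, ipr_pj]
      rw [← hUd] at hpu
      linarith
    have h2 := ipr_cs n u v
    rw [hV, ← hUd] at h2
    rw [le_div_iff₀ (by positivity)]
    have h3 : ((1 - q) * U) ^ 2 ≤ U * vol n d :=
      (pow_le_pow_left₀ (mul_nonneg hq2.le hU0) h1 2).trans h2
    rcases hU0.lt_or_eq with h4 | h4
    · have h5 : U * (U * (1 - q) ^ 2) ≤ U * vol n d := by
        calc U * (U * (1 - q) ^ 2) = ((1 - q) * U) ^ 2 := by ring
          _ ≤ _ := h3
      exact le_of_mul_le_mul_left h5 h4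
    · rw [← h4, zero_mul]
      exact hvol
  have hpp : ipr n (pj n (Bs n j₀) u) (pj n (Bs n j₀) u) ≤ U := by
    rw [ipr_pj_pj]
    refine hpu.trans ?_
    rw [← hUd]
    nlinarith
  obtain ⟨e, he⟩ : ∃ e : ℕ → ℝ, e = fun w => u w - pj n (Bs n j₀) u w := ⟨_, rfl⟩
  have hee : ipr n e e ≤ U := by
    have h1 : ipr n e e = U - 2 * ipr n u (pj n (Bs n j₀) u) +
        ipr n (pj n (Bs n j₀) u) (pj n (Bs n j₀) u) := by
      rw [hUd, he]
      unfold ipr
      rw [Finset.mul_sum, ← Finset.sum_sub_distrib, ← Finset.sum_add_distrib]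
      exact Finset.sum_congr rfl fun w _ => by ring
    rw [h1, ipr_pj, ipr_pj_pj]
    have := ipr_self_nonneg n (mk (Bs n j₀) (tr n u))
    linarith
  refine ⟨e, fun j => √2 ^ n * tr n e j, ?_, ?_, hee.trans hUV, ?_, ?_⟩
  · intro w hw
    have h1 : w ≤ n := by omega
    have h2 : w ∈ Bs n m := Or.inl (by omega)
    rw [he]
    simp only
    rw [hu2 w h1 h2, hvd]
    simp [hw]
  · intro w hw hdw
    by_cases hB : w ∈ Bs n m
    · have h1 : e w = 0 := by
        rw [he]
        simp only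
        rw [hu2 w hw hB, hvd]
        simp [not_lt.2 hdw]
      rw [h1]
      have : 0 ≤ vol n d / (1 - q) ^ 2 := by positivity
      simpa using this
    · have h1 : e w ^ 2 = pj n (Bs n j₀) u w ^ 2 := by
        rw [he]
        simp only
        rw [hu1 w hw hB]
        ring
      rw [h1]
      have h2 : (n.choose m : ℝ) ≤ n.choose w := by
        have : n.choose m ≤ n.choose w := by
          unfold Bs at hB
          rw [Set.mem_ofPred_eq, not_or, not_lt, not_lt] at hB
          exact choose_mid hB.1 hB.2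
        exact_mod_cast this
      calc (n.choose m : ℝ) * pj n (Bs n j₀) u w ^ 2
          ≤ (n.choose w : ℝ) * pj n (Bs n j₀) u w ^ 2 :=
            mul_le_mul_of_nonneg_right h2 (sq_nonneg _)
        _ ≤ ipr n (pj n (Bs n j₀) u) (pj n (Bs n j₀) u) := ipr_single hw _
        _ ≤ vol n d / (1 - q) ^ 2 := hpp.trans hUV
  · intro j hjn
    have h1 : tr n e j = tr n u j - mk (Bs n j₀) (tr n u) j := by
      have e1 : e = fun w => u w + (-1) * pj n (Bs n j₀) u w := by
        rw [he]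
        funext w
        ring
      rw [e1, tr_add, tr_smul]
      unfold pj
      rw [tr_tr n _ j hjn]
      ring
    have h2 : (√2 ^ n * tr n e j) ^ 2 = 2 ^ n * tr n e j ^ 2 := by
      rw [mul_pow, sq (√2 ^ n), s2]
    simp only
    rw [h2]
    by_cases hP : j ∈ Bs n j₀
    · rw [h1, mk_mem hP, sub_self]
      have : 0 ≤ 2 ^ n * (vol n d / (1 - q) ^ 2) := by positivity
      simpa using this
    · have h3 : (n.choose j₀ : ℝ) ≤ n.choose j := by
        have : n.choose j₀ ≤ n.choose j := by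
          unfold Bs at hP
          rw [Set.mem_ofPred_eq, not_or, not_lt, not_lt] at hP
          exact choose_mid hP.1 hP.2
        exact_mod_cast this
      have h4 := ipr_single hjn (tr n e)
      rw [parseval] at h4
      calc (n.choose j₀ : ℝ) * (2 ^ n * tr n e j ^ 2)
          ≤ (n.choose j : ℝ) * (2 ^ n * tr n e j ^ 2) :=
            mul_le_mul_of_nonneg_right h3 (by positivity)
        _ = 2 ^ n * ((n.choose j : ℝ) * tr n e j ^ 2) := by ring
        _ ≤ 2 ^ n * (vol n d / (1 - q) ^ 2) :=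
            mul_le_mul_of_nonneg_left (h4.trans (hee.trans hUV)) (by positivity)
  · intro w hw
    rw [← tr_tr n e w hw]
    unfold tr
    rw [Finset.mul_sum, Finset.mul_sum]
    refine Finset.sum_congr rfl fun j _ => ?_
    have h3 : ((2 : ℝ) ^ n)⁻¹ * √2 ^ n = (√2 ^ n)⁻¹ := by
      rw [← s2, mul_inv, mul_assoc, inv_mul_cancel₀ (s2_pos n).ne', mul_one]
    rw [← h3]
    ring

end Pool.Agent.Y570.LS
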