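import Mathlib
import Pool.Agent.Y570.LS.Cond
import Pool.Agent.Y570.LS.Solve
import Pool.Agent.Y570.KP.Kern

/-!
Y570/LS (helper570, MP_0430e4_lc): the kernel on the cube.
-/

set_option autoImplicit false
set_option linter.unusedSectionVars false

namespace Pool.Agent.Y570.LS

open Finset Pool.Agent.TH41.BL

lemma sum_dist {n : ℕ} (a : Fin n → Bool) (φ : ℕ → ℝ) :
    ∑ c, φ (hammingDist a c) = ∑ w ∈ range (n + 1), (n.choose w : ℝ) * φ w := by
  have h1 : ∑ c : Fin n → Bool, φ (hammingDist a c) = ∑ S : Finset (Fin n), φ S.card := by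
    refine Function.Bijective.sum_comp
      (e := fun c : Fin n → Bool => univ.filter fun i => a i ≠ c i) ⟨?_, ?_⟩
      (fun S : Finset (Fin n) => φ S.card)
    · intro c c' h
      funext i
      have h2 : (i ∈ univ.filter fun i => a i ≠ c i) ↔ (i ∈ univ.filter fun i => a i ≠ c' i) := by
        have h' : (univ.filter fun i => a i ≠ c i) = (univ.filter fun i => a i ≠ c' i) := h
        rw [h']
      simp only [Finset.mem_filter, Finset.mem_univ, true_and] at h2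
      cases hc : c i <;> cases hc' : c' i <;> cases ha : a i <;> simp_all
    · intro S
      refine ⟨fun i => if i ∈ S then !(a i) else a i, ?_⟩
      ext i
      simp only [mem_filter, mem_univ, true_and]
      by_cases h : i ∈ S <;> simp [h]
  rw [h1]
  have h2 := Finset.sum_powerset_apply_card (f := φ) (x := (univ : Finset (Fin n)))
  rw [Finset.powerset_univ, Finset.card_univ, Fintype.card_fin] at h2
  rw [h2]
  exact Finset.sum_congr rfl fun w _ => by rw [nsmul_eq_mul]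

lemma spec_of_quad {X : Type} [Fintype X] (E : X → X → ℝ) (hs : ∀ x y, E x y = E y x) {Λ : ℝ}
    (hΛ : 0 < Λ) (hq : ∀ a : X → ℝ, |∑ x, ∑ y, E x y * a x * a y| ≤ Λ * ∑ x, a x ^ 2)
    (h : X → ℝ) : ∑ a, (∑ c, E a c * h c) ^ 2 ≤ Λ ^ 2 * ∑ c, h c ^ 2 := by
  obtain ⟨u, hu⟩ : ∃ u : X → ℝ, u = fun a => ∑ c, E a c * h c := ⟨_, rfl⟩
  have hu' : ∀ a, u a = ∑ c, E a c * h c := fun a => by rw [hu]
  have h1 := (abs_le.1 (hq fun x => u x + Λ * h x)).2
  have h2 := (abs_le.1 (hq fun x => u x - Λ * h x)).1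
  have e1 : (∑ x, ∑ y, E x y * (u x + Λ * h x) * (u y + Λ * h y)) -
      (∑ x, ∑ y, E x y * (u x - Λ * h x) * (u y - Λ * h y)) = 4 * Λ * ∑ a, u a ^ 2 := by
    rw [← Finset.sum_sub_distrib]
    have e2 : ∀ x, (∑ y, E x y * (u x + Λ * h x) * (u y + Λ * h y)) -
        (∑ y, E x y * (u x - Λ * h x) * (u y - Λ * h y)) =
        2 * Λ * (u x * u x) + 2 * Λ * ∑ y, u y * (E y x * h x) := by
      intro x
      rw [← Finset.sum_sub_distrib, hu' x, Finset.mul_sum, Finset.mul_sum, Finset.mul_sum,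
        ← Finset.sum_add_distrib, ← hu' x]
      refine Finset.sum_congr rfl fun y _ => ?_
      rw [hs y x]
      ring
    rw [Finset.sum_congr rfl fun x _ => e2 x, Finset.sum_add_distrib, ← Finset.mul_sum,
      ← Finset.mul_sum, Finset.sum_comm]
    have e3 : ∀ y, ∑ x, u y * (E y x * h x) = u y * u y := by
      intro y
      rw [← Finset.mul_sum, ← hu' y]
    rw [Finset.sum_congr rfl fun y _ => e3 y]
    have e4 : ∑ a, u a ^ 2 = ∑ a, u a * u a := Finset.sum_congr rfl fun a _ => sq _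
    rw [e4]
    ring
  have e5 : ∑ x, (u x + Λ * h x) ^ 2 + ∑ x, (u x - Λ * h x) ^ 2 =
      2 * ∑ x, u x ^ 2 + 2 * Λ ^ 2 * ∑ x, h x ^ 2 := by
    rw [← Finset.sum_add_distrib, Finset.mul_sum, Finset.mul_sum, ← Finset.sum_add_distrib]
    exact Finset.sum_congr rfl fun x _ => by ring
  have e6 : 4 * Λ * ∑ a, u a ^ 2 ≤ Λ * (2 * ∑ x, u x ^ 2 + 2 * Λ ^ 2 * ∑ x, h x ^ 2) := by
    rw [← e5, ← e1]
    linarith
  have e7 : ∑ a, (∑ c, E a c * h c) ^ 2 = ∑ a, u a ^ 2 :=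
    Finset.sum_congr rfl fun a _ => by rw [hu' a]
  rw [e7]
  have e8 : Λ * (2 * ∑ a, u a ^ 2) ≤ Λ * (2 * (Λ ^ 2 * ∑ c, h c ^ 2)) := by
    nlinarith [e6]
  have e9 := le_of_mul_le_mul_left e8 hΛ
  linarith

/-- the spectrum of a radial kernel -/
lemma spec_radial (hc : S7_chr) {n : ℕ} (e s : ℕ → ℝ) {Λ : ℝ} (hΛ : 0 < Λ)
    (hs : ∀ j ≤ n, s j ^ 2 ≤ Λ ^ 2)
    (he : ∀ w ≤ n, e w = (2 ^ n)⁻¹ * ∑ j ∈ range (n + 1), s j * (kr n j w : ℝ))
    (h : (Fin n → Bool) → ℝ) :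
    ∑ a, (∑ c, e (hammingDist a c) * h c) ^ 2 ≤ Λ ^ 2 * ∑ c, h c ^ 2 := by
  refine spec_of_quad (fun x y => e (hammingDist x y)) (fun x y => by rw [hammingDist_comm]) hΛ
    (fun a => ?_) h
  have e1 : ∑ x, ∑ y, e (hammingDist x y) * a x * a y =
      (2 ^ n)⁻¹ * ∑ j ∈ Finset.range (n + 1), s j * KP.TT a j := by
    rw [← KP.form_eq hc s a]
    refine Finset.sum_congr rfl fun x _ => Finset.sum_congr rfl fun y _ => ?_
    rw [he _ (PK9f.hd_le x y)]
  rw [e1, abs_mul, abs_of_pos (by positivity : (0 : ℝ) < (2 ^ n)⁻¹), ← KP.parseval hc a]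
  calc (2 ^ n)⁻¹ * |∑ j ∈ Finset.range (n + 1), s j * KP.TT a j|
      ≤ (2 ^ n)⁻¹ * ∑ j ∈ Finset.range (n + 1), Λ * KP.TT a j := by
        refine mul_le_mul_of_nonneg_left ?_ (by positivity)
        refine (Finset.abs_sum_le_sum_abs _ _).trans (Finset.sum_le_sum fun j hj => ?_)
        rw [abs_mul, abs_of_nonneg (KP.TT_nonneg a j)]
        refine mul_le_mul_of_nonneg_right ?_ (KP.TT_nonneg a j)
        have := Finset.mem_range.1 hj
        exact abs_le_of_sq_le_sq (hs j (by omega)) hΛ.le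
    _ = Λ * ((2 ^ n)⁻¹ * ∑ j ∈ Finset.range (n + 1), KP.TT a j) := by
        rw [← Finset.mul_sum]
        ring

/-- **The kernel on the cube.** -/
theorem cube_kernel (hc : S7_chr) (n d m j₀ : ℕ) (hd1 : 1 ≤ d) (hd : d ≤ m) (hm : 2 * m ≤ n)
    (hj : 2 * j₀ ≤ n) (q : ℝ)
    (hq : 4 * ((m : ℝ) * ((n : ℝ) - m + 1)) ≤ q * ((n : ℝ) + 2 - 2 * j₀) ^ 2) (hq1 : q < 1)
    (hC : vol n d / (1 - q) ^ 2 ≤ n.choose m) (Λ σ : ℝ) (hΛ : 0 < Λ) (hσ : 0 ≤ σ)
    (h1 : vol n d / (1 - q) ^ 2 ≤ σ ^ 2)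
    (h2 : 2 ^ n * (vol n d / (1 - q) ^ 2) ≤ n.choose j₀ * Λ ^ 2) :
    ∃ g : (Fin n → Bool) → (Fin n → Bool) → ℝ, KK g 2 Λ σ ∧ (∀ x y, g x y = g y x) ∧
      ∀ x y, hammingDist x y < d → g x y = 0 := by
  obtain ⟨e, s, he1, he2, he3, he4, he5⟩ := radial n d m j₀ hd hm hj q hq hq1
  have hcm : (0 : ℝ) < n.choose m := by
    exact_mod_cast Nat.choose_pos (by omega)
  have hcj : (0 : ℝ) < n.choose j₀ := by
    exact_mod_cast Nat.choose_pos (by omega)
  have hle : ∀ w ≤ n, |e w| ≤ 1 := by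
    intro w hw
    by_cases hwd : w < d
    · rw [he1 w hwd]
      simp
    · have h3 := (he2 w hw (not_lt.1 hwd)).trans hC
      have h4 : e w ^ 2 ≤ 1 := by
        have h5 : (n.choose m : ℝ) * e w ^ 2 ≤ n.choose m * 1 := by linarith
        exact le_of_mul_le_mul_left h5 hcm
      exact abs_le_of_sq_le_sq (by simpa using h4) zero_le_one
  have hrow : ∀ a : Fin n → Bool, ∑ c, (1 + e (hammingDist a c) - 1) ^ 2 ≤ σ ^ 2 := by
    intro a
    have h3 := sum_dist a fun w => (1 + e w - 1) ^ 2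
    rw [h3]
    refine le_trans (le_of_eq ?_) (he3.trans h1)
    unfold ipr
    exact Finset.sum_congr rfl fun w _ => by ring
  refine ⟨fun x y => 1 + e (hammingDist x y), ⟨by norm_num, hΛ.le, hσ, fun x y => ?_,
    fun x y => ?_, hrow, fun c => ?_, fun h => ?_⟩, fun x y => ?_, fun x y hxy => ?_⟩
  · have := (abs_le.1 (hle _ (PK9f.hd_le x y))).1
    linarith
  · have := (abs_le.1 (hle _ (PK9f.hd_le x y))).2
    linarith
  · refine le_trans (le_of_eq ?_) (hrow c)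
    refine Finset.sum_congr rfl fun a _ => ?_
    rw [hammingDist_comm]
  · have h3 := spec_radial hc e s hΛ (fun j hj => ?_) he5 h
    · refine le_trans (le_of_eq ?_) h3
      refine Finset.sum_congr rfl fun a _ => ?_
      congr 1
      exact Finset.sum_congr rfl fun c _ => by ring
    · have h4 := (he4 j hj).trans h2
      exact le_of_mul_le_mul_left h4 hcj
  · change 1 + e (hammingDist x y) = 1 + e (hammingDist y x)
    rw [hammingDist_comm]
  · change 1 + e (hammingDist x y) = 0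
    rw [he1 _ hxy]
    ring

end Pool.Agent.Y570.LS
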