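import Mathlib
import Pool.Agent.Y570.LS.Solve

/-!
Y570/LS (helper570, MP_0430e4_lc): the entropy function.
-/

set_option autoImplicit false
set_option linter.unusedSectionVars false

namespace Pool.Agent.Y570.LS

open Finset

noncomputable def FF (z : ℝ) : ℝ :=
  ((1 + z) * Real.log (1 + z) + (1 - z) * Real.log (1 - z)) / 2

lemma FF_eq {z : ℝ} (h0 : -1 < z) (h1 : z < 1) :
    Real.binEntropy ((1 - z) / 2) = Real.log 2 - FF z := by
  unfold Real.binEntropy FF
  have e1 : 1 - (1 - z) / 2 = (1 + z) / 2 := by ring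
  rw [e1, Real.log_inv, Real.log_inv, Real.log_div (by linarith) (by norm_num),
    Real.log_div (by linarith) (by norm_num)]
  ring

noncomputable def psi (z : ℝ) : ℝ :=
  -((1 + z / 2) * Real.log (1 + z)) - (1 - z / 2) * Real.log (1 - z)

lemma psi_deriv {z : ℝ} (h0 : -1 < z) (h1 : z < 1) :
    HasDerivAt psi (z / (1 - z ^ 2) - 1 / 2 * (Real.log (1 + z) - Real.log (1 - z))) z := by
  have a1 : HasDerivAt (fun z : ℝ => 1 + z) 1 z := (hasDerivAt_id z).const_add 1
  have a2 : HasDerivAt (fun z : ℝ => 1 - z) (-1) z := (hasDerivAt_id z).const_sub 1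
  have a3 : HasDerivAt (fun z : ℝ => 1 + z / 2) (1 / 2) z :=
    ((hasDerivAt_id z).div_const 2).const_add 1
  have a4 : HasDerivAt (fun z : ℝ => 1 - z / 2) (-(1 / 2)) z :=
    ((hasDerivAt_id z).div_const 2).const_sub 1
  have b1 := a3.mul (a1.log (by linarith))
  have b2 := a4.mul (a2.log (by linarith))
  have b3 := b1.neg.sub b2
  have b4 : psi = -((fun z : ℝ => 1 + z / 2) * fun z => Real.log (1 + z)) -
      (fun z : ℝ => 1 - z / 2) * fun z => Real.log (1 - z) := by
    funext z
    rfl
  rw [b4]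
  refine b3.congr_deriv ?_
  have c1 : (1 : ℝ) + z ≠ 0 := by linarith
  have c2 : (1 : ℝ) - z ≠ 0 := by linarith
  have c3 : (1 : ℝ) - z ^ 2 ≠ 0 := by
    have : (1 : ℝ) - z ^ 2 = (1 + z) * (1 - z) := by ring
    rw [this]
    exact mul_ne_zero c1 c2
  field_simp
  ring

lemma psi_pos {z : ℝ} (h0 : 0 < z) (h1 : z < 1) : 0 < psi z := by
  have hm : StrictMonoOn psi (Set.Ico 0 1) := by
    refine strictMonoOn_of_deriv_pos (convex_Ico 0 1) ?_ ?_
    · intro x hx
      exact (psi_deriv (by linarith [hx.1]) hx.2).continuousAt.continuousWithinAt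
    · intro x hx
      rw [interior_Ico] at hx
      rw [(psi_deriv (by linarith [hx.1]) hx.2).deriv]
      have h2 : 0 < (1 + x) / (1 - x) := div_pos (by linarith [hx.1]) (by linarith [hx.2])
      have h3 : 0 < Real.log ((1 + x) / (1 - x)) := by
        refine Real.log_pos ?_
        rw [lt_div_iff₀ (by linarith [hx.2])]
        linarith [hx.1]
      have h4 := Real.self_lt_sinh_iff.2 h3
      rw [Real.sinh_log h2, Real.log_div (by linarith [hx.1]) (by linarith [hx.2])] at h4
      have h5 : ((1 + x) / (1 - x) - ((1 + x) / (1 - x))⁻¹) / 2 = 2 * (x / (1 - x ^ 2)) := by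
        have c1 : (1 : ℝ) + x ≠ 0 := by linarith [hx.1]
        have c2 : (1 : ℝ) - x ≠ 0 := by linarith [hx.2]
        have c3 : (1 : ℝ) - x ^ 2 ≠ 0 := by
          have : (1 : ℝ) - x ^ 2 = (1 + x) * (1 - x) := by ring
          rw [this]
          exact mul_ne_zero c1 c2
        field_simp
        ring
      rw [h5] at h4
      linarith
  have h2 := hm (Set.left_mem_Ico.2 zero_lt_one) ⟨h0.le, h1⟩ h0
  have h3 : psi 0 = 0 := by simp [psi]
  rwa [h3] at h2

lemma FF_cont : Continuous FF := by
  unfold FF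
  have h1 : Continuous fun z : ℝ => (1 + z) * Real.log (1 + z) :=
    Real.continuous_mul_log.comp (continuous_const.add continuous_id)
  have h2 : Continuous fun z : ℝ => (1 - z) * Real.log (1 - z) :=
    Real.continuous_mul_log.comp (continuous_const.sub continuous_id)
  exact (h1.add h2).div_const 2

lemma FF_deriv {z : ℝ} (h0 : -1 < z) (h1 : z < 1) :
    HasDerivAt FF (1 / 2 * (Real.log (1 + z) - Real.log (1 - z))) z := by
  have a1 : HasDerivAt (fun z : ℝ => 1 + z) 1 z := (hasDerivAt_id z).const_add 1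
  have a2 : HasDerivAt (fun z : ℝ => 1 - z) (-1) z := (hasDerivAt_id z).const_sub 1
  have b1 := a1.mul (a1.log (by linarith))
  have b2 := a2.mul (a2.log (by linarith))
  have b3 := (b1.add b2).div_const 2
  have b4 : FF = fun z => (((fun z : ℝ => 1 + z) * fun z => Real.log (1 + z)) +
      (fun z : ℝ => 1 - z) * fun z => Real.log (1 - z)) z / 2 := by
    funext z
    rfl
  rw [b4]
  refine b3.congr_deriv ?_
  have c1 : (1 : ℝ) + z ≠ 0 := by linarith
  have c2 : (1 : ℝ) - z ≠ 0 := by linarith
  field_simp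
  ring

lemma FF_lt {z : ℝ} (h0 : 0 < z) (h1 : z < 1) : FF z < z ^ 2 * Real.log 2 := by
  have hm : StrictMonoOn (fun x => FF x / x ^ 2) (Set.Icc z 1) := by
    refine strictMonoOn_of_deriv_pos (convex_Icc z 1) ?_ ?_
    · refine FF_cont.continuousOn.div (continuousOn_id.pow 2) ?_
      intro x hx
      have : 0 < x := h0.trans_le hx.1
      positivity
    · intro x hx
      rw [interior_Icc] at hx
      have hx0 : 0 < x := h0.trans hx.1
      have hd : HasDerivAt (fun x => FF x / x ^ 2)
          ((1 / 2 * (Real.log (1 + x) - Real.log (1 - x)) * x ^ 2 - FF x * (2 * x)) /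
            (x ^ 2) ^ 2) x := by
        have a := (FF_deriv (by linarith) hx.2).div (hasDerivAt_pow 2 x) (by positivity)
        refine a.congr_deriv ?_
        norm_num
      rw [hd.deriv]
      have h3 := psi_pos hx0 hx.2
      have h4 : 1 / 2 * (Real.log (1 + x) - Real.log (1 - x)) * x ^ 2 - FF x * (2 * x) =
          x * psi x := by
        unfold FF psi
        ring
      rw [h4]
      positivity
  have h2 := hm (Set.left_mem_Icc.2 h1.le) (Set.right_mem_Icc.2 h1.le) h1
  have h3 : FF 1 = Real.log 2 := by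
    unfold FF
    norm_num
  simp only [h3, one_pow, div_one] at h2
  rw [div_lt_iff₀ (by positivity)] at h2
  linarith

/-- the first linear programming bound is above the bound of Gilbert and Varshamov -/
theorem gain_pos {δ : ℝ} (h0 : 0 < δ) (h1 : δ < 1 / 2) :
    Real.log 2 < Real.binEntropy (1 / 2 - √(δ * (1 - δ))) + Real.binEntropy δ := by
  obtain ⟨a, ha⟩ : ∃ a : ℝ, a = 1 - 2 * δ := ⟨_, rfl⟩
  obtain ⟨b, hb⟩ : ∃ b : ℝ, b = 2 * √(δ * (1 - δ)) := ⟨_, rfl⟩
  have hp : 0 < δ * (1 - δ) := mul_pos h0 (by linarith)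
  have hb0 : 0 < b := by
    rw [hb]
    have := Real.sqrt_pos.2 hp
    positivity
  have hbb : b ^ 2 = 4 * (δ * (1 - δ)) := by
    rw [hb, mul_pow, Real.sq_sqrt hp.le]
    ring
  have hab : a ^ 2 + b ^ 2 = 1 := by
    rw [hbb, ha]
    ring
  have ha0 : 0 < a := by linarith
  have ha1 : a < 1 := by linarith
  have hb1 : b < 1 := by
    have : b ^ 2 < 1 := by
      have : 0 < a ^ 2 := by positivity
      linarith
    nlinarith
  have e1 : 1 / 2 - √(δ * (1 - δ)) = (1 - b) / 2 := by
    rw [hb]
    ring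
  have e2 : δ = (1 - a) / 2 := by
    rw [ha]
    ring
  have e3 : Real.binEntropy δ = Real.log 2 - FF a := by
    rw [e2]
    exact FF_eq (by linarith) ha1
  rw [e1, e3, FF_eq (by linarith) hb1]
  have h2 := FF_lt ha0 ha1
  have h3 := FF_lt hb0 hb1
  have h4 : FF a + FF b < Real.log 2 := by
    calc FF a + FF b < a ^ 2 * Real.log 2 + b ^ 2 * Real.log 2 := by linarith
      _ = (a ^ 2 + b ^ 2) * Real.log 2 := by ring
      _ = Real.log 2 := by rw [hab, one_mul]
  linarith

lemma ent_term {p : ℝ} (hp0 : 0 < p) (hp1 : p < 1) (n w : ℕ) (hw : w ≤ n) :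
    p ^ w * (1 - p) ^ (n - w) =
      Real.exp (w * Real.log p + (n - w) * Real.log (1 - p)) := by
  have h1 : 0 < 1 - p := by linarith
  rw [Real.exp_add, mul_comm (w : ℝ), Real.exp_mul, Real.exp_log hp0]
  have h2 : ((n : ℝ) - w) * Real.log (1 - p) = Real.log (1 - p) * ((n - w : ℕ) : ℝ) := by
    rw [Nat.cast_sub hw]
    ring
  rw [h2, Real.exp_mul, Real.exp_log h1, Real.rpow_natCast, Real.rpow_natCast]

lemma ent_eq (p : ℝ) (n : ℝ) : n * Real.binEntropy p =
    -(n * p * Real.log p + (n - n * p) * Real.log (1 - p)) := by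
  unfold Real.binEntropy
  rw [Real.log_inv, Real.log_inv]
  ring

/-- the upper bound for the volume of a ball -/
lemma vol_le {p : ℝ} (hp0 : 0 < p) (hp1 : p ≤ 1 / 2) (n d : ℕ) (hd : d ≤ n + 1)
    (h : ∀ w < d, (w : ℝ) ≤ n * p) : vol n d ≤ Real.exp (n * Real.binEntropy p) := by
  have h1 : ((p + (1 - p)) ^ n : ℝ) = 1 := by
    rw [add_sub_cancel, one_pow]
  rw [add_pow] at h1
  have hq : 0 < 1 - p := by linarith
  have h2 : ∑ w ∈ range d, p ^ w * (1 - p) ^ (n - w) * (n.choose w : ℝ) ≤ 1 := by
    refine le_trans ?_ h1.le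
    refine Finset.sum_le_sum_of_subset_of_nonneg ?_ fun w _ _ => by positivity
    intro w hw
    simp only [Finset.mem_range] at hw ⊢
    omega
  have h3 : vol n d * Real.exp (-(n * Real.binEntropy p)) ≤ 1 := by
    refine le_trans ?_ h2
    unfold vol
    rw [Finset.sum_mul]
    refine Finset.sum_le_sum fun w hw => ?_
    rw [Finset.mem_range] at hw
    have hw' := h w hw
    rw [ent_term hp0 (by linarith) n w (by omega), mul_comm]
    refine mul_le_mul_of_nonneg_right (Real.exp_le_exp.2 ?_) (Nat.cast_nonneg _)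
    rw [ent_eq, neg_neg]
    have h4 : Real.log p ≤ Real.log (1 - p) := Real.log_le_log hp0 (by linarith)
    nlinarith
  rw [Real.exp_neg, ← div_eq_mul_inv, div_le_one (Real.exp_pos _)] at h3
  exact h3

/-- the lower bound for a binomial coefficient -/
lemma choose_ge {n j : ℕ} (hj : 1 ≤ j) (hjn : j < n) :
    Real.exp (n * Real.binEntropy (j / n)) ≤ (n + 1) * (n.choose j : ℝ) := by
  have hn : (0 : ℝ) < n := by exact_mod_cast (by omega : 0 < n)
  have hj0 : (0 : ℝ) < j := by exact_mod_cast (by omega : 0 < j)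
  have hjn' : (j : ℝ) < n := by exact_mod_cast hjn
  obtain ⟨p, hp⟩ : ∃ p : ℝ, p = j / n := ⟨_, rfl⟩
  have hnp : n * p = j := by
    rw [hp]
    field_simp
  have hp0 : 0 < p := by
    rw [hp]
    positivity
  have hp1 : p < 1 := by
    rw [hp, div_lt_one hn]
    exact hjn'
  have hq : 0 < 1 - p := by linarith
  obtain ⟨a, ha⟩ : ∃ a : ℕ → ℝ, a = fun w => p ^ w * (1 - p) ^ (n - w) * (n.choose w : ℝ) :=
    ⟨_, rfl⟩
  have ha' : ∀ w, a w = p ^ w * (1 - p) ^ (n - w) * (n.choose w : ℝ) := fun w => by rw [ha]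
  have ha0 : ∀ w, 0 ≤ a w := by
    intro w
    rw [ha']
    positivity
  have hrec : ∀ w, w < n → a (w + 1) * ((w + 1) * (1 - p)) = a w * ((n - w) * p) := by
    intro w hw
    rw [ha', ha']
    have h1 : (n.choose (w + 1) : ℝ) * (w + 1) = n.choose w * (n - w) := by
      have := Nat.choose_succ_right_eq n w
      have h2 : ((n.choose (w + 1) * (w + 1) : ℕ) : ℝ) = ((n.choose w * (n - w) : ℕ) : ℝ) := by
        rw [this]
      push_cast [Nat.cast_sub hw.le] at h2
      exact h2
    have h2 : (1 - p) ^ (n - w) = (1 - p) ^ (n - (w + 1)) * (1 - p) := by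
      rw [← pow_succ]
      congr 1
      omega
    rw [h2, pow_succ]
    calc p ^ w * p * (1 - p) ^ (n - (w + 1)) * (n.choose (w + 1) : ℝ) * ((w + 1) * (1 - p))
        = p ^ w * p * (1 - p) ^ (n - (w + 1)) * (1 - p) * ((n.choose (w + 1) : ℝ) * (w + 1)) := by
          ring
      _ = _ := by
          rw [h1]
          ring
  have hup : ∀ w, w < j → a w ≤ a (w + 1) := by
    intro w hw
    have h1 := hrec w (by omega)
    have hwj : (w : ℝ) + 1 ≤ j := by exact_mod_cast hw
    have h2 : ((w : ℝ) + 1) * (1 - p) ≤ (n - w) * p := by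
      have : (n : ℝ) * (((w : ℝ) + 1) * (1 - p)) ≤ n * ((n - w) * p) := by
        have e1 : (n : ℝ) * (((w : ℝ) + 1) * (1 - p)) = (w + 1) * (n - j) := by
          rw [← hnp]
          ring
        have e2 : (n : ℝ) * ((n - w) * p) = (n - w) * j := by
          rw [← hnp]
          ring
        rw [e1, e2]
        nlinarith
      exact le_of_mul_le_mul_left this hn
    have h3 : a w * ((n - w) * p) ≤ a (w + 1) * ((n - w) * p) := by
      rw [← h1]
      exact mul_le_mul_of_nonneg_left h2 (ha0 _)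
    refine le_of_mul_le_mul_right h3 (mul_pos ?_ hp0)
    linarith
  have hdown : ∀ w, j ≤ w → w < n → a (w + 1) ≤ a w := by
    intro w hw hwn
    have h1 := hrec w hwn
    have hwj : (j : ℝ) ≤ w := by exact_mod_cast hw
    have h2 : ((n : ℝ) - w) * p ≤ (w + 1) * (1 - p) := by
      have : (n : ℝ) * ((n - w) * p) ≤ n * ((w + 1) * (1 - p)) := by
        have e1 : (n : ℝ) * (((w : ℝ) + 1) * (1 - p)) = (w + 1) * (n - j) := by
          rw [← hnp]
          ring
        have e2 : (n : ℝ) * ((n - w) * p) = (n - w) * j := by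
          rw [← hnp]
          ring
        rw [e1, e2]
        nlinarith
      exact le_of_mul_le_mul_left this hn
    have h3 : a (w + 1) * ((w + 1) * (1 - p)) ≤ a w * ((w + 1) * (1 - p)) := by
      rw [h1]
      exact mul_le_mul_of_nonneg_left h2 (ha0 _)
    exact le_of_mul_le_mul_right h3 (by positivity)
  have h1 : ∀ w, w ≤ j → a w ≤ a j := by
    intro w hw
    obtain ⟨k, rfl⟩ := Nat.exists_eq_add_of_le hw
    clear hw
    have : ∀ i, i ≤ k → a w ≤ a (w + i) := by
      intro i
      induction i with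
      | zero => intro _; exact le_rfl
      | succ i ih =>
        intro hi
        exact (ih (by omega)).trans (hup (w + i) (by omega))
    exact this k le_rfl
  have h2 : ∀ w, j ≤ w → w ≤ n → a w ≤ a j := by
    intro w hw
    induction w, hw using Nat.le_induction with
    | base => intro _; exact le_rfl
    | succ w hw ih =>
      intro hwn
      exact (hdown w hw (by omega)).trans (ih (by omega))
  have h3 : (1 : ℝ) ≤ (n + 1) * a j := by
    have h4 : ((p + (1 - p)) ^ n : ℝ) = 1 := by
      rw [add_sub_cancel, one_pow]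
    rw [add_pow] at h4
    refine h4.symm.le.trans ?_
    calc ∑ w ∈ range (n + 1), p ^ w * (1 - p) ^ (n - w) * (n.choose w : ℝ)
        ≤ ∑ _w ∈ range (n + 1), a j := by
          refine Finset.sum_le_sum fun w hw => ?_
          rw [← ha']
          rcases le_total w j with h | h
          · exact h1 w h
          · exact h2 w h (by have := Finset.mem_range.1 hw; omega)
      _ = (n + 1) * a j := by
          rw [Finset.sum_const, Finset.card_range, nsmul_eq_mul]
          push_cast
          ring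
  rw [ha', ent_term hp0 hp1 n j hjn.le] at h3
  rw [← hp, ent_eq, hnp, Real.exp_neg, inv_le_comm₀ (Real.exp_pos _)]
  · rw [inv_le_iff_one_le_mul₀]
    · calc (1 : ℝ) ≤ _ := h3
        _ = _ := by ring
    · have : (0 : ℝ) < n.choose j := by exact_mod_cast Nat.choose_pos hjn.le
      positivity
  · have : (0 : ℝ) < n.choose j := by exact_mod_cast Nat.choose_pos hjn.le
    positivity

end Pool.Agent.Y570.LS
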