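import Mathlib
import Pool.Agent.Y570.LS.Cond

/-!
Y570/LS (helper570, MP_0430e4_lc): the parameters.
-/

set_option autoImplicit false
set_option linter.unusedSectionVars false

namespace Pool.Agent.Y570.LS

open Finset

/-- the parameters -/
lemma sml_of {κ V E Λ : ℝ} {s t : ℕ} (hV : 0 < V) (hE : 1 ≤ E) (hκ : 1 ≤ κ)
    (hρ1 : E / V ≤ 1) (hΛ0 : 0 ≤ Λ) (hΛ : Λ ≤ κ * V)
    (hA : cc 2 t ^ t * (κ ^ t * (Λ / V * E ^ t)) * t * (2 ^ t * (2 ^ (t ^ 2) * (2 ^ s) ^ t)) ≤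
      1 / 2)
    (hB : 2 ^ s * (E / V * 2 ^ (s ^ 2)) * (3 * ((2 ^ s) ^ t * (t + 1) *
      (((2 ^ s * (s + 1)) ^ 2 * κ * E) ^ t * (2 ^ t * (2 ^ (t ^ 2) * (2 ^ s) ^ t))))) ≤ 1) :
    Sml 2 Λ √(κ * V) (E / V) (cc 2 t ^ t * (κ ^ t * (Λ / V * E ^ t)))
      ((2 ^ s * (s + 1)) ^ 2 * κ * E) s t := by
  have hcc : 1 ≤ cc 2 t := cc_pos (by norm_num) t
  have hκV : 0 ≤ κ * V := by positivity
  have hEp : 0 < E := by linarith
  have hκp : 0 < κ := by linarith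
  have hs1 : (1 : ℝ) ≤ (2 ^ s * (s + 1)) ^ 2 := by
    have h1 : (1 : ℝ) ≤ 2 ^ s := one_le_pow₀ (by norm_num)
    have h2 : (1 : ℝ) ≤ s + 1 := by
      have : (0 : ℝ) ≤ s := Nat.cast_nonneg _
      linarith
    exact one_le_pow₀ (one_le_mul_of_one_le_of_one_le h1 h2)
  refine ⟨?_, by positivity, hρ1, ?_, ?_, by positivity, hA, ?_, hB⟩
  · rw [Real.sq_sqrt hκV]
    exact hΛ
  · exact one_le_mul_of_one_le_of_one_le (one_le_mul_of_one_le_of_one_le hs1 hκ) hE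
  · intro u w hu hut hw hwt
    unfold Nuw
    rw [if_neg (by omega)]
    obtain ⟨k, hk⟩ : ∃ k : ℕ, k = (u - 1) + (w - 1) := ⟨_, rfl⟩
    have hk2 : u + w = k + 2 := by omega
    have hk3 : k ≤ 2 * (t - 1) := by omega
    rw [← hk, hk2, pow_add, Real.sq_sqrt (by positivity)]
    have e1 : √(κ * V) ^ k * √(E / V) ^ k = √(κ * E) ^ k := by
      rw [← mul_pow, ← Real.sqrt_mul hκV]
      congr 2
      field_simp
    have h1 : 1 ≤ √(κ * E) := by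
      rw [Real.one_le_sqrt]
      exact one_le_mul_of_one_le_of_one_le hκ hE
    have e2 : √(κ * E) ^ k ≤ (κ * E) ^ (t - 1) := by
      calc √(κ * E) ^ k ≤ √(κ * E) ^ (2 * (t - 1)) := pow_le_pow_right₀ h1 hk3
        _ = (κ * E) ^ (t - 1) := by rw [pow_mul, Real.sq_sqrt (by positivity)]
    have e3 : cc 2 t ^ u ≤ cc 2 t ^ t := pow_le_pow_right₀ hcc hut
    have e4 : κ ^ (t - 1) ≤ κ ^ t := pow_le_pow_right₀ hκ (by omega)
    have e5 : E ^ t = E ^ (t - 1) * E := by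
      rw [← pow_succ]
      congr 1
      omega
    calc cc 2 t ^ u * Λ * √(κ * V) ^ k * (√(E / V) ^ k * (E / V))
        = cc 2 t ^ u * (Λ * (E / V)) * (√(κ * V) ^ k * √(E / V) ^ k) := by ring
      _ ≤ cc 2 t ^ t * (Λ * (E / V)) * (κ * E) ^ (t - 1) := by
          rw [e1]
          have : 0 ≤ cc 2 t := by linarith
          gcongr
      _ = cc 2 t ^ t * (κ ^ (t - 1) * (Λ / V * E ^ t)) := by
          rw [mul_pow, e5]
          ring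
      _ ≤ cc 2 t ^ t * (κ ^ t * (Λ / V * E ^ t)) := by
          have : 0 ≤ cc 2 t := by linarith
          gcongr
  · have e1 : (2 ^ s * (s : ℝ) * √(κ * V)) ^ 2 * (E / V) = (2 ^ s * (s : ℝ)) ^ 2 * κ * E := by
      rw [mul_pow, Real.sq_sqrt hκV]
      field_simp
    rw [e1]
    gcongr
    linarith

lemma two_le (t : ℕ) : (t : ℝ) + 1 ≤ 2 ^ t := by
  have h : t + 1 ≤ 2 ^ t := Nat.lt_two_pow_self
  exact_mod_cast h

lemma cc_two (t : ℕ) : cc 2 t ≤ 2 ^ (4 * t) := by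
  unfold cc
  have h1 := two_le t
  have h0 : (0 : ℝ) ≤ t := Nat.cast_nonneg _
  have h3 : (1 : ℝ) ≤ 2 ^ t := one_le_pow₀ (by norm_num)
  have h2 : (2 : ℝ) ^ t * t + 1 ≤ 2 ^ t * 2 ^ t := by nlinarith
  calc (2 : ℝ) ^ t * ((t + 1) * (2 ^ t * t + 1)) ≤ 2 ^ t * (2 ^ t * (2 ^ t * 2 ^ t)) := by
        gcongr
    _ = 2 ^ (4 * t) := by
        rw [← pow_add, ← pow_add, ← pow_add]
        congr 1
        ring

lemma bnd_A {s t r K1 : ℕ} (hs : s ≤ r) (ht : t ≤ r) {κ x : ℝ} (hκ0 : 0 ≤ κ) (hκ : κ ≤ 2 ^ K1)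
    (hx : 0 ≤ x) :
    cc 2 t ^ t * (κ ^ t * x) * t * (2 ^ t * (2 ^ (t ^ 2) * (2 ^ s) ^ t)) ≤
      2 ^ ((K1 + 8) * r ^ 2) * x := by
  have hcc0 : 0 ≤ cc 2 t := by linarith [cc_pos (K := 2) (by norm_num) t]
  have h1 : cc 2 t ^ t ≤ 2 ^ (4 * t * t) := by
    rw [pow_mul]
    exact pow_le_pow_left₀ hcc0 (cc_two t) t
  have h2 : κ ^ t ≤ 2 ^ (K1 * t) := by
    rw [pow_mul]
    exact pow_le_pow_left₀ hκ0 hκ t
  have h3 : (t : ℝ) ≤ 2 ^ t := by linarith [two_le t]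
  have hr : r ≤ r ^ 2 := by nlinarith
  have hexp : 4 * t * t + K1 * t + t + (t + (t ^ 2 + s * t)) ≤ (K1 + 8) * r ^ 2 := by
    have a1 : t * t ≤ r ^ 2 := by
      rw [sq]
      exact Nat.mul_le_mul ht ht
    have a2 : s * t ≤ r ^ 2 := by
      rw [sq]
      exact Nat.mul_le_mul hs ht
    have a3 : K1 * t ≤ K1 * r ^ 2 := Nat.mul_le_mul_left _ (ht.trans hr)
    nlinarith
  calc cc 2 t ^ t * (κ ^ t * x) * t * (2 ^ t * (2 ^ (t ^ 2) * (2 ^ s) ^ t))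
      ≤ 2 ^ (4 * t * t) * (2 ^ (K1 * t) * x) * 2 ^ t * (2 ^ t * (2 ^ (t ^ 2) * (2 ^ s) ^ t)) := by
        gcongr
    _ = 2 ^ (4 * t * t + K1 * t + t + (t + (t ^ 2 + s * t))) * x := by
        rw [← pow_mul]
        simp only [pow_add]
        ring
    _ ≤ 2 ^ ((K1 + 8) * r ^ 2) * x :=
        mul_le_mul_of_nonneg_right (pow_le_pow_right₀ (by norm_num) hexp) hx

lemma bnd_B {s t r K1 : ℕ} (hs : s ≤ r) (ht : t ≤ r) {κ E V : ℝ} (hκ0 : 0 ≤ κ)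
    (hκ : κ ≤ 2 ^ K1) (hE : 0 ≤ E) (hV : 0 < V) :
    2 ^ s * (E / V * 2 ^ (s ^ 2)) * (3 * ((2 ^ s) ^ t * (t + 1) *
      (((2 ^ s * (s + 1)) ^ 2 * κ * E) ^ t * (2 ^ t * (2 ^ (t ^ 2) * (2 ^ s) ^ t))))) ≤
      2 ^ ((K1 + 11) * r ^ 2 + 2) * (E / V * E ^ t) := by
  have hr : r ≤ r ^ 2 := by nlinarith
  have h1 := two_le t
  have h2 := two_le s
  have h3 : (2 ^ s * ((s : ℝ) + 1)) ^ 2 * κ ≤ 2 ^ (4 * s + K1) := by
    calc (2 ^ s * ((s : ℝ) + 1)) ^ 2 * κ ≤ (2 ^ s * 2 ^ s) ^ 2 * 2 ^ K1 := by gcongr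
      _ = 2 ^ (4 * s + K1) := by
          rw [← pow_add, ← pow_mul, ← pow_add]
          congr 1
          ring
  have h4 : ((2 ^ s * ((s : ℝ) + 1)) ^ 2 * κ * E) ^ t ≤ 2 ^ ((4 * s + K1) * t) * E ^ t := by
    rw [mul_pow, pow_mul]
    gcongr
  have hexp : s + s ^ 2 + (2 + (s * t + t + ((4 * s + K1) * t + (t + (t ^ 2 + s * t))))) ≤
      (K1 + 11) * r ^ 2 + 2 := by
    have a0 : s * s ≤ r ^ 2 := by
      rw [sq]
      exact Nat.mul_le_mul hs hs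
    have a1 : t * t ≤ r ^ 2 := by
      rw [sq]
      exact Nat.mul_le_mul ht ht
    have a2 : s * t ≤ r ^ 2 := by
      rw [sq]
      exact Nat.mul_le_mul hs ht
    have a3 : K1 * t ≤ K1 * r ^ 2 := Nat.mul_le_mul_left _ (ht.trans hr)
    nlinarith
  have h34 : (3 : ℝ) ≤ 2 ^ 2 := by norm_num
  calc 2 ^ s * (E / V * 2 ^ (s ^ 2)) * (3 * ((2 ^ s) ^ t * (t + 1) *
      (((2 ^ s * (s + 1)) ^ 2 * κ * E) ^ t * (2 ^ t * (2 ^ (t ^ 2) * (2 ^ s) ^ t)))))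
      ≤ 2 ^ s * (E / V * 2 ^ (s ^ 2)) * (2 ^ 2 * ((2 ^ s) ^ t * 2 ^ t *
      (2 ^ ((4 * s + K1) * t) * E ^ t * (2 ^ t * (2 ^ (t ^ 2) * (2 ^ s) ^ t))))) := by
        gcongr
    _ = 2 ^ (s + s ^ 2 + (2 + (s * t + t + ((4 * s + K1) * t + (t + (t ^ 2 + s * t)))))) *
        (E / V * E ^ t) := by
        simp only [← pow_mul]
        simp only [pow_add]
        ring
    _ ≤ 2 ^ ((K1 + 11) * r ^ 2 + 2) * (E / V * E ^ t) :=
        mul_le_mul_of_nonneg_right (pow_le_pow_right₀ (by norm_num) hexp) (by positivity)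

end Pool.Agent.Y570.LS
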