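import Mathlib
import Pool.Agent.Y570.LS.Cube
import Pool.Agent.Y570.LS.Ent
import Pool.Agent.Y570.LS.Param

/-!
Y570/LS (helper570, MP_0430e4_lc): the lower bound for the sum-of-squares bounds.
-/

set_option autoImplicit false
set_option linter.unusedSectionVars false

open Filter Topology

namespace Pool.Agent.Y570.LS

open Pool.Agent.TH41.BL

/-- pseudo-codes -/
structure PC (s t n d : ℕ) (y : Finset (Fin n → Bool) → ℝ) : Prop where
  one : y ∅ = 1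
  dist : ∀ S : Finset (Fin n → Bool), ∀ u ∈ S, ∀ v ∈ S, u ≠ v → hammingDist u v < d → y S = 0
  psd : ∀ D E : Finset (Fin n → Bool), D.card + E.card ≤ s →
    ∀ f : Finset (Fin n → Bool) → ℝ, (∀ S, t < S.card → f S = 0) →
      0 ≤ ∑ S, ∑ T, f S * f T * KP.cond y D E (S ∪ T)

lemma params {δ γ : ℝ} (h0 : 0 < δ) (h1 : δ < 1 / 2)
    (hγ : 2 * γ < Real.binEntropy (1 / 2 - √(δ * (1 - δ))) + Real.binEntropy δ - Real.log 2) :
    ∃ β β' μ q : ℝ, 0 < β' ∧ β' < β ∧ β < 1 / 2 ∧ δ < μ ∧ μ < 1 / 2 ∧ 0 < q ∧ q < 1 ∧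
      4 * (μ * (1 - μ)) < q * (1 - 2 * β) ^ 2 ∧
      2 * γ < Real.binEntropy β' + Real.binEntropy δ - Real.log 2 := by
  obtain ⟨b, hb⟩ : ∃ b : ℝ, b = 1 / 2 - √(δ * (1 - δ)) := ⟨_, rfl⟩
  have hp : 0 < δ * (1 - δ) := mul_pos h0 (by linarith)
  have hs0 : 0 < √(δ * (1 - δ)) := Real.sqrt_pos.2 hp
  have hs1 : √(δ * (1 - δ)) < 1 / 2 := by
    rw [Real.sqrt_lt' (by norm_num)]
    nlinarith [sq_nonneg (δ - 1 / 2), mul_pos (sub_pos.2 h1) (sub_pos.2 h1)]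
  have hb0 : 0 < b := by linarith
  have hb1 : b < 1 / 2 := by linarith
  have hbb : (1 - 2 * b) ^ 2 = 4 * (δ * (1 - δ)) := by
    have : 1 - 2 * b = 2 * √(δ * (1 - δ)) := by rw [hb]; ring
    rw [this, mul_pow, Real.sq_sqrt hp.le]
    ring
  rw [← hb] at hγ
  have hcont : Continuous fun x => Real.binEntropy x + Real.binEntropy δ - Real.log 2 :=
    (Real.binEntropy_continuous.add continuous_const).sub continuous_const
  have hev : ∀ᶠ x in 𝓝 b, 2 * γ < Real.binEntropy x + Real.binEntropy δ - Real.log 2 :=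
    (hcont.tendsto b).eventually (lt_mem_nhds hγ)
  obtain ⟨ε, hε, hball⟩ := Metric.eventually_nhds_iff.1 hev
  obtain ⟨η, hη⟩ : ∃ η : ℝ, η = min (ε / 2) (b / 2) := ⟨_, rfl⟩
  have hη0 : 0 < η := by
    rw [hη]
    exact lt_min (by linarith) (by linarith)
  have hη1 : η ≤ ε / 2 := by rw [hη]; exact min_le_left _ _
  have hη2 : η ≤ b / 2 := by rw [hη]; exact min_le_right _ _
  obtain ⟨β, hβ⟩ : ∃ β : ℝ, β = b - η / 2 := ⟨_, rfl⟩
  have hq0 : 4 * (δ * (1 - δ)) < (1 - 2 * β) ^ 2 := by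
    rw [← hbb]
    have : 1 - 2 * b < 1 - 2 * β := by linarith
    exact pow_lt_pow_left₀ this (by linarith) (by norm_num)
  have hP : 0 < (1 - 2 * β) ^ 2 := by linarith [hp]
  obtain ⟨q, hq⟩ : ∃ q : ℝ, q = (4 * (δ * (1 - δ)) / (1 - 2 * β) ^ 2 + 1) / 2 := ⟨_, rfl⟩
  have hq1 : 4 * (δ * (1 - δ)) / (1 - 2 * β) ^ 2 < 1 := by
    rw [div_lt_one hP]
    exact hq0
  have hq2 : 4 * (δ * (1 - δ)) / (1 - 2 * β) ^ 2 < q := by linarith
  have hq3 : 4 * (δ * (1 - δ)) < q * (1 - 2 * β) ^ 2 := by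
    rwa [div_lt_iff₀ hP] at hq2
  obtain ⟨ν, hν⟩ : ∃ ν : ℝ, ν = min ((1 / 2 - δ) / 2)
    ((q * (1 - 2 * β) ^ 2 - 4 * (δ * (1 - δ))) / 8) := ⟨_, rfl⟩
  have hν0 : 0 < ν := by
    rw [hν]
    exact lt_min (by linarith) (by linarith)
  have hν1 : ν ≤ (1 / 2 - δ) / 2 := by rw [hν]; exact min_le_left _ _
  have hν2 : ν ≤ (q * (1 - 2 * β) ^ 2 - 4 * (δ * (1 - δ))) / 8 := by
    rw [hν]; exact min_le_right _ _
  refine ⟨β, b - η, δ + ν, q, by linarith, by linarith, by linarith, by linarith, by linarith,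
    ?_, by linarith, ?_, ?_⟩
  · have : 0 < 4 * (δ * (1 - δ)) / (1 - 2 * β) ^ 2 := by positivity
    linarith
  · nlinarith
  · refine hball ?_
    rw [Real.dist_eq, show b - η - b = -η by ring, abs_neg, abs_of_pos hη0]
    linarith

theorem ev1 (C b : ℝ) (hC : 0 < C) (hb : 0 < b) :
    ∀ᶠ m : ℕ in atTop, C * ((m : ℝ) + 1) ≤ Real.exp (m * b) := by
  have h := (isLittleO_pow_exp_pos_mul_atTop (k := 1) hb).def (c := Real.exp (-b) / C)
    (by positivity)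
  have h2 : Tendsto (fun m : ℕ => (m : ℝ) + 1) atTop atTop :=
    tendsto_atTop_add_const_right _ _ tendsto_natCast_atTop_atTop
  filter_upwards [h2.eventually h] with m hm
  rw [Real.norm_of_nonneg (by positivity), Real.norm_of_nonneg (Real.exp_pos _).le] at hm
  have h3 : Real.exp (-b) / C * Real.exp (b * ((m : ℝ) + 1)) = Real.exp (m * b) / C := by
    rw [div_mul_eq_mul_div, ← Real.exp_add]
    ring_nf
  rw [h3, le_div_iff₀ hC] at hm
  linarith

lemma binEntropy_mono {a b : ℝ} (h0 : 0 ≤ a) (h : a ≤ b) (h1 : b ≤ 1 / 2) :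
    Real.binEntropy a ≤ Real.binEntropy b := by
  refine Real.binEntropy_strictMonoOn.monotoneOn ⟨h0, ?_⟩ ⟨h0.trans h, ?_⟩ h
  · norm_num
    linarith
  · norm_num
    linarith

/-- **The lower bound.** -/
theorem lower (hc : S7_chr) {δ γ : ℝ} (h0 : 0 < δ) (h1 : δ < 1 / 2) (hγ0 : 0 ≤ γ)
    (hγ : 2 * γ < Real.binEntropy (1 / 2 - √(δ * (1 - δ))) + Real.binEntropy δ - Real.log 2) :
    ∃ c : ℝ, 0 < c ∧ ∃ n₀ : ℕ, ∀ n ≥ n₀, ∀ s t : ℕ, 1 ≤ t → (s : ℝ) ≤ c * √n →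
      (t : ℝ) ≤ c * √n → ∃ y, PC s t n ⌈δ * n⌉₊ y ∧
        ∑ x, y {x} = 2 ^ n * Real.exp (γ * n / t - n * Real.binEntropy δ) := by
  obtain ⟨β, β', μ, q, hβ'0, hβ', hβ1, hδμ, hμ, hq0, hq1, hqq, hgain⟩ := params h0 h1 hγ
  obtain ⟨κ, hκ⟩ : ∃ κ : ℝ, κ = 1 / (1 - q) ^ 2 := ⟨_, rfl⟩
  have hq2 : 0 < 1 - q := by linarith
  have hκ1 : 1 ≤ κ := by
    rw [hκ, one_le_div (by positivity)]
    exact pow_le_one₀ hq2.le (by linarith)
  have hκ0 : 0 < κ := by linarith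
  obtain ⟨K1, hK1⟩ : ∃ K1 : ℕ, κ ≤ 2 ^ K1 := by
    obtain ⟨k, hk⟩ := pow_unbounded_of_one_lt κ (by norm_num : (1 : ℝ) < 2)
    exact ⟨k, hk.le⟩
  obtain ⟨hd, hhd⟩ : ∃ hd : ℝ, hd = Real.binEntropy δ := ⟨_, rfl⟩
  obtain ⟨hb, hhb⟩ : ∃ hb : ℝ, hb = Real.binEntropy β' := ⟨_, rfl⟩
  obtain ⟨hm, hhm⟩ : ∃ hm : ℝ, hm = Real.binEntropy μ := ⟨_, rfl⟩
  rw [← hhd, ← hhb] at hgain
  rw [← hhd]
  have hl2 : 0 < Real.log 2 := Real.log_pos (by norm_num)
  have hb2 : hb ≤ Real.log 2 := by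
    rw [hhb]
    exact Real.binEntropy_le_log_two
  obtain ⟨θ, hθ⟩ : ∃ θ : ℝ, θ = (hd + hb - Real.log 2) / 2 - γ := ⟨_, rfl⟩
  have hθ0 : 0 < θ := by linarith
  have hdm : hd < hm := by
    rw [hhd, hhm]
    refine Real.binEntropy_strictMonoOn ⟨h0.le, ?_⟩ ⟨by linarith, ?_⟩ hδμ
    · norm_num
      linarith
    · norm_num
      linarith
  obtain ⟨c, hcd⟩ : ∃ c : ℝ, c = √(θ / 2 / ((K1 + 11) * Real.log 2)) := ⟨_, rfl⟩
  have hc0 : 0 < c := by
    rw [hcd]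
    exact Real.sqrt_pos.2 (by positivity)
  have hcc : ((K1 : ℝ) + 11) * Real.log 2 * c ^ 2 = θ / 2 := by
    rw [hcd, Real.sq_sqrt (by positivity)]
    field_simp
  have hε : 0 < q * (1 - 2 * β) ^ 2 - 4 * (μ * (1 - μ)) := by linarith
  refine ⟨c, hc0, ?_⟩
  have hN : ∀ C : ℝ, ∀ᶠ n : ℕ in atTop, C ≤ (n : ℝ) := fun C =>
    tendsto_natCast_atTop_atTop.eventually_ge_atTop C
  have hall := ((((hN 1).and (hN (2 / (1 - 2 * μ)))).and
    ((hN (8 / (q * (1 - 2 * β) ^ 2 - 4 * (μ * (1 - μ))))).and (hN (1 / (β - β'))))).and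
    (((ev1 κ (hm - hd) hκ0 (by linarith)).and (ev1 1 (hd + hb - Real.log 2) one_pos
      (by linarith))).and (ev1 (8 * κ) (θ / 2) (by positivity) (by linarith))))
  obtain ⟨n₀, hn₀⟩ := eventually_atTop.1 hall
  refine ⟨n₀, fun n hn s t ht hsc htc => ?_⟩
  obtain ⟨⟨⟨E1, E2⟩, E3, E4⟩, ⟨E5, E6⟩, E7⟩ := hn₀ n hn
  have hn0 : (0 : ℝ) < n := by linarith
  have hμ0 : 0 < μ := by linarith
  have hβ0 : 0 < β := by linarith
  have hμ3 : 0 < 1 - μ := by linarith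
  -- the integers
  obtain ⟨d, hdd⟩ : ∃ d : ℕ, d = ⌈δ * n⌉₊ := ⟨_, rfl⟩
  obtain ⟨m, hmd⟩ : ∃ m : ℕ, m = ⌈μ * n⌉₊ := ⟨_, rfl⟩
  obtain ⟨j₀, hjd⟩ : ∃ j₀ : ℕ, j₀ = ⌊β * n⌋₊ := ⟨_, rfl⟩
  have hd1 : 1 ≤ d := by
    rw [hdd]
    exact Nat.one_le_iff_ne_zero.2 (Nat.ceil_pos.2 (by positivity)).ne'
  have hdm' : d ≤ m := by
    rw [hdd, hmd]
    exact Nat.ceil_mono (mul_le_mul_of_nonneg_right hδμ.le hn0.le)
  have hm1 : (m : ℝ) ≤ μ * n + 1 := by
    rw [hmd]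
    exact (Nat.ceil_lt_add_one (by positivity)).le
  have hm2 : μ * n ≤ m := by
    rw [hmd]
    exact Nat.le_ceil _
  have hj1 : (j₀ : ℝ) ≤ β * n := by
    rw [hjd]
    exact Nat.floor_le (by positivity)
  have hj2 : β * n - 1 ≤ j₀ := by
    rw [hjd]
    exact (Nat.sub_one_lt_floor _).le
  have E2' : 2 * (μ * n + 1) ≤ n := by
    rw [div_le_iff₀ (by linarith)] at E2
    linarith
  have E4' : β' * n ≤ β * n - 1 := by
    rw [div_le_iff₀ (by linarith)] at E4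
    linarith
  have hmn' : (2 : ℝ) * m ≤ n := by linarith
  have hmn : 2 * m ≤ n := by exact_mod_cast hmn'
  have hjn' : (2 : ℝ) * j₀ ≤ n := by
    have b1 : β * n ≤ 1 / 2 * n := mul_le_mul_of_nonneg_right hβ1.le hn0.le
    linarith
  have hjn : 2 * j₀ ≤ n := by exact_mod_cast hjn'
  have hβn : β' * n ≤ j₀ := by linarith
  have hj01 : 1 ≤ j₀ := by
    have : (0 : ℝ) < j₀ := lt_of_lt_of_le (by positivity) hβn
    exact_mod_cast this
  have hj0n : j₀ < n := by omega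
  have hm0n : m < n := by omega
  have hqn : 4 * ((m : ℝ) * ((n : ℝ) - m + 1)) ≤ q * ((n : ℝ) + 2 - 2 * j₀) ^ 2 := by
    have a1 : (m : ℝ) * ((n : ℝ) - m + 1) ≤ (μ * n + 1) * ((1 - μ) * n + 1) := by
      have a3 : (n : ℝ) - m + 1 ≤ (1 - μ) * n + 1 := by linarith
      have a4 : (0 : ℝ) ≤ (n : ℝ) - m + 1 := by linarith
      exact mul_le_mul hm1 a3 a4 (by positivity)
    have a2 : ((1 - 2 * β) * n) ^ 2 ≤ ((n : ℝ) + 2 - 2 * j₀) ^ 2 := by
      refine pow_le_pow_left₀ ?_ ?_ 2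
      · exact mul_nonneg (by linarith) hn0.le
      · linarith
    have a5 : 4 * ((μ * n + 1) * ((1 - μ) * n + 1)) ≤ q * ((1 - 2 * β) * n) ^ 2 := by
      have a6 : 8 ≤ (q * (1 - 2 * β) ^ 2 - 4 * (μ * (1 - μ))) * n := by
        rwa [div_le_iff₀' hε] at E3
      have a7 : 8 * n ≤ (q * (1 - 2 * β) ^ 2 - 4 * (μ * (1 - μ))) * n * n :=
        mul_le_mul_of_nonneg_right a6 hn0.le
      have a8 : 4 * ((μ * n + 1) * ((1 - μ) * n + 1)) = 4 * (μ * (1 - μ)) * n * n + 4 * n + 4 := by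
        ring
      have a10 : q * ((1 - 2 * β) * n) ^ 2 = q * (1 - 2 * β) ^ 2 * n * n := by ring
      have a11 : (q * (1 - 2 * β) ^ 2 - 4 * (μ * (1 - μ))) * n * n =
        q * (1 - 2 * β) ^ 2 * n * n - 4 * (μ * (1 - μ)) * n * n := by ring
      rw [a8, a10]
      linarith
    have a9 := mul_le_mul_of_nonneg_left a2 hq0.le
    linarith
  -- the volumes
  obtain ⟨V, hV⟩ : ∃ V : ℝ, V = Real.exp (n * hd) := ⟨_, rfl⟩
  have hV0 : 0 < V := by
    rw [hV]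
    exact Real.exp_pos _
  have hvol : vol n d ≤ V := by
    rw [hV, hhd]
    refine vol_le h0 h1.le n d (by omega) fun w hw => ?_
    rw [hdd, Nat.lt_ceil] at hw
    linarith
  have hvol0 : 0 ≤ vol n d := Finset.sum_nonneg fun w _ => Nat.cast_nonneg _
  have hcm : Real.exp (n * hm) ≤ (n + 1) * (n.choose m : ℝ) := by
    refine le_trans (Real.exp_le_exp.2 ?_) (choose_ge (by omega) hm0n)
    refine mul_le_mul_of_nonneg_left ?_ hn0.le
    rw [hhm]
    refine binEntropy_mono (by linarith) ?_ ?_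
    · rw [le_div_iff₀ hn0]
      exact hm2
    · rw [div_le_iff₀ hn0]
      linarith
  have hcj : Real.exp (n * hb) ≤ (n + 1) * (n.choose j₀ : ℝ) := by
    refine le_trans (Real.exp_le_exp.2 ?_) (choose_ge hj01 hj0n)
    refine mul_le_mul_of_nonneg_left ?_ hn0.le
    rw [hhb]
    refine binEntropy_mono hβ'0.le ?_ ?_
    · rw [le_div_iff₀ hn0]
      exact hβn
    · rw [div_le_iff₀ hn0]
      linarith
  have hn1 : (0 : ℝ) < n + 1 := by linarith
  have hκv : vol n d / (1 - q) ^ 2 ≤ κ * V := by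
    rw [hκ, div_mul_eq_mul_div, one_mul]
    exact div_le_div_of_nonneg_right hvol (by positivity)
  have hC : vol n d / (1 - q) ^ 2 ≤ n.choose m := by
    refine hκv.trans ?_
    have b1 : κ * ((n : ℝ) + 1) * V ≤ Real.exp (n * hm) := by
      calc κ * ((n : ℝ) + 1) * V ≤ Real.exp (n * (hm - hd)) * V :=
            mul_le_mul_of_nonneg_right E5 hV0.le
        _ = Real.exp (n * hm) := by
            rw [hV, ← Real.exp_add]
            congr 1
            ring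
    have b2 : ((n : ℝ) + 1) * (κ * V) ≤ (n + 1) * (n.choose m : ℝ) := by
      calc ((n : ℝ) + 1) * (κ * V) = κ * ((n : ℝ) + 1) * V := by ring
        _ ≤ _ := b1.trans hcm
    exact le_of_mul_le_mul_left b2 hn1
  obtain ⟨Λ, hΛ⟩ : ∃ Λ : ℝ, Λ = √(κ * (n + 1)) * Real.exp (n * (Real.log 2 + hd - hb) / 2) :=
    ⟨_, rfl⟩
  have hΛ0 : 0 < Λ := by
    rw [hΛ]
    have : 0 < √(κ * (n + 1)) := Real.sqrt_pos.2 (by positivity)
    have := Real.exp_pos (n * (Real.log 2 + hd - hb) / 2)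
    positivity
  have hΛ2 : Λ ^ 2 = κ * (n + 1) * Real.exp (n * (Real.log 2 + hd - hb)) := by
    rw [hΛ, mul_pow, Real.sq_sqrt (by positivity), ← Real.exp_nat_mul]
    congr 2
    push_cast
    ring
  have h2n : (2 : ℝ) ^ n = Real.exp (n * Real.log 2) := by
    rw [mul_comm, Real.exp_mul, Real.exp_log (by norm_num), Real.rpow_natCast]
  have hspec : 2 ^ n * (vol n d / (1 - q) ^ 2) ≤ n.choose j₀ * Λ ^ 2 := by
    calc 2 ^ n * (vol n d / (1 - q) ^ 2) ≤ 2 ^ n * (κ * V) :=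
          mul_le_mul_of_nonneg_left hκv (by positivity)
      _ = κ * Real.exp (n * (Real.log 2 + hd - hb)) * Real.exp (n * hb) := by
          rw [h2n, hV]
          have : Real.exp (n * (Real.log 2 + hd - hb)) * Real.exp (n * hb) =
              Real.exp (n * Real.log 2) * Real.exp (n * hd) := by
            rw [← Real.exp_add, ← Real.exp_add]
            congr 1
            ring
          rw [mul_assoc κ, this]
          ring
      _ ≤ κ * Real.exp (n * (Real.log 2 + hd - hb)) * ((n + 1) * (n.choose j₀ : ℝ)) :=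
          mul_le_mul_of_nonneg_left hcj (by positivity)
      _ = n.choose j₀ * Λ ^ 2 := by
          rw [hΛ2]
          ring
  have hκV : 0 ≤ κ * V := by positivity
  obtain ⟨g, hg1, hg2, hg3⟩ := cube_kernel hc n d m j₀ hd1 hdm' hmn hjn q hqn hq1 hC Λ
    √(κ * V) hΛ0 (Real.sqrt_nonneg _) (by rw [Real.sq_sqrt hκV]; exact hκv) hspec
  -- the smallness
  have ht0 : (0 : ℝ) < t := by exact_mod_cast ht
  obtain ⟨E, hE⟩ : ∃ E : ℝ, E = Real.exp (γ * n / t) := ⟨_, rfl⟩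
  have hE1 : 1 ≤ E := by
    rw [hE]
    exact Real.one_le_exp (by positivity)
  have hEt : E ^ t = Real.exp (γ * n) := by
    rw [hE, ← Real.exp_nat_mul]
    congr 1
    field_simp
  have hΛκ : Λ ≤ κ * V := by
    refine (sq_le_sq₀ hΛ0.le hκV).1 ?_
    rw [hΛ2]
    calc κ * (n + 1) * Real.exp (n * (Real.log 2 + hd - hb))
        ≤ κ * Real.exp (n * (hd + hb - Real.log 2)) * Real.exp (n * (Real.log 2 + hd - hb)) := by
          refine mul_le_mul_of_nonneg_right ?_ (Real.exp_pos _).le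
          rw [one_mul] at E6
          exact mul_le_mul_of_nonneg_left E6 hκ0.le
      _ = κ * V ^ 2 := by
          rw [hV, mul_assoc, ← Real.exp_add, ← Real.exp_nat_mul]
          congr 2
          push_cast
          ring
      _ ≤ κ ^ 2 * V ^ 2 := by
          refine mul_le_mul_of_nonneg_right ?_ (by positivity)
          exact le_self_pow₀ hκ1 (by norm_num)
      _ = (κ * V) ^ 2 := by ring
  obtain ⟨r, hr⟩ : ∃ r : ℕ, r = ⌊c * √n⌋₊ := ⟨_, rfl⟩
  have hsr : s ≤ r := by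
    rw [hr]
    exact Nat.le_floor hsc
  have htr : t ≤ r := by
    rw [hr]
    exact Nat.le_floor htc
  have hr2 : ((r : ℝ)) ^ 2 ≤ c ^ 2 * n := by
    have : (r : ℝ) ≤ c * √n := by
      rw [hr]
      exact Nat.floor_le (by positivity)
    calc ((r : ℝ)) ^ 2 ≤ (c * √n) ^ 2 := pow_le_pow_left₀ (Nat.cast_nonneg _) this 2
      _ = c ^ 2 * n := by rw [mul_pow, Real.sq_sqrt hn0.le]
  have hpow : (2 : ℝ) ^ ((K1 + 11) * r ^ 2 + 2) ≤ 4 * Real.exp (n * (θ / 2)) := by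
    rw [pow_add]
    have b1 : (2 : ℝ) ^ ((K1 + 11) * r ^ 2) ≤ Real.exp (n * (θ / 2)) := by
      have b2 : (2 : ℝ) ^ ((K1 + 11) * r ^ 2) =
          Real.exp (Real.log 2 * (((K1 : ℝ) + 11) * (r : ℝ) ^ 2)) := by
        rw [Real.exp_mul, Real.exp_log (by norm_num)]
        have : ((K1 : ℝ) + 11) * (r : ℝ) ^ 2 = (((K1 + 11) * r ^ 2 : ℕ) : ℝ) := by push_cast; ring
        rw [this, Real.rpow_natCast]
      rw [b2, Real.exp_le_exp, ← hcc]
      calc Real.log 2 * (((K1 : ℝ) + 11) * (r : ℝ) ^ 2)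
          ≤ Real.log 2 * (((K1 : ℝ) + 11) * (c ^ 2 * n)) := by
            refine mul_le_mul_of_nonneg_left (mul_le_mul_of_nonneg_left hr2 ?_) hl2.le
            positivity
        _ = _ := by ring
    linarith
  have hx1 : Λ / V * E ^ t = √(κ * (n + 1)) * Real.exp (-(n * θ)) := by
    rw [hEt, hΛ, hV, div_eq_mul_inv, ← Real.exp_neg, mul_assoc, mul_assoc, ← Real.exp_add,
      ← Real.exp_add]
    congr 2
    rw [hθ]
    ring
  have hx2 : E / V * E ^ t ≤ Real.exp (-(n * θ)) := by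
    rw [hEt, hE, hV, div_eq_mul_inv, ← Real.exp_neg, ← Real.exp_add, ← Real.exp_add,
      Real.exp_le_exp]
    have b1 : γ * n / t ≤ γ * n := by
      refine div_le_self (by positivity) ?_
      exact_mod_cast ht
    have b2 : 0 ≤ n * (Real.log 2 - hb) := mul_nonneg hn0.le (by linarith)
    have b3 : -(n * θ) = γ * n + γ * n - n * hd + n * (Real.log 2 - hb) + n * θ := by
      rw [hθ]
      ring
    have b4 : 0 < n * θ := by positivity
    linarith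
  have hsq1 : 1 ≤ κ * ((n : ℝ) + 1) := one_le_mul_of_one_le_of_one_le hκ1 (by linarith)
  have hsq : √(κ * (n + 1)) ≤ κ * (n + 1) :=
    Real.sqrt_le_iff.2 ⟨by positivity, le_self_pow₀ hsq1 (by norm_num)⟩
  have hfin : 8 * (κ * ((n : ℝ) + 1)) * Real.exp (n * (θ / 2)) * Real.exp (-(n * θ)) ≤ 1 := by
    calc 8 * (κ * ((n : ℝ) + 1)) * Real.exp (n * (θ / 2)) * Real.exp (-(n * θ))
        = 8 * κ * ((n : ℝ) + 1) * (Real.exp (n * (θ / 2)) * Real.exp (-(n * θ))) := by ring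
      _ ≤ Real.exp (n * (θ / 2)) * (Real.exp (n * (θ / 2)) * Real.exp (-(n * θ))) :=
          mul_le_mul_of_nonneg_right E7 (by positivity)
      _ = 1 := by
          rw [← Real.exp_add, ← Real.exp_add, ← Real.exp_zero]
          congr 1
          ring
  have hρ1 : E / V ≤ 1 := by
    have b1 : E / V ≤ E / V * E ^ t := le_mul_of_one_le_right (by positivity) (one_le_pow₀ hE1)
    refine b1.trans (hx2.trans ?_)
    rw [Real.exp_le_one_iff]
    have : 0 < n * θ := by positivity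
    linarith
  have hA : cc 2 t ^ t * (κ ^ t * (Λ / V * E ^ t)) * t *
      (2 ^ t * (2 ^ (t ^ 2) * (2 ^ s) ^ t)) ≤ 1 / 2 := by
    refine (bnd_A hsr htr hκ0.le hK1 (by positivity)).trans ?_
    have b1 : (2 : ℝ) ^ ((K1 + 8) * r ^ 2) ≤ 2 ^ ((K1 + 11) * r ^ 2 + 2) := by
      refine pow_le_pow_right₀ (by norm_num) ?_
      have b0 : (K1 + 8) * r ^ 2 ≤ (K1 + 11) * r ^ 2 := Nat.mul_le_mul_right _ (by omega)
      omega
    rw [hx1]
    calc (2 : ℝ) ^ ((K1 + 8) * r ^ 2) * (√(κ * (n + 1)) * Real.exp (-(n * θ)))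
        ≤ 4 * Real.exp (n * (θ / 2)) * (κ * (n + 1) * Real.exp (-(n * θ))) :=
          mul_le_mul (b1.trans hpow) (mul_le_mul_of_nonneg_right hsq (Real.exp_pos _).le)
            (by positivity) (by positivity)
      _ = 1 / 2 * (8 * (κ * ((n : ℝ) + 1)) * Real.exp (n * (θ / 2)) * Real.exp (-(n * θ))) := by
          ring
      _ ≤ 1 / 2 := by linarith
  have hB : 2 ^ s * (E / V * 2 ^ (s ^ 2)) * (3 * ((2 ^ s) ^ t * (t + 1) *
      (((2 ^ s * (s + 1)) ^ 2 * κ * E) ^ t * (2 ^ t * (2 ^ (t ^ 2) * (2 ^ s) ^ t))))) ≤ 1 := by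
    refine (bnd_B hsr htr hκ0.le hK1 (by linarith) hV0).trans ?_
    calc (2 : ℝ) ^ ((K1 + 11) * r ^ 2 + 2) * (E / V * E ^ t)
        ≤ 4 * Real.exp (n * (θ / 2)) * Real.exp (-(n * θ)) :=
          mul_le_mul hpow hx2 (by positivity) (by positivity)
      _ ≤ 8 * (κ * ((n : ℝ) + 1)) * Real.exp (n * (θ / 2)) * Real.exp (-(n * θ)) := by
          refine mul_le_mul_of_nonneg_right (mul_le_mul_of_nonneg_right ?_ (Real.exp_pos _).le)
            (Real.exp_pos _).le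
          linarith
      _ ≤ 1 := hfin
  have hSml := sml_of hV0 hE1 hκ1 hρ1 hΛ0.le hΛκ hA hB
  have hg0 : ∀ x, g x x = 0 := by
    intro x
    refine hg3 x x ?_
    rw [hammingDist_self]
    omega
  refine ⟨yy (E / V) g, ⟨?_, ?_, ?_⟩, ?_⟩
  · unfold yy pr
    simp
  · intro S u hu v hv huv hd'
    rw [← hdd] at hd'
    unfold yy pr
    rw [Finset.prod_eq_zero (i := (u, v)), mul_zero]
    · exact Finset.mem_offDiag.2 ⟨hu, hv, huv⟩
    · rw [hg3 u v hd', Real.sqrt_zero]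
  · intro D E' hDE f hf
    exact psd_cond hg1 hg2 hg0 hSml D E' hDE f hf
  · have hy : ∀ x : Fin n → Bool, yy (E / V) g {x} = E / V := by
      intro x
      unfold yy pr
      simp
    simp_rw [hy]
    rw [Finset.sum_const, Finset.card_univ, Fintype.card_fun, Fintype.card_bool, Fintype.card_fin,
      nsmul_eq_mul, Nat.cast_pow, Nat.cast_ofNat, Real.exp_sub, ← hE, ← hV]

end Pool.Agent.Y570.LS
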