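import Mathlib
import Pool.Agent.Y570.LS.Asym
import Pool.Agent.Y570.KP.Main
import Pool.Agent.Y570.KP.Complete

/-!
Y570/LS (helper570, MP_0430e4_lc): the hierarchy.
-/

set_option autoImplicit false
set_option linter.unusedSectionVars false

open Filter Topology

namespace Pool.Agent.Y570.LS

open Pool.Agent.TH41.BL

variable {s t n d : ℕ}

/-- the optimum -/
noncomputable def SO (s t n d : ℕ) : ℝ :=
  sSup {v : ℝ | ∃ y, PC s t n d y ∧ v = ∑ x, y {x}}

section

variable {X : Type} [Fintype X] [DecidableEq X] {ι : Type} [Fintype ι]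

lemma sum_fib (F : ι → Finset X) (a : ι → ℝ) (G : Finset X → ℝ) :
    ∑ S, (∑ i, if F i = S then a i else 0) * G S = ∑ i, a i * G (F i) := by
  simp_rw [Finset.sum_mul]
  rw [Finset.sum_comm]
  refine Finset.sum_congr rfl fun i _ => ?_
  simp only [ite_mul, zero_mul]
  rw [Finset.sum_ite_eq, if_pos (Finset.mem_univ _)]

lemma psd_ind {t : ℕ} (c : Finset X → ℝ) (hc : ∀ f : Finset X → ℝ, (∀ S, t < S.card → f S = 0) →
    0 ≤ ∑ S, ∑ T, f S * f T * c (S ∪ T)) (F : ι → Finset X) (hF : ∀ i, (F i).card ≤ t)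
    (a : ι → ℝ) : 0 ≤ ∑ i, ∑ j, a i * a j * c (F i ∪ F j) := by
  have h1 := hc (fun S => ∑ i, if F i = S then a i else 0) (by
    intro S hS
    refine Finset.sum_eq_zero fun i _ => ?_
    rw [if_neg]
    intro h
    have := hF i
    rw [h] at this
    omega)
  refine h1.trans (le_of_eq ?_)
  have e1 : ∀ S : Finset X, ∑ T, (∑ i, if F i = S then a i else 0) *
      (∑ i, if F i = T then a i else 0) * c (S ∪ T) =
      (∑ i, if F i = S then a i else 0) * ∑ j, a j * c (S ∪ F j) := by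
    intro S
    rw [← sum_fib F a fun T => c (S ∪ T), Finset.mul_sum]
    exact Finset.sum_congr rfl fun T _ => by ring
  rw [Finset.sum_congr rfl fun S _ => e1 S, sum_fib F a fun S => ∑ j, a j * c (S ∪ F j)]
  refine Finset.sum_congr rfl fun i _ => ?_
  rw [Finset.mul_sum]
  exact Finset.sum_congr rfl fun j _ => by ring

end

lemma PC.to_kp {y : Finset (Fin n → Bool) → ℝ} (h : PC s t n d y) (ht : 1 ≤ t) :
    KP.PC n d s y := by
  refine ⟨h.one, h.dist, fun D E hDE => ?_, fun D E hDE a => ?_⟩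
  · have h1 := psd_ind (KP.cond y D E) (h.psd D E hDE)
      (fun _ : Unit => (∅ : Finset (Fin n → Bool))) (fun _ => Nat.zero_le _) fun _ => (1 : ℝ)
    rw [Fintype.sum_unique, Fintype.sum_unique, Finset.union_self, mul_one, one_mul] at h1
    exact h1
  · have hF : ∀ o : Option (Fin n → Bool), o.toFinset.card ≤ t := by
      intro o
      cases o
      · exact Nat.zero_le _
      · simpa using ht
    have h0 : D.card + E.card ≤ s := by omega
    have h1 := psd_ind (KP.cond y D E) (h.psd D E h0)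
      (fun o : Option (Fin n → Bool) => o.toFinset) hF a
    exact h1

lemma PC.mono {s' t' : ℕ} (hs : s ≤ s') (ht : t ≤ t') {y : Finset (Fin n → Bool) → ℝ}
    (h : PC s' t' n d y) : PC s t n d y :=
  ⟨h.one, h.dist, fun D E hDE f hf => h.psd D E (by omega) f fun S hS => hf S (by omega)⟩

lemma PC.le_one {y : Finset (Fin n → Bool) → ℝ} (h : PC s t n d y) (ht : 1 ≤ t)
    (x : Fin n → Bool) : y {x} ≤ 1 := by
  have h0 : (∅ : Finset (Fin n → Bool)).card + (∅ : Finset (Fin n → Bool)).card ≤ s := by simp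
  have hF : ∀ b : Bool, (bif b then (∅ : Finset (Fin n → Bool)) else {x}).card ≤ t := by
    intro b
    cases b
    · simpa using ht
    · simp
  have h1 := psd_ind (KP.cond y ∅ ∅) (h.psd ∅ ∅ h0)
    (fun b : Bool => bif b then (∅ : Finset (Fin n → Bool)) else {x}) hF
    (fun b : Bool => bif b then (1 : ℝ) else -1)
  rw [Fintype.sum_bool, Fintype.sum_bool, Fintype.sum_bool] at h1
  simp only [cond_true, cond_false, KP.cond_empty, Finset.empty_union, Finset.union_empty,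
    Finset.union_self, h.one] at h1
  linarith

lemma bdd (ht : 1 ≤ t) : BddAbove {v : ℝ | ∃ y, PC s t n d y ∧ v = ∑ x, y {x}} := by
  refine ⟨∑ _x : Fin n → Bool, 1, ?_⟩
  rintro v ⟨y, hy, rfl⟩
  exact Finset.sum_le_sum fun x _ => hy.le_one ht x

lemma hcond (C D E S : Finset (Fin n → Bool)) :
    KP.cond (fun S => if S ⊆ C then (1 : ℝ) else 0) D E S =
      if Disjoint E C ∧ D ⊆ C ∧ S ⊆ C then 1 else 0 := by
  classical
  by_cases hE : Disjoint E C
  · unfold KP.cond
    rw [Finset.sum_eq_single ∅]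
    · simp only [Finset.card_empty, pow_zero, one_mul, Finset.union_empty,
        Finset.union_subset_iff]
      by_cases h : D ⊆ C ∧ S ⊆ C
      · rw [if_pos h, if_pos ⟨hE, h⟩]
      · rw [if_neg h, if_neg fun h' => h h'.2]
    · intro F hF hne
      rw [Finset.mem_powerset] at hF
      simp only
      rw [if_neg, mul_zero]
      intro hsub
      obtain ⟨f, hf⟩ := Finset.nonempty_iff_ne_empty.2 hne
      exact Finset.disjoint_left.1 hE (hF hf) (hsub (by simp [hf]))
    · intro h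
      exact absurd (Finset.empty_mem_powerset E) h
  · rw [if_neg fun h => hE h.1]
    obtain ⟨e, heE, heC⟩ := Finset.not_disjoint_iff.1 hE
    unfold KP.cond
    obtain ⟨E', hE', rfl⟩ : ∃ E', e ∉ E' ∧ insert e E' = E :=
      ⟨E.erase e, Finset.notMem_erase e E, Finset.insert_erase heE⟩
    rw [Finset.sum_powerset_insert hE', ← Finset.sum_add_distrib]
    refine Finset.sum_eq_zero fun F hF => ?_
    have hF' : e ∉ F := fun h' => hE' (Finset.mem_powerset.1 hF h')
    rw [Finset.card_insert_of_notMem hF', pow_succ]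
    have h1 : D ∪ insert e F ∪ S ⊆ C ↔ D ∪ F ∪ S ⊆ C := by
      simp only [Finset.union_subset_iff, Finset.insert_subset_iff]
      tauto
    simp only [h1]
    ring

/-- the indicator of a code -/
lemma pc_code (C : Finset (Fin n → Bool)) (hC : ∀ x ∈ C, ∀ y ∈ C, x ≠ y → d ≤ hammingDist x y) :
    PC s t n d (fun S => if S ⊆ C then 1 else 0) := by
  classical
  refine ⟨by simp, ?_, ?_⟩
  · intro S u hu v hv huv hd
    rw [if_neg]
    intro hS
    have := hC u (hS hu) v (hS hv) huv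
    omega
  · intro D E _ f _
    have h1 : ∀ S T : Finset (Fin n → Bool),
        f S * f T * KP.cond (fun S => if S ⊆ C then (1 : ℝ) else 0) D E (S ∪ T) =
        (if Disjoint E C ∧ D ⊆ C then 1 else 0) * ((if S ⊆ C then f S else 0) *
          (if T ⊆ C then f T else 0)) := by
      intro S T
      rw [hcond]
      simp only [Finset.union_subset_iff]
      by_cases h1 : Disjoint E C ∧ D ⊆ C
      · by_cases h2 : S ⊆ C
        · by_cases h3 : T ⊆ C
          · rw [if_pos ⟨h1.1, h1.2, h2, h3⟩, if_pos h1, if_pos h2, if_pos h3]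
            ring
          · rw [if_neg fun h => h3 h.2.2.2, if_neg h3]
            ring
        · rw [if_neg fun h => h2 h.2.2.1, if_neg h2]
          ring
      · rw [if_neg fun h => h1 ⟨h.1, h.2.1⟩, if_neg h1]
        ring
    simp_rw [h1, ← Finset.mul_sum, ← Finset.sum_mul]
    refine mul_nonneg ?_ (mul_self_nonneg _)
    split_ifs <;> norm_num

lemma code_le (ht : 1 ≤ t) (C : Finset (Fin n → Bool))
    (hC : ∀ x ∈ C, ∀ y ∈ C, x ≠ y → d ≤ hammingDist x y) : (C.card : ℝ) ≤ SO s t n d := by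
  refine le_csSup (bdd ht) ⟨_, pc_code C hC, ?_⟩
  simp only [Finset.singleton_subset_iff]
  rw [Finset.sum_ite_mem, Finset.univ_inter, Finset.sum_const, nsmul_eq_mul, mul_one]

lemma nonempty (s t n d : ℕ) : {v : ℝ | ∃ y, PC s t n d y ∧ v = ∑ x, y {x}}.Nonempty :=
  ⟨_, _, pc_code ∅ (by simp), rfl⟩

lemma SO_anti {s' t' : ℕ} (hs : s ≤ s') (ht : t ≤ t') (ht1 : 1 ≤ t) :
    SO s' t' n d ≤ SO s t n d := by
  refine csSup_le_csSup (bdd ht1) (nonempty _ _ _ _) ?_
  rintro v ⟨y, hy, rfl⟩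
  exact ⟨y, hy.mono hs ht, rfl⟩

lemma SO_full (hs : 2 ^ n ≤ s) (ht : 1 ≤ t) (M : ℕ)
    (hM : ∀ C : Finset (Fin n → Bool), (∀ x ∈ C, ∀ z ∈ C, x ≠ z → d ≤ hammingDist x z) →
      C.card ≤ M) : SO s t n d ≤ M := by
  refine csSup_le (nonempty _ _ _ _) ?_
  rintro v ⟨y, hy, rfl⟩
  exact KP.full_level hs (hy.to_kp ht) M hM

/-- the solutions of the programs of Gijswijt, Mittelmann and Schrijver -/
structure GP (k n d : ℕ) (y : Finset (Fin n → Bool) → ℝ) : Prop where
  one : y ∅ = 1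
  dist : ∀ S : Finset (Fin n → Bool), ∀ u ∈ S, ∀ v ∈ S, u ≠ v → hammingDist u v < d → y S = 0
  psd : ∀ D : Finset (Fin n → Bool), D.card ≤ k → ∀ f : Finset (Fin n → Bool) → ℝ,
    (∀ S, f S ≠ 0 → D ⊆ S ∧ D.card + 2 * (S \ D).card ≤ k) →
      0 ≤ ∑ S, ∑ T, f S * f T * y (S ∪ T)

/-- the optimum -/
noncomputable def GS (k n d : ℕ) : ℝ :=
  sSup {v : ℝ | ∃ y, GP k n d y ∧ v = ∑ x, y {x}}

lemma PC.to_gp {k : ℕ} {y : Finset (Fin n → Bool) → ℝ} (h : PC k (k / 2) n d y) :
    GP k n d y := by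
  classical
  refine ⟨h.one, h.dist, fun D hD f hf => ?_⟩
  have h1 := psd_ind (KP.cond y D ∅) (h.psd D ∅ (by simpa using hD))
    (fun S : Finset (Fin n → Bool) => if D ⊆ S ∧ D.card + 2 * (S \ D).card ≤ k then S \ D else ∅)
    (fun S => (by
      by_cases hS : D ⊆ S ∧ D.card + 2 * (S \ D).card ≤ k
      · rw [if_pos hS]
        omega
      · rw [if_neg hS]
        simp)) f
  refine h1.trans (le_of_eq ?_)
  refine Finset.sum_congr rfl fun S _ => Finset.sum_congr rfl fun T _ => ?_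
  by_cases hS : f S = 0
  · rw [hS]
    ring
  by_cases hT : f T = 0
  · rw [hT]
    ring
  rw [if_pos (hf S hS), if_pos (hf T hT), KP.cond_empty]
  congr 2
  ext x
  have h2 := (hf S hS).1
  simp only [Finset.mem_union, Finset.mem_sdiff]
  by_cases hx : x ∈ D
  · have := h2 hx
    tauto
  · tauto

lemma GP.le_one {k : ℕ} {y : Finset (Fin n → Bool) → ℝ} (h : GP k n d y) (hk : 2 ≤ k)
    (x : Fin n → Bool) : y {x} ≤ 1 := by
  have hF : ∀ b : Bool, (bif b then (∅ : Finset (Fin n → Bool)) else {x}).card ≤ 1 := by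
    intro b
    cases b <;> simp
  have h0 : ∀ f : Finset (Fin n → Bool) → ℝ, (∀ S, 1 < S.card → f S = 0) →
      0 ≤ ∑ S, ∑ T, f S * f T * y (S ∪ T) := by
    intro f hf
    refine h.psd ∅ (by simp) f fun S hS => ⟨Finset.empty_subset _, ?_⟩
    rw [Finset.sdiff_empty, Finset.card_empty]
    by_contra hc
    exact hS (hf S (by omega))
  have h1 := psd_ind y h0 (fun b : Bool => bif b then (∅ : Finset (Fin n → Bool)) else {x}) hF
    (fun b : Bool => bif b then (1 : ℝ) else -1)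
  rw [Fintype.sum_bool, Fintype.sum_bool, Fintype.sum_bool] at h1
  simp only [cond_true, cond_false, Finset.empty_union, Finset.union_empty,
    Finset.union_self, h.one] at h1
  linarith

lemma bdd_gp {k : ℕ} (hk : 2 ≤ k) : BddAbove {v : ℝ | ∃ y, GP k n d y ∧ v = ∑ x, y {x}} := by
  refine ⟨∑ _x : Fin n → Bool, 1, ?_⟩
  rintro v ⟨y, hy, rfl⟩
  exact Finset.sum_le_sum fun x _ => hy.le_one hk x

lemma SO_le_GS {k : ℕ} (hk : 2 ≤ k) : SO k (k / 2) n d ≤ GS k n d := by
  refine csSup_le_csSup (bdd_gp hk) (nonempty _ _ _ _) ?_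
  rintro v ⟨y, hy, rfl⟩
  exact ⟨y, hy.to_gp, rfl⟩

/-- the lower bound for the optimum -/
theorem SO_lower (hc : S7_chr) {δ γ : ℝ} (h0 : 0 < δ) (h1 : δ < 1 / 2)
    (hγ : γ * Real.log 2 <
      (Real.binEntropy (1 / 2 - √(δ * (1 - δ))) + Real.binEntropy δ - Real.log 2) / 2) :
    ∃ c : ℝ, 0 < c ∧ ∃ n₀ : ℕ, ∀ n ≥ n₀, ∀ s t : ℕ, 1 ≤ t → (s : ℝ) ≤ c * √n →
      (t : ℝ) ≤ c * √n →
        (2 : ℝ) ^ ((1 - Real.binEntropy δ / Real.log 2 + γ / t) * n) ≤ SO s t n ⌈δ * n⌉₊ := by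
  have hl2 : 0 < Real.log 2 := Real.log_pos (by norm_num)
  have hg := gain_pos h0 h1
  obtain ⟨γ', hγ'⟩ : ∃ γ' : ℝ, γ' = max (γ * Real.log 2) 0 := ⟨_, rfl⟩
  have hγ0 : 0 ≤ γ' := by
    rw [hγ']
    exact le_max_right _ _
  have hγ1 : γ * Real.log 2 ≤ γ' := by
    rw [hγ']
    exact le_max_left _ _
  have hγ2 : 2 * γ' < Real.binEntropy (1 / 2 - √(δ * (1 - δ))) + Real.binEntropy δ -
      Real.log 2 := by
    have : γ' < (Real.binEntropy (1 / 2 - √(δ * (1 - δ))) + Real.binEntropy δ -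
        Real.log 2) / 2 := by
      rw [hγ']
      exact max_lt hγ (by linarith)
    linarith
  obtain ⟨c, hc0, n₀, h⟩ := lower hc h0 h1 hγ0 hγ2
  refine ⟨c, hc0, n₀, fun n hn s t ht hs htc => ?_⟩
  obtain ⟨y, hy1, hy2⟩ := h n hn s t ht hs htc
  have h3 : ∑ x, y {x} ≤ SO s t n ⌈δ * n⌉₊ := le_csSup (bdd ht) ⟨y, hy1, rfl⟩
  refine le_trans ?_ h3
  rw [hy2]
  have h2n : (2 : ℝ) ^ n = Real.exp (n * Real.log 2) := by
    rw [mul_comm, Real.exp_mul, Real.exp_log (by norm_num), Real.rpow_natCast]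
  rw [h2n, ← Real.exp_add, Real.rpow_def_of_pos (by norm_num : (0 : ℝ) < 2), Real.exp_le_exp]
  have ht0 : (0 : ℝ) < t := by exact_mod_cast ht
  have hn0 : (0 : ℝ) ≤ n := Nat.cast_nonneg _
  have h4 : Real.log 2 * ((1 - Real.binEntropy δ / Real.log 2 + γ / t) * n) =
      n * Real.log 2 - n * Real.binEntropy δ + (γ * Real.log 2) * n / t := by
    field_simp
  rw [h4]
  have h5 : (γ * Real.log 2) * n / t ≤ γ' * n / t :=
    div_le_div_of_nonneg_right (mul_le_mul_of_nonneg_right hγ1 hn0) ht0.le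
  linarith

end Pool.Agent.Y570.LS
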